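import Mathlib

set_option autoImplicit false
open Complex Metric Set MeasureTheory Filter Topology

namespace Pool.Agent.Helper523.LL

/-! copied from Pool.Agent.Helper469.Univalent -/

theorem mean_disc (F : ℂ → ℂ) (r : ℝ) (hr : 0 < r) (hF : DifferentiableOn ℂ F (ball 0 r)) :
    ENNReal.ofReal (Real.pi * r ^ 2 * ‖F 0‖) ≤ ∫⁻ w in ball 0 r, ENNReal.ofReal ‖F w‖ := by
  rw [← lintegral_indicator measurableSet_ball, ← Complex.lintegral_comp_polarCoord_symm]
  have hsub : Ioo (0:ℝ) r ×ˢ Ioo (-Real.pi) Real.pi ⊆ polarCoord.target := by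
    rintro ⟨a, b⟩ ⟨ha, hb⟩
    exact ⟨ha.1, hb⟩
  refine le_trans ?_ (lintegral_mono_set hsub)
  have h1 : ∫⁻ p in Ioo (0:ℝ) r ×ˢ Ioo (-Real.pi) Real.pi, ENNReal.ofReal p.1 •
      (ball (0:ℂ) r).indicator (fun w => ENNReal.ofReal ‖F w‖) (Complex.polarCoord.symm p) =
      ∫⁻ p in Ioo (0:ℝ) r ×ˢ Ioo (-Real.pi) Real.pi,
        ENNReal.ofReal p.1 * ENNReal.ofReal ‖F (circleMap 0 p.1 p.2)‖ := by
    apply setLIntegral_congr_fun (measurableSet_Ioo.prod measurableSet_Ioo)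
    rintro ⟨ρ, θ⟩ ⟨hρ, -⟩
    simp only [mem_Ioo] at hρ
    simp only [smul_eq_mul]
    have hn : ‖Complex.polarCoord.symm (ρ, θ)‖ = ρ := by
      rw [Complex.norm_polarCoord_symm]; exact abs_of_pos hρ.1
    rw [indicator_of_mem (by rw [mem_ball, dist_zero_right, hn]; exact hρ.2)]
    congr 4
    rw [Complex.polarCoord_symm_apply, circleMap, zero_add, Complex.exp_mul_I]
    simp
  rw [h1, Measure.volume_eq_prod]
  have hmaps : ∀ p ∈ Ioo (0:ℝ) r ×ˢ Ioo (-Real.pi) Real.pi, circleMap 0 p.1 p.2 ∈ ball (0:ℂ) r := by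
    rintro ⟨ρ, θ⟩ ⟨hρ, -⟩
    simp only [mem_Ioo] at hρ
    rw [mem_ball, dist_zero_right, norm_circleMap_zero]
    rw [abs_of_pos hρ.1]; exact hρ.2
  have hcm : Continuous (fun p : ℝ × ℝ => circleMap 0 p.1 p.2) := by
    unfold circleMap; fun_prop
  have hcont : ContinuousOn (fun p : ℝ × ℝ => ‖F (circleMap 0 p.1 p.2)‖)
      (Ioo (0:ℝ) r ×ˢ Ioo (-Real.pi) Real.pi) :=
    (hF.continuousOn.comp hcm.continuousOn hmaps).norm
  rw [setLIntegral_prod]
  swap
  · have h2 : AEMeasurable (fun p : ℝ × ℝ => ‖F (circleMap 0 p.1 p.2)‖)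
        ((volume : Measure (ℝ × ℝ)).restrict (Ioo (0:ℝ) r ×ˢ Ioo (-Real.pi) Real.pi)) :=
      hcont.aemeasurable (measurableSet_Ioo.prod measurableSet_Ioo)
    exact (measurable_fst.ennreal_ofReal.aemeasurable).mul h2.ennreal_ofReal
  have hinner : ∀ ρ ∈ Ioo (0:ℝ) r, ENNReal.ofReal ρ * ENNReal.ofReal (2 * Real.pi * ‖F 0‖) ≤
      ∫⁻ θ in Ioo (-Real.pi) Real.pi, ENNReal.ofReal ρ * ENNReal.ofReal ‖F (circleMap 0 ρ θ)‖ := by
    intro ρ hρ
    rw [lintegral_const_mul' _ _ ENNReal.ofReal_ne_top]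
    gcongr
    have hd : DiffContOnCl ℂ F (ball 0 |ρ|) := by
      rw [abs_of_pos hρ.1]
      apply DifferentiableOn.diffContOnCl
      rw [closure_ball _ hρ.1.ne']
      exact hF.mono (closedBall_subset_ball hρ.2)
    have hav := hd.circleAverage
    rw [Real.circleAverage_eq_integral_add (-Real.pi)] at hav
    rw [intervalIntegral.integral_comp_add_right (fun θ => F (circleMap 0 ρ θ))] at hav
    have hpi := Real.pi_pos
    have e1 : (0:ℝ) + -Real.pi = -Real.pi := by ring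
    have e2 : 2 * Real.pi + -Real.pi = Real.pi := by ring
    rw [e1, e2, intervalIntegral.integral_of_le (by linarith),
      integral_Ioc_eq_integral_Ioo] at hav
    have h3 : ((2 * Real.pi : ℝ)) • F 0 = ∫ θ in Ioo (-Real.pi) Real.pi, F (circleMap 0 ρ θ) := by
      rw [← hav, smul_smul, mul_inv_cancel₀ (by positivity), one_smul]
    have h4 := enorm_integral_le_lintegral_enorm
      (μ := volume.restrict (Ioo (-Real.pi) Real.pi)) (fun θ => F (circleMap 0 ρ θ))
    rw [← h3] at h4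
    have h5 : ‖(2 * Real.pi : ℝ) • F 0‖ₑ = ENNReal.ofReal (2 * Real.pi * ‖F 0‖) := by
      rw [← ofReal_norm, norm_smul, Real.norm_eq_abs, abs_of_pos (by positivity)]
    rw [h5] at h4
    refine h4.trans (le_of_eq ?_)
    apply lintegral_congr
    intro θ
    rw [ofReal_norm]
  refine le_trans ?_ (setLIntegral_mono' measurableSet_Ioo hinner)
  rw [lintegral_mul_const _ (by fun_prop)]
  have h6 : ∫⁻ ρ in Ioo (0:ℝ) r, ENNReal.ofReal ρ = ENNReal.ofReal (r ^ 2 / 2) := by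
    rw [restrict_Ioo_eq_restrict_Ioc, ← ofReal_integral_eq_lintegral_ofReal]
    · rw [← intervalIntegral.integral_of_le hr.le, integral_id]
      congr 1; ring
    · exact (continuous_id.integrableOn_Icc.mono_set Ioc_subset_Icc_self)
    · filter_upwards [ae_restrict_mem measurableSet_Ioc] with x hx
      exact hx.1.le
  rw [h6, ← ENNReal.ofReal_mul (by positivity)]
  apply ENNReal.ofReal_le_ofReal
  apply le_of_eq
  ring


end Pool.Agent.Helper523.LL
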