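import Pool.Agent.Helper523.LL.Main
import Pool.Agent.Helper523.LL.DilP
import Pool.Agent.Helper523.LL.MeanDisc

set_option autoImplicit false

open Set Filter Metric Topology Complex MeasureTheory
open scoped ENNReal Polynomial

namespace Pool.Agent.Helper523.LL
open Pool.Agent.Helper405.Riemann

/-- normalisation of a conformal map -/
theorem normalise {φ : ℂ → ℂ} (hd : DifferentiableOn ℂ φ Om) (hb : BijOn φ Om (ball 0 1)) :
    ∃ (g ψ : ℂ → ℂ) (κ : ℝ), SD Om g ψ ∧ 0 < κ ∧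
      ∀ z ∈ Om, 1 - ‖φ z‖ ≤ κ * (1 - ‖ψ z‖) ∧ 1 - ‖ψ z‖ ≤ κ * (1 - ‖φ z‖) := by
  have hzero : (0:ℂ) ∈ Om := half_sub_Om (mem_ball_self (by norm_num))
  have hlt : ∀ z ∈ Om, ‖φ z‖ < 1 := fun z hz => mem_ball_zero_iff.1 (hb.mapsTo hz)
  set a := φ 0 with ha
  have ha1 : ‖a‖ < 1 := hlt 0 hzero
  set ψ : ℂ → ℂ := fun z => bl a (φ z) with hψ
  have hψd : DifferentiableOn ℂ ψ Om := by
    intro z hz
    have h1 : DifferentiableAt ℂ φ z := hd.differentiableAt (isOpen_Om.mem_nhds hz)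
    exact (DifferentiableAt.comp z (bl_hasDerivAt ha1 (hlt z hz)).differentiableAt h1).differentiableWithinAt
  have hψb : BijOn ψ Om (ball 0 1) := by
    refine ⟨?_, ?_, ?_⟩
    · intro z hz
      rw [mem_ball_zero_iff]
      exact bl_norm_lt ha1 (hlt z hz)
    · intro x hx y hy hxy
      exact hb.injOn hx hy (bl_inj ha1 (hlt x hx) (hlt y hy) hxy)
    · intro w hw
      rw [mem_ball_zero_iff] at hw
      have hna : ‖-a‖ < 1 := by rwa [norm_neg]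
      have h1 : ‖bl (-a) w‖ < 1 := bl_norm_lt hna hw
      obtain ⟨z, hz, hzw⟩ := hb.surjOn (mem_ball_zero_iff.2 h1)
      refine ⟨z, hz, ?_⟩
      simp only [hψ]
      rw [hzw]
      have d1 := bl_den_ne hna hw
      have d2 := bl_den_ne ha1 h1
      rw [bl, bl] at *
      rw [map_neg, neg_mul, sub_neg_eq_add, sub_neg_eq_add] at *
      rw [div_eq_iff d2]
      generalize (starRingEnd ℂ) a = b at d1 d2
      have e3 : (w + a) / (1 + b * w) - a = w * (1 - b * a) / (1 + b * w) := by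
        rw [eq_div_iff d1, sub_mul, div_mul_cancel₀ _ d1]; ring
      have e4 : 1 - b * ((w + a) / (1 + b * w)) = (1 - b * a) / (1 + b * w) := by
        rw [eq_div_iff d1, sub_mul, mul_assoc, div_mul_cancel₀ _ d1]; ring
      rw [e3, e4]; ring
  have hψ0 : ψ 0 = 0 := by simp only [hψ, ← ha, bl_self]
  obtain ⟨g, hSD⟩ := sd_of_conf hψd hψb hψ0
  -- comparison of the weights
  have hapos : 0 < 1 - ‖a‖ ^ 2 := by nlinarith [norm_nonneg a]
  set κ : ℝ := 8 / (1 - ‖a‖) ^ 2 with hκ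
  have ha2 : 0 < 1 - ‖a‖ := by linarith
  have hκ0 : 0 < κ := by positivity
  have hcmp : ∀ z ∈ Om, 1 - ‖φ z‖ ≤ κ * (1 - ‖ψ z‖) ∧ 1 - ‖ψ z‖ ≤ κ * (1 - ‖φ z‖) := by
    intro z hz
    have h1 := hlt z hz
    have h2 : ‖ψ z‖ < 1 := bl_norm_lt ha1 h1
    have hid := bl_id ha1 h1
    have hD1 : ‖1 - (starRingEnd ℂ) a * φ z‖ ≤ 2 := by
      have h3 := norm_sub_le (1:ℂ) ((starRingEnd ℂ) a * φ z)
      rw [norm_one, norm_mul, RCLike.norm_conj] at h3
      nlinarith [norm_nonneg a, norm_nonneg (φ z)]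
    have hD2 : 1 - ‖a‖ ≤ ‖1 - (starRingEnd ℂ) a * φ z‖ := by
      have h3 := norm_sub_norm_le (1:ℂ) ((starRingEnd ℂ) a * φ z)
      rw [norm_one, norm_mul, RCLike.norm_conj] at h3
      nlinarith [norm_nonneg a, norm_nonneg (φ z)]
    set D := ‖1 - (starRingEnd ℂ) a * φ z‖ with hD
    have hpψ : 0 ≤ 1 - ‖ψ z‖ := by linarith
    have hpφ : 0 ≤ 1 - ‖φ z‖ := by linarith
    have hnψ := norm_nonneg (ψ z)
    have hnφ := norm_nonneg (φ z)
    have hna := norm_nonneg a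
    have hidψ : (1 - ‖ψ z‖ ^ 2) * D ^ 2 = (1 - ‖a‖ ^ 2) * (1 - ‖φ z‖ ^ 2) := hid
    have b1 : 1 - ‖φ z‖ ≤ 1 - ‖φ z‖ ^ 2 := by nlinarith
    have b2 : 1 - ‖ψ z‖ ≤ 1 - ‖ψ z‖ ^ 2 := by nlinarith
    have b3 : 1 - ‖φ z‖ ^ 2 ≤ 2 * (1 - ‖φ z‖) := by nlinarith
    have b4 : 1 - ‖ψ z‖ ^ 2 ≤ 2 * (1 - ‖ψ z‖) := by nlinarith
    have hD0 : 0 < D := by linarith
    constructor
    · rw [hκ, div_mul_eq_mul_div, le_div_iff₀ (by positivity)]
      have c1 : (1 - ‖a‖) ^ 2 ≤ 1 - ‖a‖ ^ 2 := by nlinarith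
      calc (1 - ‖φ z‖) * (1 - ‖a‖) ^ 2 ≤ (1 - ‖φ z‖ ^ 2) * (1 - ‖a‖ ^ 2) :=
            mul_le_mul b1 c1 (by positivity) (by linarith)
        _ = (1 - ‖ψ z‖ ^ 2) * D ^ 2 := by rw [hidψ]; ring
        _ ≤ (2 * (1 - ‖ψ z‖)) * 4 := by
            apply mul_le_mul b4 _ (by positivity) (by positivity)
            nlinarith
        _ = 8 * (1 - ‖ψ z‖) := by ring
    · rw [hκ, div_mul_eq_mul_div, le_div_iff₀ (by positivity)]
      calc (1 - ‖ψ z‖) * (1 - ‖a‖) ^ 2 ≤ (1 - ‖ψ z‖ ^ 2) * D ^ 2 := by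
            apply mul_le_mul b2 _ (by positivity) (by linarith)
            exact pow_le_pow_left₀ ha2.le hD2 2
        _ = (1 - ‖a‖ ^ 2) * (1 - ‖φ z‖ ^ 2) := hidψ
        _ ≤ 1 * (2 * (1 - ‖φ z‖)) := by
            apply mul_le_mul _ b3 (by linarith) (by norm_num)
            nlinarith
        _ ≤ 8 * (1 - ‖φ z‖) := by linarith
  exact ⟨g, ψ, κ, hSD, hκ0, hcmp⟩

/-- pointwise estimate in the weighted Bergman space -/
theorem ptwise {Ω : Set ℂ} {g φ : ℂ → ℂ} (h : SD Ω g φ) {H : ℂ → ℂ} (hH : DifferentiableOn ℂ H Ω)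
    {δ : ℝ} (hδ : 0 < δ)
    (hint : ∫⁻ z in Ω, ‖H z‖ₑ * ENNReal.ofReal (wt φ z) ≤ ENNReal.ofReal δ) {z : ℂ} (hz : z ∈ Ω) :
    ‖H z‖ * (1 - ‖φ z‖) ^ 8 ≤ 2 ^ 15 * δ := by
  have hlt := h.norm_phi_lt hz
  set t : ℝ := 1 - ‖φ z‖ with ht
  have ht0 : 0 < t := by linarith
  have ht1 : t ≤ 1 := by have := norm_nonneg (φ z); linarith
  set ρ : ℝ := t ^ 2 / 32 with hρ
  have hρ0 : 0 < ρ := by positivity
  have hb : ball z ρ ⊆ Ω := by
    intro v hv
    by_contra hvΩ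
    have h1 := h.weight_le hz hvΩ
    rw [mem_ball, dist_eq_norm, norm_sub_rev, hρ] at hv
    rw [← ht] at h1
    linarith
  set ρ' : ℝ := ρ * (t / 4) with hρ'
  have hρ'0 : 0 < ρ' := by positivity
  have hρ'ρ : ρ' ≤ ρ := by
    rw [hρ']
    nlinarith
  have hsub : ball z ρ' ⊆ Ω := (ball_subset_ball hρ'ρ).trans hb
  have hwt : ∀ x ∈ ball z ρ', t ^ 2 / 4 ≤ wt φ x := by
    intro x hx
    have h1 := Complex.dist_le_div_mul_dist_of_mapsTo_ball (f := φ) (c := z) (R₁ := ρ) (R₂ := 2)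
      (h.φd.mono hb)
      (by
        intro y hy
        rw [mem_closedBall]
        have h2 := h.norm_phi_lt (hb hy)
        rw [dist_eq_norm]
        have := norm_sub_le (φ y) (φ z)
        linarith) (ball_subset_ball hρ'ρ hx)
    have h3 : 2 / ρ * dist x z ≤ 2 / ρ * ρ' := mul_le_mul_of_nonneg_left (le_of_lt hx) (by positivity)
    have h4 : 2 / ρ * ρ' = t / 2 := by rw [hρ']; field_simp; ring
    have h5 : ‖φ x‖ ≤ ‖φ z‖ + t / 2 := by
      have h6 := norm_sub_norm_le (φ x) (φ z)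
      rw [← dist_eq_norm] at h6
      linarith
    have h7 : t / 2 ≤ 1 - ‖φ x‖ := by linarith
    unfold wt
    calc t ^ 2 / 4 = (t / 2) ^ 2 := by ring
      _ ≤ (1 - ‖φ x‖) ^ 2 := pow_le_pow_left₀ (by positivity) h7 2
  have hmd := mean_disc (fun w => H (w + z)) ρ' hρ'0 (by
    intro w hw
    have h1 : DifferentiableAt ℂ H (w + z) := by
      apply hH.differentiableAt (h.isOpen.mem_nhds (hsub _))
      rw [mem_ball, dist_eq_norm, add_sub_cancel_right]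
      rwa [mem_ball_zero_iff] at hw
    exact (DifferentiableAt.comp w h1 (differentiableAt_id.add_const z)).differentiableWithinAt)
  simp only [zero_add] at hmd
  have hshift : ∫⁻ w in ball 0 ρ', ENNReal.ofReal ‖H (w + z)‖ = ∫⁻ x in ball z ρ', ENNReal.ofReal ‖H x‖ := by
    rw [← lintegral_indicator measurableSet_ball, ← lintegral_indicator measurableSet_ball,
      ← lintegral_add_right_eq_self
        (fun x => (ball z ρ').indicator (fun x => ENNReal.ofReal ‖H x‖) x) z]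
    apply lintegral_congr
    intro w
    by_cases hw : w ∈ ball (0:ℂ) ρ'
    · rw [indicator_of_mem hw, indicator_of_mem]
      rw [mem_ball, dist_eq_norm, add_sub_cancel_right]
      rwa [mem_ball_zero_iff] at hw
    · rw [indicator_of_notMem hw, indicator_of_notMem]
      rw [mem_ball, dist_eq_norm, add_sub_cancel_right]
      rwa [mem_ball_zero_iff] at hw
  rw [hshift] at hmd
  have hle : ∫⁻ x in ball z ρ', ENNReal.ofReal ‖H x‖ ≤ ENNReal.ofReal (4 / t ^ 2) * ENNReal.ofReal δ := by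
    calc ∫⁻ x in ball z ρ', ENNReal.ofReal ‖H x‖
        ≤ ∫⁻ x in ball z ρ', ENNReal.ofReal (4 / t ^ 2) * (‖H x‖ₑ * ENNReal.ofReal (wt φ x)) := by
          apply setLIntegral_mono' measurableSet_ball
          intro x hx
          rw [← ofReal_norm, ← ENNReal.ofReal_mul (norm_nonneg _), ← ENNReal.ofReal_mul (by positivity)]
          apply ENNReal.ofReal_le_ofReal
          have h1 := hwt x hx
          calc ‖H x‖ = 4 / t ^ 2 * (‖H x‖ * (t ^ 2 / 4)) := by field_simp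
            _ ≤ 4 / t ^ 2 * (‖H x‖ * wt φ x) := by gcongr
      _ = ENNReal.ofReal (4 / t ^ 2) * ∫⁻ x in ball z ρ', ‖H x‖ₑ * ENNReal.ofReal (wt φ x) :=
          lintegral_const_mul' _ _ ENNReal.ofReal_ne_top
      _ ≤ ENNReal.ofReal (4 / t ^ 2) * ENNReal.ofReal δ := by
          gcongr
          exact (lintegral_mono_set hsub).trans hint
  have hfin := hmd.trans hle
  rw [← ENNReal.ofReal_mul (by positivity), ENNReal.ofReal_le_ofReal_iff (by positivity)] at hfin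
  have e1 : Real.pi * ρ' ^ 2 * ‖H z‖ = Real.pi * (t ^ 6 / 2 ^ 14) * ‖H z‖ := by
    rw [hρ', hρ]; ring
  rw [e1] at hfin
  have h3 : (3:ℝ) < Real.pi := Real.pi_gt_three
  have h4 : 3 * (t ^ 6 / 2 ^ 14) * ‖H z‖ ≤ Real.pi * (t ^ 6 / 2 ^ 14) * ‖H z‖ := by gcongr
  have h5 : 3 * (t ^ 6 / 2 ^ 14) * ‖H z‖ ≤ 4 / t ^ 2 * δ := h4.trans hfin
  have h6 : t ^ 2 * (3 * (t ^ 6 / 2 ^ 14) * ‖H z‖) ≤ t ^ 2 * (4 / t ^ 2 * δ) :=
    mul_le_mul_of_nonneg_left h5 (by positivity)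
  have h7 : t ^ 2 * (4 / t ^ 2 * δ) = 4 * δ := by field_simp
  rw [h7] at h6
  have h8 : t ^ 2 * (3 * (t ^ 6 / 2 ^ 14) * ‖H z‖) = 3 / 2 ^ 14 * (‖H z‖ * t ^ 8) := by ring
  rw [h8] at h6
  have h9 : 0 ≤ ‖H z‖ * t ^ 8 := by positivity
  norm_num at h6 ⊢
  linarith

section
variable {g φ : ℂ → ℂ}

theorem dense_boundedP (h : SD Om g φ) (M : ℕ) {p : ℝ} (hp : 1 ≤ p) (hM : 8 * (p - 1) ≤ M)
    {F : ℂ → ℂ} (hF : DifferentiableOn ℂ F Om) {C : ℝ}
    (hC : ∀ z ∈ Om, ‖F z‖ ≤ C) {ε : ℝ≥0∞} (hε : 0 < ε) :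
    ∃ P : ℂ[X], ∫⁻ z in Om, ‖F z - P.eval z‖ₑ ^ p * ENNReal.ofReal (wN M φ z) < ε := by
  have hm0 : 0 < min ε (ENNReal.ofReal (1 / 2 ^ 15)) := lt_min hε (ENNReal.ofReal_pos.2 (by positivity))
  have hmt : min ε (ENNReal.ofReal (1 / 2 ^ 15)) ≠ ∞ :=
    ((min_le_right _ _).trans_lt ENNReal.ofReal_lt_top).ne
  set δ : ℝ := (min ε (ENNReal.ofReal (1 / 2 ^ 15))).toReal with hδ
  have hδ0 : 0 < δ := ENNReal.toReal_pos hm0.ne' hmt
  have hδe : ENNReal.ofReal δ = min ε (ENNReal.ofReal (1 / 2 ^ 15)) := ENNReal.ofReal_toReal hmt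
  have hδ1 : 2 ^ 15 * δ ≤ 1 := by
    have h1 : ENNReal.ofReal δ ≤ ENNReal.ofReal (1 / 2 ^ 15) := by rw [hδe]; exact min_le_right _ _
    rw [ENNReal.ofReal_le_ofReal_iff (by positivity)] at h1
    calc 2 ^ 15 * δ ≤ 2 ^ 15 * (1 / 2 ^ 15) := mul_le_mul_of_nonneg_left h1 (by positivity)
      _ = 1 := by norm_num
  obtain ⟨P, hP⟩ := dense_bounded h hF hC (ε := ENNReal.ofReal δ) (ENNReal.ofReal_pos.2 hδ0)
  refine ⟨P, ?_⟩
  have hHd : DifferentiableOn ℂ (fun z => F z - P.eval z) Om :=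
    hF.sub P.differentiable.differentiableOn
  have hpt : ∀ z ∈ Om, ‖F z - P.eval z‖ * (1 - ‖φ z‖) ^ 8 ≤ 1 := fun z hz =>
    (ptwise h hHd hδ0 hP.le hz).trans hδ1
  calc ∫⁻ z in Om, ‖F z - P.eval z‖ₑ ^ p * ENNReal.ofReal (wN M φ z)
      ≤ ∫⁻ z in Om, ‖F z - P.eval z‖ₑ * ENNReal.ofReal (wt φ z) := by
        apply setLIntegral_mono' h.meas
        intro z hz
        have hlt := h.norm_phi_lt hz
        have ht0 : 0 < 1 - ‖φ z‖ := by linarith
        have ht1 : 1 - ‖φ z‖ ≤ 1 := by have := norm_nonneg (φ z); linarith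
        have h1 := hpt z hz
        set t := 1 - ‖φ z‖ with ht
        set x := ‖F z - P.eval z‖ with hx
        have hx0 : 0 ≤ x := norm_nonneg _
        rw [← ofReal_norm, ENNReal.ofReal_rpow_of_nonneg hx0 (by linarith),
          ← ENNReal.ofReal_mul (by positivity), ← ENNReal.ofReal_mul hx0]
        apply ENNReal.ofReal_le_ofReal
        have e1 : x ^ p = x * x ^ (p - 1) := by
          conv_lhs => rw [show p = 1 + (p - 1) by ring]
          rw [Real.rpow_add_of_nonneg hx0 zero_le_one (by linarith), Real.rpow_one]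
        have e2 : wN M φ z = t ^ M * t ^ 2 := by unfold wN; rw [pow_add]
        have e3 : wt φ z = t ^ 2 := rfl
        have e4 : x ^ (p - 1) * t ^ M ≤ 1 := by
          have h2 : t ^ M ≤ (t ^ 8) ^ (p - 1) := by
            rw [← Real.rpow_natCast t M, ← Real.rpow_natCast t 8, ← Real.rpow_mul ht0.le]
            apply Real.rpow_le_rpow_of_exponent_ge ht0 ht1
            push_cast
            linarith
          calc x ^ (p - 1) * t ^ M ≤ x ^ (p - 1) * (t ^ 8) ^ (p - 1) :=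
                mul_le_mul_of_nonneg_left h2 (by positivity)
            _ = (x * t ^ 8) ^ (p - 1) := by rw [Real.mul_rpow hx0 (by positivity)]
            _ ≤ 1 := Real.rpow_le_one (by positivity) h1 (by linarith)
        rw [e1, e2, e3]
        calc x * x ^ (p - 1) * (t ^ M * t ^ 2) = (x * t ^ 2) * (x ^ (p - 1) * t ^ M) := by ring
          _ ≤ (x * t ^ 2) * 1 := mul_le_mul_of_nonneg_left e4 (by positivity)
          _ = x * t ^ 2 := mul_one _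
    _ < ENNReal.ofReal δ := hP
    _ ≤ ε := by rw [hδe]; exact min_le_left _ _

theorem dense_allP (h : SD Om g φ) (M : ℕ) {p : ℝ} (hp : 1 ≤ p) (hM : 8 * (p - 1) ≤ M)
    {f : ℂ → ℂ} (hf : DifferentiableOn ℂ f Om)
    (hfin : ∫⁻ z in Om, ‖f z‖ₑ ^ p * ENNReal.ofReal (wN M φ z) < ∞) {ε : ℝ≥0∞} (hε : 0 < ε) :
    ∃ P : ℂ[X], ∫⁻ z in Om, ‖f z - P.eval z‖ₑ ^ p * ENNReal.ofReal (wN M φ z) < ε := by
  have hp0 : 0 < p := by linarith
  set κ : ℝ≥0∞ := (2 : ℝ≥0∞) ^ (p - 1) with hκ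
  have hκt : κ ≠ ∞ := by
    rw [hκ]
    exact ENNReal.rpow_ne_top_of_nonneg (by linarith) (by norm_num)
  have hκ0 : κ ≠ 0 := by
    rw [hκ]
    exact (ENNReal.rpow_pos (by norm_num) (by norm_num)).ne'
  have hε' : 0 < ε / κ / 2 := ENNReal.half_pos (ENNReal.div_pos hε.ne' hκt).ne'
  obtain ⟨F, hF, ⟨C, hC⟩, h1⟩ := h.dilP M hp hf hfin hε'
  obtain ⟨P, hP⟩ := dense_boundedP h M hp hM hF hC hε'
  refine ⟨P, ?_⟩
  have hm : AEMeasurable (fun z => ‖f z - F z‖ₑ ^ p * ENNReal.ofReal (wN M φ z)) (volume.restrict Om) := by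
    have hwc : ContinuousOn (wN M φ) Om := by
      unfold wN
      exact (continuousOn_const.sub h.φd.continuousOn.norm).pow _
    have h2 := (((hf.continuousOn.sub hF.continuousOn).aestronglyMeasurable h.meas (μ := volume)).enorm).pow_const p
    have h3 := (hwc.aemeasurable h.meas (μ := volume)).ennreal_ofReal
    exact h2.mul h3
  calc ∫⁻ z in Om, ‖f z - P.eval z‖ₑ ^ p * ENNReal.ofReal (wN M φ z)
      ≤ ∫⁻ z in Om, κ * (‖f z - F z‖ₑ ^ p * ENNReal.ofReal (wN M φ z) +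
          ‖F z - P.eval z‖ₑ ^ p * ENNReal.ofReal (wN M φ z)) := by
        apply lintegral_mono
        intro z
        simp only
        rw [← add_mul, ← mul_assoc]
        gcongr
        have e : f z - P.eval z = (f z - F z) + (F z - P.eval z) := by ring
        calc ‖f z - P.eval z‖ₑ ^ p ≤ (‖f z - F z‖ₑ + ‖F z - P.eval z‖ₑ) ^ p := by
              apply ENNReal.rpow_le_rpow _ hp0.le
              rw [e]
              exact enorm_add_le _ _
          _ ≤ κ * (‖f z - F z‖ₑ ^ p + ‖F z - P.eval z‖ₑ ^ p) :=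
              ENNReal.rpow_add_le_mul_rpow_add_rpow _ _ hp
    _ = κ * ∫⁻ z in Om, (‖f z - F z‖ₑ ^ p * ENNReal.ofReal (wN M φ z) +
          ‖F z - P.eval z‖ₑ ^ p * ENNReal.ofReal (wN M φ z)) := lintegral_const_mul' _ _ hκt
    _ = κ * ((∫⁻ z in Om, ‖f z - F z‖ₑ ^ p * ENNReal.ofReal (wN M φ z)) +
          ∫⁻ z in Om, ‖F z - P.eval z‖ₑ ^ p * ENNReal.ofReal (wN M φ z)) := by
        rw [lintegral_add_left' hm]
    _ < κ * (ε / κ / 2 + ε / κ / 2) :=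
        (ENNReal.mul_lt_mul_iff_right hκ0 hκt).2 (ENNReal.add_lt_add h1 hP)
    _ = ε := by rw [ENNReal.add_halves, ENNReal.mul_div_cancel hκ0 hκt]

end

/-- Completeness for every `p ≥ 1` and every conformal map, with `W(t) = t^(M+2)`. -/
theorem dense_confP {φ : ℂ → ℂ} (hd : DifferentiableOn ℂ φ Om) (hb : BijOn φ Om (ball 0 1))
    (M : ℕ) {p : ℝ} (hp : 1 ≤ p) (hM : 8 * (p - 1) ≤ M)
    {f : ℂ → ℂ} (hf : DifferentiableOn ℂ f Om)
    (hfin : ∫⁻ z in Om, ‖f z‖ₑ ^ p * ENNReal.ofReal (wN M φ z) < ∞) {ε : ℝ≥0∞} (hε : 0 < ε) :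
    ∃ P : ℂ[X], ∫⁻ z in Om, ‖f z - P.eval z‖ₑ ^ p * ENNReal.ofReal (wN M φ z) < ε := by
  obtain ⟨g, ψ, κ, hSD, hκ0, hcmp⟩ := normalise hd hb
  have hlt : ∀ z ∈ Om, ‖φ z‖ < 1 := fun z hz => mem_ball_zero_iff.1 (hb.mapsTo hz)
  have hw1 : ∀ z ∈ Om, ENNReal.ofReal (wN M φ z) ≤ ENNReal.ofReal (κ ^ (M + 2)) * ENNReal.ofReal (wN M ψ z) := by
    intro z hz
    rw [← ENNReal.ofReal_mul (by positivity)]
    apply ENNReal.ofReal_le_ofReal
    have h1 := (hcmp z hz).1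
    have h2 := hlt z hz
    unfold wN
    rw [← mul_pow]
    exact pow_le_pow_left₀ (by linarith) h1 _
  have hw2 : ∀ z ∈ Om, ENNReal.ofReal (wN M ψ z) ≤ ENNReal.ofReal (κ ^ (M + 2)) * ENNReal.ofReal (wN M φ z) := by
    intro z hz
    rw [← ENNReal.ofReal_mul (by positivity)]
    apply ENNReal.ofReal_le_ofReal
    have h1 := (hcmp z hz).2
    have h2 := hSD.norm_phi_lt hz
    unfold wN
    rw [← mul_pow]
    exact pow_le_pow_left₀ (by linarith) h1 _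
  set K : ℝ≥0∞ := ENNReal.ofReal (κ ^ (M + 2)) with hK
  have hK0 : K ≠ 0 := by
    rw [hK, Ne, ENNReal.ofReal_eq_zero, not_le]; positivity
  have hKt : K ≠ ∞ := ENNReal.ofReal_ne_top
  have hfin2 : ∫⁻ z in Om, ‖f z‖ₑ ^ p * ENNReal.ofReal (wN M ψ z) < ∞ := by
    calc ∫⁻ z in Om, ‖f z‖ₑ ^ p * ENNReal.ofReal (wN M ψ z)
        ≤ ∫⁻ z in Om, K * (‖f z‖ₑ ^ p * ENNReal.ofReal (wN M φ z)) := by
          apply setLIntegral_mono' isOpen_Om.measurableSet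
          intro z hz
          calc ‖f z‖ₑ ^ p * ENNReal.ofReal (wN M ψ z) ≤ ‖f z‖ₑ ^ p * (K * ENNReal.ofReal (wN M φ z)) := by
                gcongr
                exact hw2 z hz
            _ = K * (‖f z‖ₑ ^ p * ENNReal.ofReal (wN M φ z)) := by ring
      _ = K * ∫⁻ z in Om, ‖f z‖ₑ ^ p * ENNReal.ofReal (wN M φ z) := lintegral_const_mul' _ _ hKt
      _ < ∞ := ENNReal.mul_lt_top hKt.lt_top hfin
  obtain ⟨P, hP⟩ := dense_allP hSD M hp hM hf hfin2 (ε := ε / K) (ENNReal.div_pos hε.ne' hKt)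
  refine ⟨P, ?_⟩
  calc ∫⁻ z in Om, ‖f z - P.eval z‖ₑ ^ p * ENNReal.ofReal (wN M φ z)
      ≤ ∫⁻ z in Om, K * (‖f z - P.eval z‖ₑ ^ p * ENNReal.ofReal (wN M ψ z)) := by
        apply setLIntegral_mono' isOpen_Om.measurableSet
        intro z hz
        calc ‖f z - P.eval z‖ₑ ^ p * ENNReal.ofReal (wN M φ z) ≤ ‖f z - P.eval z‖ₑ ^ p * (K * ENNReal.ofReal (wN M ψ z)) := by
              gcongr
              exact hw1 z hz
          _ = K * (‖f z - P.eval z‖ₑ ^ p * ENNReal.ofReal (wN M ψ z)) := by ring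
    _ = K * ∫⁻ z in Om, ‖f z - P.eval z‖ₑ ^ p * ENNReal.ofReal (wN M ψ z) := lintegral_const_mul' _ _ hKt
    _ < K * (ε / K) := (ENNReal.mul_lt_mul_iff_right hK0 hKt).2 hP
    _ = ε := ENNReal.mul_div_cancel hK0 hKt

end Pool.Agent.Helper523.LL
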