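import Mathlib

set_option autoImplicit false

open MeasureTheory Set Filter Metric Topology Complex

namespace Pool.Agent.Helper523.LL

/-- `|z|^{-1}` on the unit disc -/
noncomputable def invN (v : ℂ) : ℝ := (ball (0 : ℂ) 1).indicator (fun v => ‖v‖⁻¹) v

theorem invN_integrable : Integrable invN := by
  unfold invN
  rw [integrable_indicator_iff measurableSet_ball]
  refine integrableOn_ball_of_norm_le_rpow (C := 1) (α := 1) ?_ ?_ ?_ ?_
  · rw [Complex.finrank_real_complex]; norm_num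
  · rw [Complex.finrank_real_complex]; norm_num
  · filter_upwards with x
    rw [Real.rpow_neg_one, one_mul, norm_inv, norm_norm]
  · exact (measurable_norm.inv : Measurable fun v : ℂ => ‖v‖⁻¹).aestronglyMeasurable

/-- a universal constant -/
noncomputable def C0 : ℝ := (∫ v, invN v) + (volume (ball (0 : ℂ) 1)).toReal

theorem invN_nonneg (v : ℂ) : 0 ≤ invN v :=
  Set.indicator_nonneg (fun _ _ => inv_nonneg.2 (norm_nonneg _)) _

theorem C0_nonneg : 0 ≤ C0 :=
  add_nonneg (integral_nonneg invN_nonneg) ENNReal.toReal_nonneg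

theorem kern_le (z ζ : ℂ) : (ball (0 : ℂ) 1).indicator (fun ζ => ‖ζ - z‖⁻¹) ζ ≤
    invN (ζ - z) + (ball (0 : ℂ) 1).indicator (fun _ => (1 : ℝ)) ζ := by
  by_cases hζ : ζ ∈ ball (0 : ℂ) 1
  · rw [indicator_of_mem hζ, indicator_of_mem hζ]
    by_cases h : ζ - z ∈ ball (0 : ℂ) 1
    · unfold invN
      rw [indicator_of_mem h]
      linarith
    · unfold invN
      rw [indicator_of_notMem h, zero_add]
      rw [mem_ball_zero_iff, not_lt] at h
      exact inv_le_one_of_one_le₀ h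
  · rw [indicator_of_notMem hζ, indicator_of_notMem hζ, add_zero]
    exact invN_nonneg _

theorem dom_integrable (z : ℂ) : Integrable (fun ζ : ℂ => invN (ζ - z) +
    (ball (0 : ℂ) 1).indicator (fun _ => (1 : ℝ)) ζ) := by
  apply (invN_integrable.comp_sub_right z).add
  rw [integrable_indicator_iff measurableSet_ball]
  exact integrableOn_const measure_ball_lt_top.ne

theorem kern_integrable (z : ℂ) : Integrable ((ball (0 : ℂ) 1).indicator (fun ζ : ℂ => ‖ζ - z‖⁻¹)) := by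
  apply (dom_integrable z).mono'
  · apply AEStronglyMeasurable.indicator _ measurableSet_ball
    exact ((measurable_id.sub_const z).norm.inv).aestronglyMeasurable
  · filter_upwards with ζ
    rw [Real.norm_of_nonneg (Set.indicator_nonneg (fun _ _ => inv_nonneg.2 (norm_nonneg _)) _)]
    exact kern_le z ζ

theorem kern_integral_le (z : ℂ) :
    ∫ ζ, (ball (0 : ℂ) 1).indicator (fun ζ : ℂ => ‖ζ - z‖⁻¹) ζ ≤ C0 := by
  calc ∫ ζ, (ball (0 : ℂ) 1).indicator (fun ζ : ℂ => ‖ζ - z‖⁻¹) ζ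
      ≤ ∫ ζ, (invN (ζ - z) + (ball (0 : ℂ) 1).indicator (fun _ => (1 : ℝ)) ζ) :=
        integral_mono (kern_integrable z) (dom_integrable z) (kern_le z)
    _ = C0 := by
        rw [integral_add (invN_integrable.comp_sub_right z), integral_sub_right_eq_self,
          integral_indicator measurableSet_ball, setIntegral_const, smul_eq_mul, mul_one]
        · rfl
        · rw [integrable_indicator_iff measurableSet_ball]
          exact integrableOn_const measure_ball_lt_top.ne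

/-- admissible densities -/
structure Adm (u : ℂ → ℂ) (M : ℝ) : Prop where
  meas : Measurable u
  bd : ∀ ζ, ‖u ζ‖ ≤ M
  supp : ∀ ζ, ζ ∉ ball (0 : ℂ) 1 → u ζ = 0

theorem Adm.nonneg {u : ℂ → ℂ} {M : ℝ} (h : Adm u M) : 0 ≤ M := (norm_nonneg _).trans (h.bd 0)

/-- Cauchy transform -/
noncomputable def T (u : ℂ → ℂ) (z : ℂ) : ℂ := ∫ ζ, u ζ * (ζ - z)⁻¹

theorem Adm.norm_le {u : ℂ → ℂ} {M : ℝ} (h : Adm u M) (z ζ : ℂ) :
    ‖u ζ * (ζ - z)⁻¹‖ ≤ M * (ball (0 : ℂ) 1).indicator (fun ζ : ℂ => ‖ζ - z‖⁻¹) ζ := by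
  by_cases hζ : ζ ∈ ball (0 : ℂ) 1
  · rw [indicator_of_mem hζ, norm_mul, norm_inv]
    exact mul_le_mul_of_nonneg_right (h.bd ζ) (inv_nonneg.2 (norm_nonneg _))
  · rw [h.supp ζ hζ, indicator_of_notMem hζ]; simp

theorem Adm.integrable {u : ℂ → ℂ} {M : ℝ} (h : Adm u M) (z : ℂ) :
    Integrable (fun ζ => u ζ * (ζ - z)⁻¹) := by
  apply ((kern_integrable z).const_mul M).mono'
  · exact (h.meas.mul (measurable_id.sub_const z).inv).aestronglyMeasurable
  · filter_upwards with ζ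
    exact h.norm_le z ζ

theorem Adm.norm_T_le {u : ℂ → ℂ} {M : ℝ} (h : Adm u M) (z : ℂ) : ‖T u z‖ ≤ M * C0 := by
  calc ‖T u z‖ ≤ ∫ ζ, ‖u ζ * (ζ - z)⁻¹‖ := norm_integral_le_integral_norm _
    _ ≤ ∫ ζ, M * (ball (0 : ℂ) 1).indicator (fun ζ : ℂ => ‖ζ - z‖⁻¹) ζ :=
        integral_mono (h.integrable z).norm ((kern_integrable z).const_mul M) (h.norm_le z)
    _ = M * ∫ ζ, (ball (0 : ℂ) 1).indicator (fun ζ : ℂ => ‖ζ - z‖⁻¹) ζ := integral_const_mul _ _
    _ ≤ M * C0 := mul_le_mul_of_nonneg_left (kern_integral_le z) h.nonneg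

theorem Adm.integrable_self {u : ℂ → ℂ} {M : ℝ} (h : Adm u M) : Integrable u := by
  have hi : Integrable ((ball (0 : ℂ) 1).indicator (fun _ => M)) := by
    rw [integrable_indicator_iff measurableSet_ball]
    exact integrableOn_const measure_ball_lt_top.ne
  apply hi.mono' h.meas.aestronglyMeasurable
  filter_upwards with ζ
  by_cases hζ : ζ ∈ ball (0 : ℂ) 1
  · rw [indicator_of_mem hζ]; exact h.bd ζ
  · rw [h.supp ζ hζ, indicator_of_notMem hζ]; simp

theorem Adm.integrable_mul_pow {u : ℂ → ℂ} {M : ℝ} (h : Adm u M) (k : ℕ) :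
    Integrable (fun ζ => u ζ * ζ ^ k) := by
  have hm : Measurable (fun ζ => u ζ * ζ ^ k) := h.meas.mul (measurable_id.pow_const k)
  apply h.integrable_self.norm.mono' hm.aestronglyMeasurable
  filter_upwards with ζ
  by_cases hζ : ζ ∈ ball (0 : ℂ) 1
  · rw [norm_mul, norm_pow]
    have h1 : ‖ζ‖ ^ k ≤ 1 := pow_le_one₀ (norm_nonneg _) (mem_ball_zero_iff.1 hζ).le
    calc ‖u ζ‖ * ‖ζ‖ ^ k ≤ ‖u ζ‖ * 1 := mul_le_mul_of_nonneg_left h1 (norm_nonneg _)
      _ = ‖u ζ‖ := mul_one _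
  · rw [h.supp ζ hζ]; simp

/-- Lipschitz estimate at a point where `u` vanishes to first order -/
theorem Adm.T_sub_le {u : ℂ → ℂ} {M : ℝ} (h : Adm u M) {L : ℝ} {v : ℂ}
    (hv : ∀ ζ, ‖u ζ‖ ≤ L * ‖ζ - v‖) (hL : 0 ≤ L) (z : ℂ) :
    ‖T u z - T u v‖ ≤ L * C0 * ‖z - v‖ := by
  have hsub : T u z - T u v = ∫ ζ, (u ζ * (ζ - z)⁻¹ - u ζ * (ζ - v)⁻¹) := by
    unfold T
    rw [integral_sub (h.integrable z) (h.integrable v)]
  rw [hsub]
  have hae : ∀ᵐ ζ : ℂ, ‖u ζ * (ζ - z)⁻¹ - u ζ * (ζ - v)⁻¹‖ ≤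
      (L * ‖z - v‖) * (ball (0 : ℂ) 1).indicator (fun ζ : ℂ => ‖ζ - z‖⁻¹) ζ := by
    have h1 : ∀ᵐ ζ : ℂ, ζ ≠ z := by
      rw [ae_iff]; simp
    have h2 : ∀ᵐ ζ : ℂ, ζ ≠ v := by
      rw [ae_iff]; simp
    filter_upwards [h1, h2] with ζ hz hzv
    by_cases hζ : ζ ∈ ball (0 : ℂ) 1
    · rw [indicator_of_mem hζ]
      have e1 : ζ - z ≠ 0 := sub_ne_zero.2 hz
      have e2 : ζ - v ≠ 0 := sub_ne_zero.2 hzv
      have e : u ζ * (ζ - z)⁻¹ - u ζ * (ζ - v)⁻¹ = u ζ * (ζ - v)⁻¹ * (z - v) * (ζ - z)⁻¹ := by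
        field_simp
        ring
      rw [e, norm_mul, norm_mul, norm_mul, norm_inv, norm_inv]
      have h3 : ‖u ζ‖ * ‖ζ - v‖⁻¹ ≤ L := by
        rw [mul_inv_le_iff₀ (norm_pos_iff.2 e2)]
        exact hv ζ
      have h4 : ‖u ζ‖ * ‖ζ - v‖⁻¹ * ‖z - v‖ ≤ L * ‖z - v‖ :=
        mul_le_mul_of_nonneg_right h3 (norm_nonneg _)
      exact mul_le_mul_of_nonneg_right h4 (inv_nonneg.2 (norm_nonneg _))
    · rw [h.supp ζ hζ, indicator_of_notMem hζ]; simp
  have hint : Integrable (fun ζ => (L * ‖z - v‖) *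
      (ball (0 : ℂ) 1).indicator (fun ζ : ℂ => ‖ζ - z‖⁻¹) ζ) := (kern_integrable z).const_mul _
  calc ‖∫ ζ, (u ζ * (ζ - z)⁻¹ - u ζ * (ζ - v)⁻¹)‖
      ≤ ∫ ζ, (L * ‖z - v‖) * (ball (0 : ℂ) 1).indicator (fun ζ : ℂ => ‖ζ - z‖⁻¹) ζ :=
        norm_integral_le_of_norm_le hint hae
    _ = (L * ‖z - v‖) * ∫ ζ, (ball (0 : ℂ) 1).indicator (fun ζ : ℂ => ‖ζ - z‖⁻¹) ζ :=
        integral_const_mul _ _
    _ ≤ (L * ‖z - v‖) * C0 :=
        mul_le_mul_of_nonneg_left (kern_integral_le z) (by positivity)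
    _ = L * C0 * ‖z - v‖ := by ring

/-- outside of the closed disc, `T u` vanishes if `u` annihilates the monomials -/
theorem Adm.T_out {u : ℂ → ℂ} {M : ℝ} (h : Adm u M) (hk : ∀ k : ℕ, ∫ ζ, u ζ * ζ ^ k = 0)
    {v : ℂ} (hv : 1 < ‖v‖) : T u v = 0 := by
  have hv0 : v ≠ 0 := fun h0 => by rw [h0, norm_zero] at hv; linarith
  have hvp : 0 < ‖v‖ - 1 := by linarith
  -- bound for every N
  have key : ∀ N : ℕ, ‖T u v‖ ≤ (‖v‖⁻¹) ^ N * ((‖v‖ - 1)⁻¹ * ∫ ζ, ‖u ζ‖) := by
    intro N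
    have hpol : ∫ ζ, u ζ * (∑ k ∈ Finset.range N, ζ ^ k * (v⁻¹) ^ (k + 1)) = 0 := by
      have e : (fun ζ => u ζ * (∑ k ∈ Finset.range N, ζ ^ k * (v⁻¹) ^ (k + 1))) =
          fun ζ => ∑ k ∈ Finset.range N, (u ζ * ζ ^ k) * (v⁻¹) ^ (k + 1) := by
        funext ζ
        rw [Finset.mul_sum]
        apply Finset.sum_congr rfl
        intro k _
        ring
      rw [e, integral_finsetSum]
      · apply Finset.sum_eq_zero
        intro k _
        rw [integral_mul_const, hk k, zero_mul]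
      · intro k _
        exact (h.integrable_mul_pow k).mul_const _
    have hpi : Integrable (fun ζ => u ζ * (∑ k ∈ Finset.range N, ζ ^ k * (v⁻¹) ^ (k + 1))) := by
      have e : (fun ζ => u ζ * (∑ k ∈ Finset.range N, ζ ^ k * (v⁻¹) ^ (k + 1))) =
          fun ζ => ∑ k ∈ Finset.range N, (u ζ * ζ ^ k) * (v⁻¹) ^ (k + 1) := by
        funext ζ
        rw [Finset.mul_sum]
        apply Finset.sum_congr rfl
        intro k _
        ring
      rw [e]
      apply integrable_finsetSum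
      intro k _
      exact (h.integrable_mul_pow k).mul_const _
    have e : T u v = ∫ ζ, (u ζ * (ζ - v)⁻¹ + u ζ * (∑ k ∈ Finset.range N, ζ ^ k * (v⁻¹) ^ (k + 1))) := by
      rw [integral_add (h.integrable v) hpi, hpol, add_zero]
      rfl
    rw [e, ← integral_const_mul, ← integral_const_mul]
    apply norm_integral_le_of_norm_le
    · exact (h.integrable_self.norm.const_mul _).const_mul _
    · filter_upwards with ζ
      by_cases hζ : ζ ∈ ball (0 : ℂ) 1
      · have hζ1 : ‖ζ‖ < 1 := mem_ball_zero_iff.1 hζ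
        have hne : ζ - v ≠ 0 := by
          intro h0
          rw [sub_eq_zero] at h0
          rw [h0] at hζ1
          linarith
        have e2 : u ζ * (ζ - v)⁻¹ + u ζ * (∑ k ∈ Finset.range N, ζ ^ k * (v⁻¹) ^ (k + 1))
            = u ζ * ((ζ - v)⁻¹ * (ζ * v⁻¹) ^ N) := by
          have hg := geom_sum_mul (ζ * v⁻¹) N
          have e3 : ∑ k ∈ Finset.range N, ζ ^ k * (v⁻¹) ^ (k + 1) =
              (∑ k ∈ Finset.range N, (ζ * v⁻¹) ^ k) * v⁻¹ := by
            rw [Finset.sum_mul]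
            apply Finset.sum_congr rfl
            intro k _
            rw [mul_pow]; ring
          have hd : ζ * v⁻¹ - 1 ≠ 0 := by
            intro h0
            apply hne
            field_simp at h0
            linear_combination h0
          have e4 : (∑ k ∈ Finset.range N, (ζ * v⁻¹) ^ k) = ((ζ * v⁻¹) ^ N - 1) / (ζ * v⁻¹ - 1) := by
            rw [eq_div_iff hd]; exact hg
          rw [e3, e4]
          have e5 : (ζ * v⁻¹ - 1) = (ζ - v) * v⁻¹ := by
            field_simp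
          rw [e5]
          field_simp
          ring
        rw [e2, norm_mul, norm_mul, norm_inv, norm_pow, norm_mul, norm_inv]
        have h1 : ‖v‖ - 1 ≤ ‖ζ - v‖ := by
          have := norm_sub_norm_le v ζ
          rw [norm_sub_rev] at this
          linarith
        have h2 : ‖ζ - v‖⁻¹ ≤ (‖v‖ - 1)⁻¹ := inv_anti₀ hvp h1
        have h3 : (‖ζ‖ * ‖v‖⁻¹) ^ N ≤ (‖v‖⁻¹) ^ N := by
          apply pow_le_pow_left₀ (by positivity)
          calc ‖ζ‖ * ‖v‖⁻¹ ≤ 1 * ‖v‖⁻¹ := mul_le_mul_of_nonneg_right hζ1.le (by positivity)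
            _ = ‖v‖⁻¹ := one_mul _
        calc ‖u ζ‖ * (‖ζ - v‖⁻¹ * (‖ζ‖ * ‖v‖⁻¹) ^ N) ≤ ‖u ζ‖ * ((‖v‖ - 1)⁻¹ * (‖v‖⁻¹) ^ N) := by
              apply mul_le_mul_of_nonneg_left _ (norm_nonneg _)
              exact mul_le_mul h2 h3 (by positivity) (by positivity)
          _ = (‖v‖⁻¹) ^ N * ((‖v‖ - 1)⁻¹ * ‖u ζ‖) := by ring
      · rw [h.supp ζ hζ]; simp
  have hlim : Tendsto (fun N : ℕ => (‖v‖⁻¹) ^ N * ((‖v‖ - 1)⁻¹ * ∫ ζ, ‖u ζ‖)) atTop (𝓝 0) := by
    have := (tendsto_pow_atTop_nhds_zero_of_lt_one (inv_nonneg.2 (norm_nonneg v))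
      (inv_lt_one_of_one_lt₀ hv)).mul_const ((‖v‖ - 1)⁻¹ * ∫ ζ, ‖u ζ‖)
    rwa [zero_mul] at this
  have := ge_of_tendsto' hlim key
  exact norm_le_zero_iff.1 this

/-- `T u` is holomorphic off the support of `u`. -/
theorem Adm.T_diff {u : ℂ → ℂ} {M : ℝ} (h : Adm u M) {V : Set ℂ} (hV : IsOpen V)
    (hu : ∀ ζ ∈ V, u ζ = 0) : DifferentiableOn ℂ (T u) V := by
  intro z0 hz0
  apply DifferentiableAt.differentiableWithinAt
  obtain ⟨ε, hε, hball⟩ := Metric.isOpen_iff.1 hV z0 hz0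
  have hhalf : 0 < ε / 2 := by linarith
  have key := hasDerivAt_integral_of_dominated_loc_of_deriv_le (μ := (volume : Measure ℂ))
    (F := fun z ζ => u ζ * (ζ - z)⁻¹) (F' := fun z ζ => u ζ * ((ζ - z)⁻¹) ^ 2) (x₀ := z0)
    (s := ball z0 (ε / 2)) (bound := fun ζ => ‖u ζ‖ * (2 / ε) ^ 2)
    (ball_mem_nhds z0 hhalf)
    (by
      filter_upwards with z
      exact (h.integrable z).aestronglyMeasurable)
    (h.integrable z0)
    ((h.meas.mul (((measurable_id.sub_const z0).inv).pow_const 2)).aestronglyMeasurable)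
    (by
      filter_upwards with ζ z hz
      rw [norm_mul]
      by_cases hζ : ζ ∈ V
      · rw [hu ζ hζ]; simp
      · apply mul_le_mul_of_nonneg_left _ (norm_nonneg _)
        rw [norm_pow, norm_inv]
        apply pow_le_pow_left₀ (by positivity)
        have h1 : ε ≤ ‖ζ - z0‖ := by
          by_contra hcon
          push Not at hcon
          exact hζ (hball (by rwa [mem_ball, dist_eq_norm]))
        have h2 : ‖z - z0‖ < ε / 2 := by rwa [mem_ball, dist_eq_norm] at hz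
        have h3 : ε / 2 ≤ ‖ζ - z‖ := by
          have h4 : ‖ζ - z0‖ ≤ ‖ζ - z‖ + ‖z - z0‖ := by
            have := norm_add_le (ζ - z) (z - z0)
            rwa [sub_add_sub_cancel] at this
          linarith
        calc ‖ζ - z‖⁻¹ ≤ (ε / 2)⁻¹ := inv_anti₀ hhalf h3
          _ = 2 / ε := by rw [inv_div])
    (h.integrable_self.norm.mul_const _)
    (by
      filter_upwards with ζ z hz
      by_cases hζ : ζ ∈ V
      · rw [hu ζ hζ]
        simp only [zero_mul]
        exact hasDerivAt_const z (0 : ℂ)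
      · have hne : ζ - z ≠ 0 := by
          intro h0
          rw [sub_eq_zero] at h0
          apply hζ
          rw [h0]
          exact hball (ball_subset_ball (by linarith) hz)
        have h1 : HasDerivAt (fun z => ζ - z) (-1) z := by
          simpa using (hasDerivAt_id' z).const_sub ζ
        have h2 := (h1.inv hne).const_mul (u ζ)
        refine h2.congr_deriv ?_
        field_simp)
  exact key.2.differentiableAt

theorem T_add {u v : ℂ → ℂ} {M N : ℝ} (hu : Adm u M) (hv : Adm v N) (z : ℂ) :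
    T (fun ζ => u ζ + v ζ) z = T u z + T v z := by
  unfold T
  rw [← integral_add (hu.integrable z) (hv.integrable z)]
  congr 1
  funext ζ
  ring

end Pool.Agent.Helper523.LL
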