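import Mathlib

set_option autoImplicit false

open Set Filter Metric Topology Complex

namespace Pool.Agent.Helper523.LL

/-- two-constants estimate on concentric discs -/
theorem three_disc {f : ℂ → ℂ} {c : ℂ} {ρ B η : ℝ} (hρ : 0 < ρ)
    (hf : DifferentiableOn ℂ f (ball c ρ)) (hB : ∀ z ∈ ball c ρ, ‖f z‖ ≤ B)
    (hη : ∀ z ∈ ball c (ρ / 4), ‖f z‖ ≤ η) {z : ℂ} (hz : z ∈ ball c (ρ / 3)) :
    ‖f z‖ ≤ 4 * Real.sqrt (B * η) := by
  have hB0 : 0 ≤ B := (norm_nonneg _).trans (hB c (mem_ball_self hρ))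
  have hη0 : 0 ≤ η := (norm_nonneg _).trans (hη c (mem_ball_self (by linarith)))
  set S := Real.sqrt (B * η) with hS
  have hS0 : 0 ≤ S := Real.sqrt_nonneg _
  have cauchy : ∀ (s C : ℝ), 0 < s → s < ρ → (∀ z ∈ closedBall c s, ‖f z‖ ≤ C) → ∀ n : ℕ,
      ‖((n.factorial : ℂ))⁻¹ * iteratedDeriv n f c‖ ≤ C / s ^ n := by
    intro s C hs hsρ hC n
    have h1 : DiffContOnCl ℂ f (ball c s) := by
      apply DifferentiableOn.diffContOnCl
      rw [closure_ball c hs.ne']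
      exact hf.mono (closedBall_subset_ball hsρ)
    have h2 := Complex.norm_iteratedDeriv_le_of_forall_mem_sphere_norm_le n hs h1
      (fun z hz => hC z (sphere_subset_closedBall hz))
    have h3 : (0:ℝ) < n.factorial := by exact_mod_cast n.factorial_pos
    rw [norm_mul, norm_inv, norm_natCast, inv_mul_le_iff₀ h3]
    calc ‖iteratedDeriv n f c‖ ≤ n.factorial * C / s ^ n := h2
      _ = n.factorial * (C / s ^ n) := by ring
  have hs1 : 0 < 9 / 10 * ρ := by positivity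
  have hs2 : 0 < 9 / 40 * ρ := by positivity
  have c1 := cauchy (9 / 10 * ρ) B hs1 (by linarith)
    (fun z hz => hB z (closedBall_subset_ball (by linarith) hz))
  have c2 := cauchy (9 / 40 * ρ) η hs2 (by linarith)
    (fun z hz => hη z (closedBall_subset_ball (by linarith) hz))
  set a : ℕ → ℂ := fun n => ((n.factorial : ℂ))⁻¹ * iteratedDeriv n f c with ha
  have c3 : ∀ n, ‖a n‖ ≤ S * (20 / (9 * ρ)) ^ n := by
    intro n
    have h1 : ‖a n‖ ^ 2 ≤ (S * (20 / (9 * ρ)) ^ n) ^ 2 := by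
      calc ‖a n‖ ^ 2 = ‖a n‖ * ‖a n‖ := sq _
        _ ≤ (B / (9 / 10 * ρ) ^ n) * (η / (9 / 40 * ρ) ^ n) :=
            mul_le_mul (c1 n) (c2 n) (norm_nonneg _) (by positivity)
        _ = (B * η) * ((20 / (9 * ρ)) ^ n) ^ 2 := by
            rw [← pow_mul, mul_comm n 2, pow_mul]
            rw [div_mul_div_comm, ← mul_pow, div_eq_mul_inv, ← inv_pow]
            congr 2
            field_simp
            norm_num
        _ = (S * (20 / (9 * ρ)) ^ n) ^ 2 := by
            rw [mul_pow, hS, Real.sq_sqrt (mul_nonneg hB0 hη0)]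
    exact le_of_sq_le_sq h1 (by positivity)
  have hsum : HasSum (fun n => a n * (z - c) ^ n) (f z) := by
    have h1 := Complex.hasSum_taylorSeries_on_ball (f := f) (c := c) (r := ρ) (z := z)
      hf (ball_subset_ball (by linarith) hz)
    have h2 : (fun n => a n * (z - c) ^ n) =
        fun n : ℕ => (n.factorial : ℂ)⁻¹ • (z - c) ^ n • iteratedDeriv n f c := by
      funext n
      simp only [ha, smul_eq_mul]
      ring
    rw [h2]
    exact h1
  have hz' : ‖z - c‖ ≤ ρ / 3 := by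
    rw [mem_ball, dist_eq_norm] at hz; exact hz.le
  have hbd : ∀ n, ‖a n * (z - c) ^ n‖ ≤ S * (20 / 27) ^ n := by
    intro n
    rw [norm_mul, norm_pow]
    calc ‖a n‖ * ‖z - c‖ ^ n ≤ (S * (20 / (9 * ρ)) ^ n) * (ρ / 3) ^ n :=
          mul_le_mul (c3 n) (pow_le_pow_left₀ (norm_nonneg _) hz' n) (by positivity) (by positivity)
      _ = S * (20 / 27) ^ n := by
          rw [mul_assoc, ← mul_pow]
          congr 2
          field_simp
          norm_num
  have hgeo : HasSum (fun n : ℕ => S * (20 / 27 : ℝ) ^ n) (S * (1 - 20 / 27)⁻¹) :=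
    (hasSum_geometric_of_lt_one (by norm_num) (by norm_num)).mul_left S
  have h5 : ‖f z‖ ≤ S * (1 - 20 / 27)⁻¹ := by
    rw [← hsum.tsum_eq]
    exact tsum_of_norm_bounded hgeo hbd
  calc ‖f z‖ ≤ S * (1 - 20 / 27)⁻¹ := h5
    _ ≤ 4 * S := by
        have : (1 - 20 / 27 : ℝ)⁻¹ ≤ 4 := by norm_num
        nlinarith

/-- propagation of smallness along a chain of discs -/
theorem chain {f : ℂ → ℂ} {c : ℕ → ℂ} {ρ B ε : ℝ} (hρ : 0 < ρ) (hε0 : 0 ≤ ε)
    (hstep : ∀ k, ‖c (k + 1) - c k‖ ≤ ρ / 12)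
    (hf : ∀ k, DifferentiableOn ℂ f (ball (c k) ρ)) (hB : ∀ k, ∀ z ∈ ball (c k) ρ, ‖f z‖ ≤ B)
    (h0 : ∀ z ∈ ball (c 0) (ρ / 4), ‖f z‖ ≤ B * ε) (k : ℕ) :
    ∀ z ∈ ball (c k) (ρ / 4), ‖f z‖ ≤ 16 * B * ε ^ ((1 / 2 : ℝ) ^ k) := by
  have hB0 : 0 ≤ B := (norm_nonneg _).trans (hB 0 (c 0) (mem_ball_self hρ))
  induction k with
  | zero =>
    intro z hz
    rw [pow_zero, Real.rpow_one]
    have := h0 z hz
    have h2 : 0 ≤ B * ε := mul_nonneg hB0 hε0
    linarith
  | succ k ih =>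
    intro z hz
    have hz' : z ∈ ball (c k) (ρ / 3) := by
      rw [mem_ball, dist_eq_norm] at hz ⊢
      have h1 := norm_add_le (z - c (k + 1)) (c (k + 1) - c k)
      rw [sub_add_sub_cancel] at h1
      have h2 := hstep k
      linarith
    have h3 := three_disc hρ (hf k) (hB k) ih hz'
    refine h3.trans (le_of_eq ?_)
    have h4 : B * (16 * B * ε ^ ((1 / 2 : ℝ) ^ k)) = (4 * B * ε ^ ((1 / 2 : ℝ) ^ (k + 1))) ^ 2 := by
      rw [mul_pow, ← Real.rpow_natCast (ε ^ ((1 / 2 : ℝ) ^ (k + 1))) 2, ← Real.rpow_mul hε0]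
      have : (1 / 2 : ℝ) ^ (k + 1) * ((2 : ℕ) : ℝ) = (1 / 2) ^ k := by
        rw [pow_succ]; push_cast; ring
      rw [this]
      ring
    rw [h4, Real.sqrt_sq (by positivity)]
    ring

end Pool.Agent.Helper523.LL
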