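import Pool.Agent.Helper405.Riemann

set_option autoImplicit false

open Set Filter Metric Topology Complex

namespace Pool.Agent.Helper523.LL
open Pool.Agent.Helper405.Riemann

theorem harnack_strict {q : ℂ → ℂ} {c : ℂ} {R : ℝ} (hR : 0 < R) (hq : DifferentiableOn ℂ q (ball c R))
    (hre : ∀ z ∈ ball c R, 0 < (q z).re) {z : ℂ} (hz : z ∈ ball c R) :
    ‖q c‖ * (R - ‖z - c‖) ≤ ‖q z‖ * (R + ‖z - c‖) := by
  have hc : c ∈ ball c R := mem_ball_self hR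
  set G : ℂ → ℂ := fun z => (q z - q c) / (q z + (starRingEnd ℂ) (q c)) with hG
  have hden : ∀ x ∈ ball c R, q x + (starRingEnd ℂ) (q c) ≠ 0 := by
    intro x hx h
    have h1 := congrArg Complex.re h
    rw [add_re, conj_re, zero_re] at h1
    have h2 := hre x hx
    have h3 := hre c hc
    linarith
  have hGc : G c = 0 := by simp [hG]
  have hGd : DifferentiableOn ℂ G (ball c R) :=
    (hq.sub_const _).div (hq.add_const _) hden
  have hGm : ∀ x ∈ ball c R, ‖G x‖ ≤ 1 := by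
    intro x hx
    rw [hG]
    simp only [norm_div]
    rw [div_le_one (norm_pos_iff.2 (hden x hx))]
    have h1 : ‖q x - q c‖ ^ 2 ≤ ‖q x + (starRingEnd ℂ) (q c)‖ ^ 2 := by
      rw [← Complex.normSq_eq_norm_sq, ← Complex.normSq_eq_norm_sq, Complex.normSq_apply,
        Complex.normSq_apply]
      simp only [sub_re, sub_im, add_re, add_im, conj_re, conj_im]
      have h2 := hre x hx
      have h3 := hre c hc
      nlinarith [mul_pos h2 h3]
    exact le_of_sq_le_sq h1 (norm_nonneg _)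
  have h4 := Complex.dist_le_div_mul_dist_of_mapsTo_ball (f := G) (c := c) (R₁ := R) (R₂ := 1) hGd
    (by
      intro x hx
      rw [hGc, mem_closedBall_zero_iff]
      exact hGm x hx) hz
  rw [hGc, dist_zero_right, dist_eq_norm] at h4
  have h5 : ‖q z - q c‖ ≤ (1 / R * ‖z - c‖) * ‖q z + (starRingEnd ℂ) (q c)‖ := by
    have : q z - q c = G z * (q z + (starRingEnd ℂ) (q c)) := by
      rw [hG]
      simp only
      rw [div_mul_cancel₀ _ (hden z hz)]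
    rw [this, norm_mul]
    exact mul_le_mul_of_nonneg_right h4 (norm_nonneg _)
  have h6 : ‖q z + (starRingEnd ℂ) (q c)‖ ≤ ‖q z‖ + ‖q c‖ := by
    have := norm_add_le (q z) ((starRingEnd ℂ) (q c))
    rwa [RCLike.norm_conj] at this
  have h7 : ‖q c‖ - ‖q z‖ ≤ ‖q z - q c‖ := by
    rw [norm_sub_rev]
    exact norm_sub_norm_le _ _
  have h8 : ‖q c‖ - ‖q z‖ ≤ (1 / R * ‖z - c‖) * (‖q z‖ + ‖q c‖) :=
    h7.trans (h5.trans (mul_le_mul_of_nonneg_left h6 (by positivity)))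
  have h9 : R * (‖q c‖ - ‖q z‖) ≤ ‖z - c‖ * (‖q z‖ + ‖q c‖) := by
    calc R * (‖q c‖ - ‖q z‖) ≤ R * ((1 / R * ‖z - c‖) * (‖q z‖ + ‖q c‖)) :=
          mul_le_mul_of_nonneg_left h8 hR.le
      _ = ‖z - c‖ * (‖q z‖ + ‖q c‖) := by field_simp
  linarith

theorem harnack {q : ℂ → ℂ} {c : ℂ} {R : ℝ} (hR : 0 < R) (hq : DifferentiableOn ℂ q (ball c R))
    (hre : ∀ z ∈ ball c R, 0 ≤ (q z).re) {z : ℂ} (hz : z ∈ ball c R) :
    ‖q c‖ * (R - ‖z - c‖) ≤ ‖q z‖ * (R + ‖z - c‖) := by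
  have key : ∀ ε : ℝ, ε ∈ Ioi (0:ℝ) → ‖q c + (ε : ℂ)‖ * (R - ‖z - c‖) ≤ ‖q z + (ε : ℂ)‖ * (R + ‖z - c‖) := by
    intro ε hε
    apply harnack_strict (q := fun z => q z + (ε : ℂ)) hR (hq.add_const _) _ hz
    intro x hx
    rw [add_re, ofReal_re]
    exact add_pos_of_nonneg_of_pos (hre x hx) hε
  have l1 : Tendsto (fun ε : ℝ => ‖q c + (ε : ℂ)‖ * (R - ‖z - c‖)) (𝓝[>] 0) (𝓝 (‖q c‖ * (R - ‖z - c‖))) := by
    have : ContinuousAt (fun ε : ℝ => ‖q c + (ε : ℂ)‖ * (R - ‖z - c‖)) 0 := by fun_prop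
    have h2 := this.tendsto
    simp only [ofReal_zero, add_zero] at h2
    exact h2.mono_left nhdsWithin_le_nhds
  have l2 : Tendsto (fun ε : ℝ => ‖q z + (ε : ℂ)‖ * (R + ‖z - c‖)) (𝓝[>] 0) (𝓝 (‖q z‖ * (R + ‖z - c‖))) := by
    have : ContinuousAt (fun ε : ℝ => ‖q z + (ε : ℂ)‖ * (R + ‖z - c‖)) 0 := by fun_prop
    have h2 := this.tendsto
    simp only [ofReal_zero, add_zero] at h2
    exact h2.mono_left nhdsWithin_le_nhds
  apply le_of_tendsto_of_tendsto l1 l2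
  filter_upwards [self_mem_nhdsWithin] with ε hε
  exact key ε hε

/-- A star domain between two discs, with its normalised Riemann map. -/
structure SD (Ω : Set ℂ) (g φ : ℂ → ℂ) : Prop where
  isOpen : IsOpen Ω
  star : StarConvex ℝ 0 Ω
  sub : Ω ⊆ ball 0 1
  half : ball 0 (1 / 2) ⊆ Ω
  gd : DifferentiableOn ℂ g (ball 0 1)
  gm : MapsTo g (ball 0 1) Ω
  g0 : g 0 = 0
  φd : DifferentiableOn ℂ φ Ω
  φm : MapsTo φ Ω (ball 0 1)
  gφ : ∀ z ∈ Ω, g (φ z) = z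
  φg : ∀ z ∈ ball (0:ℂ) 1, φ (g z) = z

namespace SD
variable {Ω : Set ℂ} {g φ : ℂ → ℂ}

theorem zero_mem (h : SD Ω g φ) : (0:ℂ) ∈ Ω := h.half (mem_ball_self (by norm_num))

theorem phi_zero (h : SD Ω g φ) : φ 0 = 0 := by
  have := h.φg 0 (mem_ball_self one_pos)
  rwa [h.g0] at this

theorem deriv_mul (h : SD Ω g φ) {ζ : ℂ} (hζ : ζ ∈ ball (0:ℂ) 1) :
    deriv φ (g ζ) * deriv g ζ = 1 := by
  have hgz := h.gm hζ
  have hφd : HasDerivAt φ (deriv φ (g ζ)) (g ζ) :=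
    (h.φd.differentiableAt (h.isOpen.mem_nhds hgz)).hasDerivAt
  have hgd : HasDerivAt g (deriv g ζ) ζ := (h.gd.differentiableAt (isOpen_ball.mem_nhds hζ)).hasDerivAt
  have h2 : HasDerivAt (fun x => φ (g x)) (deriv φ (g ζ) * deriv g ζ) ζ := hφd.comp ζ hgd
  have h3 : HasDerivAt (fun x => φ (g x)) 1 ζ := by
    apply (hasDerivAt_id ζ).congr_of_eventuallyEq
    filter_upwards [isOpen_ball.mem_nhds hζ] with x hx
    exact h.φg x hx
  exact h2.unique h3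

theorem norm_g_le (h : SD Ω g φ) {ζ : ℂ} (hζ : ζ ∈ ball (0:ℂ) 1) : ‖g ζ‖ ≤ ‖ζ‖ :=
  Complex.norm_le_norm_of_mapsTo_ball h.gd
    (fun _ hx => ball_subset_closedBall (h.sub (h.gm hx))) h.g0 (mem_ball_zero_iff.1 hζ)

theorem le_norm_phi (h : SD Ω g φ) {z : ℂ} (hz : z ∈ Ω) : ‖z‖ ≤ ‖φ z‖ := by
  have := h.norm_g_le (h.φm hz)
  rwa [h.gφ z hz] at this

theorem norm_phi_lt (h : SD Ω g φ) {z : ℂ} (hz : z ∈ Ω) : ‖φ z‖ < 1 := mem_ball_zero_iff.1 (h.φm hz)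

theorem norm_deriv_phi_zero (h : SD Ω g φ) : ‖deriv φ 0‖ ≤ 2 := by
  have := Complex.norm_deriv_le_div_of_mapsTo_ball (f := φ) (c := 0) (R₁ := 1 / 2) (R₂ := 1)
    (h.φd.mono h.half)
    (by
      intro x hx
      rw [h.phi_zero]
      exact ball_subset_closedBall (h.φm (h.half hx))) (by norm_num)
  norm_num at this
  exact this

theorem half_le_norm_g (h : SD Ω g φ) {ζ : ℂ} (hζ : ζ ∈ ball (0:ℂ) 1) : ‖ζ‖ / 2 ≤ ‖g ζ‖ := by
  have hgz := h.gm hζ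
  by_cases hs : ‖g ζ‖ < 1 / 2
  · have h1 := Complex.dist_le_div_mul_dist_of_mapsTo_ball (f := φ) (c := 0) (R₁ := 1 / 2) (R₂ := 1)
      (h.φd.mono h.half)
      (by
        intro x hx
        rw [h.phi_zero]
        exact ball_subset_closedBall (h.φm (h.half hx))) (z := g ζ) (by simpa using hs)
    rw [h.φg ζ hζ, h.phi_zero, dist_zero_right, dist_zero_right] at h1
    linarith
  · push Not at hs
    have : ‖ζ‖ < 1 := mem_ball_zero_iff.1 hζ
    linarith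

theorem deriv_g_ne (h : SD Ω g φ) {ζ : ℂ} (hζ : ζ ∈ ball (0:ℂ) 1) : deriv g ζ ≠ 0 := by
  intro h0
  have := h.deriv_mul hζ
  rw [h0, mul_zero] at this
  exact zero_ne_one this

theorem dslope_le (h : SD Ω g φ) {ζ : ℂ} (hζ : ζ ∈ ball (0:ℂ) 1) : ‖dslope g 0 ζ‖ ≤ 1 := by
  have := Complex.norm_dslope_le_div_of_mapsTo_ball (f := g) (c := 0) (R₁ := 1) (R₂ := 1) h.gd
    (by
      intro x hx
      rw [h.g0]
      exact ball_subset_closedBall (h.sub (h.gm hx))) hζ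
  simpa using this

theorem le_dslope (h : SD Ω g φ) {ζ : ℂ} (hζ : ζ ∈ ball (0:ℂ) 1) : 1 / 2 ≤ ‖dslope g 0 ζ‖ := by
  rcases eq_or_ne ζ 0 with rfl | hne
  · rw [dslope_same]
    have h1 := h.deriv_mul (mem_ball_self one_pos)
    rw [h.g0] at h1
    have h2 : ‖deriv φ 0‖ * ‖deriv g 0‖ = 1 := by rw [← norm_mul, h1, norm_one]
    have h3 := h.norm_deriv_phi_zero
    nlinarith [norm_nonneg (deriv g 0)]
  · rw [dslope_of_ne _ hne, slope_def_field, h.g0, sub_zero, sub_zero, norm_div]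
    rw [le_div_iff₀ (norm_pos_iff.2 hne)]
    have := h.half_le_norm_g hζ
    linarith

/-- the distance estimate on the weight -/
theorem weight_le (h : SD Ω g φ) {z v : ℂ} (hz : z ∈ Ω) (hv : v ∉ Ω) :
    (1 - ‖φ z‖) ^ 2 ≤ 32 * ‖z - v‖ := by
  have hv0 : v ≠ 0 := fun h0 => hv (h0 ▸ h.zero_mem)
  have hvn : 1 / 2 ≤ ‖v‖ := by
    by_contra hcon
    push Not at hcon
    exact hv (h.half (by simpa using hcon))
  have hslit : ∀ x ∈ ball (0 : ℂ) 1, 1 - g x / v ∈ slitPlane := by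
    intro x hx
    by_contra hcon
    rw [Complex.mem_slitPlane_iff] at hcon
    push Not at hcon
    obtain ⟨hr, hi⟩ := hcon
    set r : ℝ := -(1 - g x / v).re with hrd
    have hr0 : 0 ≤ r := by linarith
    have e1 : 1 - g x / v = ((-r : ℝ) : ℂ) := by
      apply Complex.ext
      · simp only [hrd, neg_neg, Complex.ofReal_re]
      · rw [hi, Complex.ofReal_im]
    have e2 : v = ((1 / (1 + r) : ℝ) : ℂ) * g x := by
      have e3 : g x = v * (1 + r) := by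
        have : g x / v = 1 + r := by
          have := e1
          push_cast at this
          linear_combination -this
        field_simp at this
        rw [this]
      rw [e3]
      have : (1 + (r : ℂ)) ≠ 0 := by
        intro h
        have := congrArg Complex.re h
        simp at this
        linarith
      push_cast
      field_simp
    apply hv
    have h3 := h.star (h.gm hx) (a := 1 - 1 / (1 + r)) (b := 1 / (1 + r))
      (by
        rw [sub_nonneg, div_le_one (by positivity)]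
        linarith) (by positivity) (by ring)
    rw [smul_zero, zero_add, Complex.real_smul] at h3
    rw [e2]; exact h3
  set q : ℂ → ℂ := fun x => (1 - g x / v) ^ ((1 : ℂ) / 2) with hq
  have hqdiff : DifferentiableOn ℂ q (ball 0 1) := by
    intro x hx
    have hgx : DifferentiableAt ℂ g x := h.gd.differentiableAt (isOpen_ball.mem_nhds hx)
    exact ((hgx.div_const v).const_sub 1 |>.cpow_const (hslit x hx)).differentiableWithinAt
  have hqre : ∀ x ∈ ball (0 : ℂ) 1, 0 < (q x).re := by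
    intro x hx
    have h1 := hslit x hx
    have hne := Complex.slitPlane_ne_zero h1
    simp only [hq]
    rw [Complex.cpow_def_of_ne_zero hne, Complex.exp_re]
    apply mul_pos (Real.exp_pos _)
    apply Real.cos_pos_of_mem_Ioo
    have h2 : (Complex.log (1 - g x / v) * (1 / 2)).im = (1 - g x / v).arg / 2 := by
      rw [show (1 / 2 : ℂ) = ((1 / 2 : ℝ) : ℂ) by push_cast; rfl, Complex.im_mul_ofReal,
        Complex.log_im]
      ring
    rw [h2]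
    have h3 := Complex.mem_slitPlane_iff_arg.1 h1
    have h4 := Complex.arg_le_pi (1 - g x / v)
    have h5 := Complex.neg_pi_lt_arg (1 - g x / v)
    have h6 : (1 - g x / v).arg < Real.pi := lt_of_le_of_ne h4 h3.1
    constructor <;> linarith
  have hqsq : ∀ x ∈ ball (0 : ℂ) 1, q x ^ 2 = 1 - g x / v := by
    intro x hx
    simp only [hq]
    rw [← Complex.cpow_nat_mul]
    norm_num
  set τ : ℂ → ℂ := fun x => (1 - q x) / (1 + q x) with hτ
  have hden : ∀ x ∈ ball (0:ℂ) 1, 1 ≤ ‖1 + q x‖ := by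
    intro x hx
    have h1 := hqre x hx
    have h2 := Complex.re_le_norm (1 + q x)
    rw [add_re, one_re] at h2
    linarith
  have hden0 : ∀ x ∈ ball (0:ℂ) 1, 1 + q x ≠ 0 := by
    intro x hx h0
    have := hden x hx
    rw [h0, norm_zero] at this
    linarith
  have hid : ∀ x ∈ ball (0:ℂ) 1, ‖1 - q x‖ ^ 2 = ‖1 + q x‖ ^ 2 - 4 * (q x).re := by
    intro x hx
    rw [← Complex.normSq_eq_norm_sq, ← Complex.normSq_eq_norm_sq, Complex.normSq_apply,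
      Complex.normSq_apply]
    simp only [sub_re, sub_im, add_re, add_im, one_re, one_im]
    ring
  have hτle : ∀ x ∈ ball (0:ℂ) 1, ‖τ x‖ ≤ 1 := by
    intro x hx
    rw [hτ]
    simp only [norm_div]
    rw [div_le_one (by linarith [hden x hx])]
    apply le_of_sq_le_sq _ (norm_nonneg _)
    rw [hid x hx]
    linarith [hqre x hx]
  have hq0 : q 0 = 1 := by
    simp only [hq, h.g0, zero_div, sub_zero, one_cpow]
  have hτ0 : τ 0 = 0 := by
    simp [hτ, hq0]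
  have hτd : DifferentiableOn ℂ τ (ball 0 1) :=
    (hqdiff.const_sub 1).div (hqdiff.const_add 1) hden0
  have hmem := h.φm hz
  have hlt : ‖φ z‖ < 1 := h.norm_phi_lt hz
  have h1 : ‖τ (φ z)‖ ≤ ‖φ z‖ := Complex.norm_le_norm_of_mapsTo_ball hτd
    (fun x hx => by rw [mem_closedBall_zero_iff]; exact hτle x hx) hτ0 hlt
  set y := φ z with hy
  have h2 : 1 - ‖τ y‖ ^ 2 ≤ 4 * ‖q y‖ := by
    have h3 : ‖τ y‖ ^ 2 = 1 - 4 * (q y).re / ‖1 + q y‖ ^ 2 := by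
      rw [hτ]
      simp only [norm_div, div_pow]
      rw [hid y hmem]
      have : ‖1 + q y‖ ≠ 0 := by linarith [hden y hmem]
      field_simp
    rw [h3]
    have h4 : 4 * (q y).re / ‖1 + q y‖ ^ 2 ≤ 4 * (q y).re := by
      apply div_le_self (by linarith [hqre y hmem])
      nlinarith [hden y hmem]
    have h5 := Complex.re_le_norm (q y)
    linarith
  have h3 : 1 - ‖y‖ ≤ 4 * ‖q y‖ := by
    have h4 : ‖τ y‖ ^ 2 ≤ ‖τ y‖ := by
      have h5 := hτle y hmem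
      nlinarith [norm_nonneg (τ y)]
    linarith
  have h4 : ‖q y‖ ^ 2 = ‖z - v‖ / ‖v‖ := by
    rw [← norm_pow, hqsq y hmem, hy, h.gφ z hz, ← norm_div, ← norm_neg]
    congr 1
    field_simp
    ring
  have h5 : ‖q y‖ ^ 2 ≤ 2 * ‖z - v‖ := by
    rw [h4, div_le_iff₀ (by linarith)]
    nlinarith [norm_nonneg (z - v)]
  have h6 : 0 ≤ 1 - ‖y‖ := by linarith
  calc (1 - ‖y‖) ^ 2 ≤ (4 * ‖q y‖) ^ 2 := pow_le_pow_left₀ h6 h3 2
    _ = 16 * ‖q y‖ ^ 2 := by ring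
    _ ≤ 32 * ‖z - v‖ := by linarith

/-- Schwarz-Pick -/
theorem deriv_phi_le (h : SD Ω g φ) {z : ℂ} (hz : z ∈ Ω) {ρ : ℝ} (hρ : 0 < ρ) (hb : ball z ρ ⊆ Ω) :
    ρ * ‖deriv φ z‖ ≤ 1 - ‖φ z‖ ^ 2 := by
  have hz1 : ‖φ z‖ < 1 := h.norm_phi_lt hz
  set Ψ : ℂ → ℂ := fun x => bl (φ z) (φ x) with hΨ
  have hΨd : ∀ x ∈ Ω, HasDerivAt Ψ
      ((1 - (starRingEnd ℂ) (φ z) * (φ z)) / (1 - (starRingEnd ℂ) (φ z) * φ x) ^ 2 * deriv φ x) x := by
    intro x hx
    have hd : HasDerivAt φ (deriv φ x) x := (h.φd.differentiableAt (h.isOpen.mem_nhds hx)).hasDerivAt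
    exact (bl_hasDerivAt hz1 (h.norm_phi_lt hx)).comp x hd
  have hΨz : Ψ z = 0 := by simp only [hΨ, bl_self]
  have hfin := Complex.norm_deriv_le_div_of_mapsTo_ball (f := Ψ) (c := z) (R₁ := ρ) (R₂ := 1)
    (fun x hx => (hΨd x (hb hx)).differentiableAt.differentiableWithinAt)
    (by
      intro x hx
      rw [hΨz, mem_closedBall_zero_iff]
      exact (bl_norm_lt hz1 (h.norm_phi_lt (hb hx))).le) hρ
  rw [(hΨd _ hz).deriv] at hfin
  have e1 : (1 : ℂ) - (starRingEnd ℂ) (φ z) * φ z = ((1 - ‖φ z‖ ^ 2 : ℝ) : ℂ) := by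
    rw [mul_comm, Complex.mul_conj, Complex.normSq_eq_norm_sq]
    push_cast; rfl
  have hpos : 0 < 1 - ‖φ z‖ ^ 2 := by nlinarith [norm_nonneg (φ z)]
  rw [e1, norm_mul, norm_div, norm_pow, Complex.norm_real, Real.norm_of_nonneg hpos.le] at hfin
  have h3 : (1 - ‖φ z‖ ^ 2) / (1 - ‖φ z‖ ^ 2) ^ 2 * ‖deriv φ z‖ = ‖deriv φ z‖ / (1 - ‖φ z‖ ^ 2) := by
    field_simp
  rw [h3, div_le_div_iff₀ hpos hρ] at hfin
  linarith

theorem star_mem (h : SD Ω g φ) {z : ℂ} (hz : z ∈ Ω) {s : ℝ} (h0 : 0 ≤ s) (h1 : s ≤ 1) :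
    (s : ℂ) * z ∈ Ω := by
  have h3 := h.star hz (a := 1 - s) (b := s) (by linarith) h0 (by ring)
  rwa [smul_zero, zero_add, Complex.real_smul] at h3

/-- star-likeness -/
theorem re_nonneg (h : SD Ω g φ) {ζ : ℂ} (hζ : ζ ∈ ball (0:ℂ) 1) :
    0 ≤ (dslope g 0 ζ / deriv g ζ).re := by
  rcases eq_or_ne ζ 0 with rfl | hne
  · rw [dslope_same, div_self (h.deriv_g_ne hζ)]
    simp
  have hgz := h.gm hζ
  have hφζ : φ (g ζ) = ζ := h.φg ζ hζ
  have hle : ∀ s : ℝ, 0 ≤ s → s ≤ 1 → ‖φ (s * g ζ)‖ ≤ ‖ζ‖ := by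
    intro s hs0 hs1
    apply Complex.norm_le_norm_of_mapsTo_ball (f := fun ξ => φ (s * g ξ)) (R := 1)
    · intro x hx
      have h1 : DifferentiableAt ℂ φ ((s : ℂ) * g x) :=
        h.φd.differentiableAt (h.isOpen.mem_nhds (h.star_mem (h.gm hx) hs0 hs1))
      have h2 : DifferentiableAt ℂ (fun x => (s : ℂ) * g x) x :=
        (h.gd.differentiableAt (isOpen_ball.mem_nhds hx)).const_mul _
      exact (DifferentiableAt.comp x h1 h2).differentiableWithinAt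
    · intro x hx
      exact ball_subset_closedBall (h.φm (h.star_mem (h.gm hx) hs0 hs1))
    · simp only [h.g0, mul_zero]
      exact h.phi_zero
    · exact mem_ball_zero_iff.1 hζ
  set F : ℝ → ℂ := fun s => φ (s * g ζ) with hF
  have hFd : HasDerivAt F (deriv φ (g ζ) * g ζ) 1 := by
    have h1 : HasDerivAt φ (deriv φ (g ζ)) (((1 : ℝ) : ℂ) * g ζ) := by
      rw [ofReal_one, one_mul]
      exact (h.φd.differentiableAt (h.isOpen.mem_nhds hgz)).hasDerivAt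
    have h2 : HasDerivAt (fun s : ℝ => (s : ℂ) * g ζ) (g ζ) 1 := by
      have := (Complex.ofRealCLM.hasDerivAt (x := (1:ℝ))).mul_const (g ζ)
      simpa using this
    exact h1.comp (1:ℝ) h2
  have hF1 : F 1 = ζ := by simp only [hF, ofReal_one, one_mul]; exact hφζ
  have hN : HasDerivAt (fun s => ‖F s‖ ^ 2) (2 * ((starRingEnd ℂ) ζ * (deriv φ (g ζ) * g ζ)).re) 1 := by
    have := hFd.norm_sq
    rw [hF1, Complex.inner, mul_comm _ ((starRingEnd ℂ) ζ)] at this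
    exact this
  have hnn : 0 ≤ 2 * ((starRingEnd ℂ) ζ * (deriv φ (g ζ) * g ζ)).re := by
    have h1 := hN.tendsto_slope
    have h2 : Tendsto (slope (fun s => ‖F s‖ ^ 2) 1) (𝓝[<] 1)
        (𝓝 (2 * ((starRingEnd ℂ) ζ * (deriv φ (g ζ) * g ζ)).re)) :=
      h1.mono_left (nhdsWithin_mono _ (fun x hx => ne_of_lt hx))
    apply ge_of_tendsto h2
    have h3 : ∀ᶠ s : ℝ in 𝓝[<] 1, 0 ≤ s := by
      apply mem_nhdsWithin_of_mem_nhds
      exact Ici_mem_nhds one_pos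
    filter_upwards [self_mem_nhdsWithin, h3] with s hs hs0
    rw [slope_def_field]
    apply div_nonneg_of_nonpos
    · have h4 := hle s hs0 (le_of_lt hs)
      have h5 : ‖F s‖ ^ 2 ≤ ‖ζ‖ ^ 2 := pow_le_pow_left₀ (norm_nonneg _) h4 2
      simp only [hF1]
      linarith
    · exact sub_nonpos.2 (le_of_lt hs)
  have h6 : deriv φ (g ζ) = 1 / deriv g ζ := by
    have := h.deriv_mul hζ
    have h7 := h.deriv_g_ne hζ
    field_simp
    exact this
  have h8 : (starRingEnd ℂ) ζ * (deriv φ (g ζ) * g ζ) = ((‖ζ‖ ^ 2 : ℝ) : ℂ) * (dslope g 0 ζ / deriv g ζ) := by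
    rw [dslope_of_ne _ hne, slope_def_field, h.g0, sub_zero, sub_zero, h6]
    have h9 : ((‖ζ‖ ^ 2 : ℝ) : ℂ) = ζ * (starRingEnd ℂ) ζ := by
      rw [Complex.mul_conj, Complex.normSq_eq_norm_sq]
    rw [h9]
    field_simp
  rw [h8, re_ofReal_mul] at hnn
  have h10 : 0 < ‖ζ‖ ^ 2 := by positivity
  by_contra hcon
  push Not at hcon
  have := mul_neg_of_pos_of_neg h10 hcon
  linarith

/-- distortion along rays -/
theorem ratio (h : SD Ω g φ) {ζ : ℂ} (hζ : ζ ∈ ball (0:ℂ) 1) {r : ℝ} (hr0 : 0 ≤ r) (hr1 : r ≤ 1) :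
    ‖deriv g ζ‖ * (1 - ‖ζ‖) ≤ 4 * (1 - r * ‖ζ‖) * ‖deriv g (r * ζ)‖ := by
  have hζ1 : ‖ζ‖ < 1 := mem_ball_zero_iff.1 hζ
  have hn : ‖(r : ℂ) * ζ‖ = r * ‖ζ‖ := by rw [norm_mul, norm_real, Real.norm_of_nonneg hr0]
  have hrζ : r * ‖ζ‖ < 1 := by nlinarith [norm_nonneg ζ]
  have hmem : (r : ℂ) * ζ ∈ ball (0:ℂ) 1 := by rw [mem_ball_zero_iff, hn]; exact hrζ
  set q : ℂ → ℂ := fun ζ => dslope g 0 ζ / deriv g ζ with hq
  have hqd : DifferentiableOn ℂ q (ball 0 1) := by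
    apply DifferentiableOn.div
    · rw [Complex.differentiableOn_dslope (isOpen_ball.mem_nhds (mem_ball_self one_pos))]
      exact h.gd
    · exact h.gd.deriv isOpen_ball
    · intro x hx
      exact h.deriv_g_ne hx
  have hR : 0 < 1 - r * ‖ζ‖ := by linarith
  have hsub : ball ((r : ℂ) * ζ) (1 - r * ‖ζ‖) ⊆ ball 0 1 := by
    intro x hx
    rw [mem_ball, dist_eq_norm] at hx
    rw [mem_ball_zero_iff]
    have h1 := norm_add_le (x - r * ζ) (r * ζ)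
    rw [sub_add_cancel, hn] at h1
    linarith
  have hd : ‖ζ - r * ζ‖ = (1 - r) * ‖ζ‖ := by
    have : ζ - r * ζ = ((1 - r : ℝ) : ℂ) * ζ := by push_cast; ring
    rw [this, norm_mul, norm_real, Real.norm_of_nonneg (by linarith)]
  have hzb : ζ ∈ ball ((r : ℂ) * ζ) (1 - r * ‖ζ‖) := by
    rw [mem_ball, dist_eq_norm, hd]
    linarith
  have hh := harnack hR (hqd.mono hsub) (fun x hx => h.re_nonneg (hsub hx)) hzb
  rw [hd] at hh
  have e1 : 1 - r * ‖ζ‖ - (1 - r) * ‖ζ‖ = 1 - ‖ζ‖ := by ring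
  rw [e1] at hh
  have e2 : 1 - r * ‖ζ‖ + (1 - r) * ‖ζ‖ ≤ 2 * (1 - r * ‖ζ‖) := by nlinarith [norm_nonneg ζ]
  have hh2 : ‖q (r * ζ)‖ * (1 - ‖ζ‖) ≤ ‖q ζ‖ * (2 * (1 - r * ‖ζ‖)) :=
    hh.trans (mul_le_mul_of_nonneg_left e2 (norm_nonneg _))
  have k1 : ‖q ζ‖ * ‖deriv g ζ‖ ≤ 1 := by
    rw [hq, ← norm_mul]
    simp only
    rw [div_mul_cancel₀ _ (h.deriv_g_ne hζ)]
    exact h.dslope_le hζ
  have k2 : 1 / 2 ≤ ‖q (r * ζ)‖ * ‖deriv g (r * ζ)‖ := by
    rw [hq, ← norm_mul]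
    simp only
    rw [div_mul_cancel₀ _ (h.deriv_g_ne hmem)]
    exact h.le_dslope hmem
  -- combine
  have p1 : 0 ≤ 1 - ‖ζ‖ := by linarith
  have p2 : 0 ≤ ‖deriv g ζ‖ := norm_nonneg _
  have p3 : 0 ≤ ‖deriv g (r * ζ)‖ := norm_nonneg _
  have s1 : ‖deriv g ζ‖ * (1 - ‖ζ‖) ≤ 2 * (‖q (r * ζ)‖ * ‖deriv g (r * ζ)‖) * (‖deriv g ζ‖ * (1 - ‖ζ‖)) := by
    have : 0 ≤ ‖deriv g ζ‖ * (1 - ‖ζ‖) := mul_nonneg p2 p1
    nlinarith
  calc ‖deriv g ζ‖ * (1 - ‖ζ‖)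
      ≤ 2 * (‖q (r * ζ)‖ * ‖deriv g (r * ζ)‖) * (‖deriv g ζ‖ * (1 - ‖ζ‖)) := s1
    _ = (2 * ‖deriv g (r * ζ)‖ * ‖deriv g ζ‖) * (‖q (r * ζ)‖ * (1 - ‖ζ‖)) := by ring
    _ ≤ (2 * ‖deriv g (r * ζ)‖ * ‖deriv g ζ‖) * (‖q ζ‖ * (2 * (1 - r * ‖ζ‖))) :=
        mul_le_mul_of_nonneg_left hh2 (by positivity)
    _ = (4 * (1 - r * ‖ζ‖) * ‖deriv g (r * ζ)‖) * (‖q ζ‖ * ‖deriv g ζ‖) := by ring
    _ ≤ (4 * (1 - r * ‖ζ‖) * ‖deriv g (r * ζ)‖) * 1 :=
        mul_le_mul_of_nonneg_left k1 (by positivity)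
    _ = 4 * (1 - r * ‖ζ‖) * ‖deriv g (r * ζ)‖ := mul_one _

end SD

end Pool.Agent.Helper523.LL
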