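import Pool.Agent.Helper523.LL.Conf

set_option autoImplicit false

open Set Filter Metric Topology Complex MeasureTheory
open scoped ENNReal

namespace Pool.Agent.Helper523.LL

theorem det_mul (c : ℂ) : ((ContinuousLinearMap.toSpanSingleton ℂ c).restrictScalars ℝ).det = ‖c‖ ^ 2 := by
  have : (((ContinuousLinearMap.toSpanSingleton ℂ c).restrictScalars ℝ : ℂ →L[ℝ] ℂ) : ℂ →ₗ[ℝ] ℂ) = ((LinearMap.toSpanSingleton ℂ ℂ c).restrictScalars ℝ) := by
    ext <;> simp
  rw [ContinuousLinearMap.det, this, LinearMap.det_restrictScalars]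
  simp [Algebra.norm_complex_apply, Complex.normSq_eq_norm_sq]

/-- the weight -/
noncomputable def wt (φ : ℂ → ℂ) (z : ℂ) : ℝ := (1 - ‖φ z‖) ^ 2

theorem wt_nonneg (φ : ℂ → ℂ) (z : ℂ) : 0 ≤ wt φ z := sq_nonneg _

namespace SD
variable {Ω : Set ℂ} {g φ : ℂ → ℂ}

theorem wt_le_one (h : SD Ω g φ) {z : ℂ} (hz : z ∈ Ω) : wt φ z ≤ 1 := by
  have h1 := h.norm_phi_lt hz
  have h2 := norm_nonneg (φ z)
  unfold wt
  nlinarith

theorem meas (h : SD Ω g φ) : MeasurableSet Ω := h.isOpen.measurableSet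

theorem mul_mem (_h : SD Ω g φ) {ζ : ℂ} (hζ : ζ ∈ ball (0:ℂ) 1) {r : ℝ} (hr0 : 0 ≤ r) (hr1 : r ≤ 1) :
    (r : ℂ) * ζ ∈ ball (0:ℂ) 1 := by
  rw [mem_ball_zero_iff] at hζ ⊢
  rw [norm_mul, norm_real, Real.norm_of_nonneg hr0]
  nlinarith [norm_nonneg ζ]

theorem psi_mem (h : SD Ω g φ) {z : ℂ} (hz : z ∈ Ω) {r : ℝ} (hr0 : 0 ≤ r) (hr1 : r ≤ 1) :
    g (r * φ z) ∈ Ω := h.gm (h.mul_mem (h.φm hz) hr0 hr1)

theorem phi_psi (h : SD Ω g φ) {z : ℂ} (hz : z ∈ Ω) {r : ℝ} (hr0 : 0 ≤ r) (hr1 : r ≤ 1) :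
    φ (g (r * φ z)) = r * φ z := h.φg _ (h.mul_mem (h.φm hz) hr0 hr1)

theorem psi_deriv (h : SD Ω g φ) {z : ℂ} (hz : z ∈ Ω) {r : ℝ} (hr0 : 0 ≤ r) (hr1 : r ≤ 1) :
    HasDerivAt (fun z => g (r * φ z)) (deriv g (r * φ z) * (r * deriv φ z)) z := by
  have h1 : HasDerivAt φ (deriv φ z) z := (h.φd.differentiableAt (h.isOpen.mem_nhds hz)).hasDerivAt
  have h2 : HasDerivAt g (deriv g (r * φ z)) (r * φ z) :=
    (h.gd.differentiableAt (isOpen_ball.mem_nhds (h.mul_mem (h.φm hz) hr0 hr1))).hasDerivAt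
  exact h2.comp z (h1.const_mul (r : ℂ))

theorem deriv_phi_mul (h : SD Ω g φ) {z : ℂ} (hz : z ∈ Ω) : deriv φ z * deriv g (φ z) = 1 := by
  have := h.deriv_mul (h.φm hz)
  rwa [h.gφ z hz] at this

theorem wt_le (h : SD Ω g φ) {z : ℂ} (hz : z ∈ Ω) {r : ℝ} (hr0 : 1 / 2 ≤ r) (hr1 : r ≤ 1) :
    wt φ z ≤ 64 * (‖deriv g (r * φ z) * (r * deriv φ z)‖ ^ 2 * wt φ (g (r * φ z))) := by
  have hr0' : 0 ≤ r := by linarith
  have hζ := h.φm hz
  have hlt := h.norm_phi_lt hz
  have h1 := h.ratio hζ hr0' hr1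
  have h2 : ‖deriv φ z‖ * ‖deriv g (φ z)‖ = 1 := by
    rw [← norm_mul, h.deriv_phi_mul hz, norm_one]
  have h3 : 0 ≤ 1 - ‖φ z‖ := by linarith
  have h4 : 1 - ‖φ z‖ ≤ 8 * (‖deriv g (r * φ z) * (r * deriv φ z)‖ * (1 - r * ‖φ z‖)) := by
    rw [norm_mul, norm_mul, norm_real, Real.norm_of_nonneg hr0']
    have e1 : 1 - ‖φ z‖ = ‖deriv φ z‖ * (‖deriv g (φ z)‖ * (1 - ‖φ z‖)) := by
      rw [← mul_assoc, h2, one_mul]
    have h5 : ‖deriv φ z‖ * (‖deriv g (φ z)‖ * (1 - ‖φ z‖)) ≤
        ‖deriv φ z‖ * (4 * (1 - r * ‖φ z‖) * ‖deriv g (r * φ z)‖) :=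
      mul_le_mul_of_nonneg_left h1 (norm_nonneg _)
    have h6 : 0 ≤ ‖deriv φ z‖ * (4 * (1 - r * ‖φ z‖) * ‖deriv g (r * φ z)‖) := by
      have : 0 ≤ 1 - r * ‖φ z‖ := by nlinarith [norm_nonneg (φ z)]
      positivity
    rw [← e1] at h5
    nlinarith
  have h5 : wt φ (g (r * φ z)) = (1 - r * ‖φ z‖) ^ 2 := by
    unfold wt
    rw [h.phi_psi hz hr0' hr1, norm_mul, norm_real, Real.norm_of_nonneg hr0']
  rw [h5]
  unfold wt
  calc (1 - ‖φ z‖) ^ 2 ≤ (8 * (‖deriv g (r * φ z) * (r * deriv φ z)‖ * (1 - r * ‖φ z‖))) ^ 2 :=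
        pow_le_pow_left₀ h3 h4 2
    _ = 64 * (‖deriv g (r * φ z) * (r * deriv φ z)‖ ^ 2 * (1 - r * ‖φ z‖) ^ 2) := by ring

theorem key_ineq (h : SD Ω g φ) {r : ℝ} (hr0 : 1 / 2 ≤ r) (hr1 : r ≤ 1) (k : ℂ → ℝ≥0∞) :
    ∫⁻ z in Ω, k (g (r * φ z)) * ENNReal.ofReal (wt φ z) ≤
      64 * ∫⁻ z in Ω, k z * ENNReal.ofReal (wt φ z) := by
  have hr0' : 0 ≤ r := by linarith
  set ψ : ℂ → ℂ := fun z => g (r * φ z) with hψ
  set ψ' : ℂ → ℂ := fun z => deriv g (r * φ z) * (r * deriv φ z) with hψ'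
  have hinj : InjOn ψ Ω := by
    intro x hx y hy hxy
    have h1 : (r : ℂ) * φ x = r * φ y := by
      rw [← h.phi_psi hx hr0' hr1, ← h.phi_psi hy hr0' hr1]
      exact congrArg φ hxy
    have hr : (r : ℂ) ≠ 0 := by exact_mod_cast (by linarith : r ≠ 0)
    have h2 := mul_left_cancel₀ hr h1
    rw [← h.gφ x hx, ← h.gφ y hy, h2]
  have hder : ∀ z ∈ Ω, HasFDerivWithinAt ψ
      ((ContinuousLinearMap.toSpanSingleton ℂ (ψ' z)).restrictScalars ℝ) Ω z := by
    intro z hz
    exact ((h.psi_deriv hz hr0' hr1).hasFDerivAt.restrictScalars ℝ).hasFDerivWithinAt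
  have hcv := lintegral_image_eq_lintegral_abs_det_fderiv_mul (volume : Measure ℂ) h.meas hder hinj
    (fun z => k z * ENNReal.ofReal (wt φ z))
  have hsub : ψ '' Ω ⊆ Ω := by
    rintro _ ⟨z, hz, rfl⟩
    exact h.psi_mem hz hr0' hr1
  calc ∫⁻ z in Ω, k (ψ z) * ENNReal.ofReal (wt φ z)
      ≤ ∫⁻ z in Ω, 64 * (ENNReal.ofReal |((ContinuousLinearMap.toSpanSingleton ℂ (ψ' z)).restrictScalars ℝ).det| *
          (k (ψ z) * ENNReal.ofReal (wt φ (ψ z)))) := by
        apply setLIntegral_mono' h.meas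
        intro z hz
        rw [det_mul, abs_of_nonneg (sq_nonneg _)]
        have h1 : ENNReal.ofReal (wt φ z) ≤ 64 * (ENNReal.ofReal (‖ψ' z‖ ^ 2) * ENNReal.ofReal (wt φ (ψ z))) := by
          rw [← ENNReal.ofReal_mul (sq_nonneg _), show (64 : ℝ≥0∞) = ENNReal.ofReal 64 by simp,
            ← ENNReal.ofReal_mul (by norm_num)]
          exact ENNReal.ofReal_le_ofReal (h.wt_le hz hr0 hr1)
        calc k (ψ z) * ENNReal.ofReal (wt φ z)
            ≤ k (ψ z) * (64 * (ENNReal.ofReal (‖ψ' z‖ ^ 2) * ENNReal.ofReal (wt φ (ψ z)))) := by gcongr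
          _ = 64 * (ENNReal.ofReal (‖ψ' z‖ ^ 2) * (k (ψ z) * ENNReal.ofReal (wt φ (ψ z)))) := by ring
    _ = 64 * ∫⁻ z in Ω, (ENNReal.ofReal |((ContinuousLinearMap.toSpanSingleton ℂ (ψ' z)).restrictScalars ℝ).det| *
          (k (ψ z) * ENNReal.ofReal (wt φ (ψ z)))) := lintegral_const_mul' _ _ (by norm_num)
    _ = 64 * ∫⁻ z in ψ '' Ω, k z * ENNReal.ofReal (wt φ z) := by rw [hcv]
    _ ≤ 64 * ∫⁻ z in Ω, k z * ENNReal.ofReal (wt φ z) := by
        gcongr

theorem finite_volume (h : SD Ω g φ) : volume Ω < ∞ :=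
  (measure_mono h.sub).trans_lt measure_ball_lt_top

/-- Approximation of functions in the weighted Bergman space by bounded functions. -/
theorem dil (h : SD Ω g φ) {f : ℂ → ℂ} (hf : DifferentiableOn ℂ f Ω)
    (hfin : ∫⁻ z in Ω, ‖f z‖ₑ * ENNReal.ofReal (wt φ z) < ∞) {ε : ℝ≥0∞} (hε : 0 < ε) :
    ∃ F : ℂ → ℂ, DifferentiableOn ℂ F Ω ∧ (∃ C : ℝ, ∀ z ∈ Ω, ‖F z‖ ≤ C) ∧
      ∫⁻ z in Ω, ‖f z - F z‖ₑ * ENNReal.ofReal (wt φ z) < ε := by
  have hφc : ContinuousOn φ Ω := h.φd.continuousOn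
  have hwc : ContinuousOn (wt φ) Ω := by
    unfold wt
    exact (continuousOn_const.sub hφc.norm).pow 2
  set S : ℝ → Set ℂ := fun R => {z | z ∈ Ω ∧ R < ‖φ z‖} with hS
  have hSopen : ∀ R, IsOpen (S R) := by
    intro R
    have : S R = Ω ∩ (fun z => ‖φ z‖) ⁻¹' (Ioi R) := by
      ext z; simp [hS]
    rw [this]
    exact hφc.norm.isOpen_inter_preimage h.isOpen isOpen_Ioi
  set a : ℂ → ℝ≥0∞ := fun z => ‖f z‖ₑ * ENNReal.ofReal (wt φ z) with ha
  set ν : Measure ℂ := (volume.restrict Ω).withDensity a with hν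
  have hνfin : IsFiniteMeasure ν := isFiniteMeasure_withDensity hfin.ne
  have hνS : ∀ R, ν (S R) = ∫⁻ z in S R, a z := by
    intro R
    rw [hν, withDensity_apply _ (hSopen R).measurableSet, Measure.restrict_restrict (hSopen R).measurableSet]
    have : S R ∩ Ω = S R := inter_eq_left.2 (fun z hz => hz.1)
    rw [this]
  -- tails
  have htail : Tendsto (fun n : ℕ => ν (S (1 - 1 / ((n : ℝ) + 1)))) atTop (𝓝 0) := by
    have h1 := tendsto_measure_iInter_atTop (μ := ν) (s := fun n : ℕ => S (1 - 1 / ((n : ℝ) + 1)))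
      (fun n => (hSopen _).measurableSet.nullMeasurableSet)
      (by
        intro m n hmn z hz
        refine ⟨hz.1, lt_of_le_of_lt ?_ hz.2⟩
        have : (1:ℝ) / ((n : ℝ) + 1) ≤ 1 / ((m : ℝ) + 1) := by
          apply one_div_le_one_div_of_le (by positivity)
          have : (m : ℝ) ≤ n := by exact_mod_cast hmn
          linarith
        linarith) ⟨0, measure_ne_top ν _⟩
    have h2 : (⋂ n : ℕ, S (1 - 1 / ((n : ℝ) + 1))) = ∅ := by
      apply eq_empty_of_forall_notMem
      intro z hz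
      rw [mem_iInter] at hz
      have hzΩ := (hz 0).1
      have hlt := h.norm_phi_lt hzΩ
      obtain ⟨n, hn⟩ := exists_nat_one_div_lt (sub_pos.2 hlt)
      have := (hz n).2
      linarith
    rw [h2, measure_empty] at h1
    exact h1
  -- choose R
  obtain ⟨N, hN⟩ : ∃ N : ℕ, 65 * ν (S (1 - 1 / ((N : ℝ) + 1))) < ε / 2 := by
    have h1 : Tendsto (fun n : ℕ => 65 * ν (S (1 - 1 / ((n : ℝ) + 1)))) atTop (𝓝 (65 * 0)) :=
      ENNReal.Tendsto.const_mul htail (Or.inr (by norm_num))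
    rw [mul_zero] at h1
    have h2 := (h1.eventually (gt_mem_nhds (ENNReal.half_pos hε.ne'))).exists
    exact h2
  set R : ℝ := 1 - 1 / ((N : ℝ) + 1) with hR
  have hR0 : 0 ≤ R := by
    rw [hR, sub_nonneg, div_le_one (by positivity)]
    have : (0:ℝ) ≤ N := by positivity
    linarith
  have hR1 : R < 1 := by
    rw [hR]
    have : 0 < 1 / ((N : ℝ) + 1) := by positivity
    linarith
  set R' : ℝ := (1 + R) / 2 with hR'
  have hRR' : R < R' := by rw [hR']; linarith
  have hR'1 : R' < 1 := by rw [hR']; linarith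
  have hR'0 : 0 < R' := by rw [hR']; linarith
  -- compact part
  set K : Set ℂ := {z | z ∈ Ω ∧ ‖φ z‖ ≤ R'} with hK
  have hKcomp : IsCompact K := by
    have : K = g '' closedBall 0 R' := by
      ext z
      constructor
      · rintro ⟨hz, hz'⟩
        exact ⟨φ z, by simpa using hz', h.gφ z hz⟩
      · rintro ⟨ζ, hζ, rfl⟩
        have hζ' : ζ ∈ ball (0:ℂ) 1 := closedBall_subset_ball hR'1 hζ
        refine ⟨h.gm hζ', ?_⟩
        rw [h.φg ζ hζ']
        simpa using hζ
    rw [this]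
    exact (isCompact_closedBall _ _).image_of_continuousOn
      (h.gd.continuousOn.mono (closedBall_subset_ball hR'1))
  have hKΩ : K ⊆ Ω := fun z hz => hz.1
  have hKmeas : MeasurableSet K := hKcomp.isClosed.measurableSet
  obtain ⟨C, hC⟩ := hKcomp.exists_bound_of_continuousOn (hf.continuousOn.mono hKΩ)
  set rn : ℕ → ℝ := fun n => 1 - 1 / ((n : ℝ) + 2) with hrn
  have hrn0 : ∀ n, 1 / 2 ≤ rn n := by
    intro n
    have : (1:ℝ) / ((n : ℝ) + 2) ≤ 1 / 2 := by
      apply one_div_le_one_div_of_le (by norm_num)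
      have : (0:ℝ) ≤ n := by positivity
      linarith
    simp only [hrn]; linarith
  have hrn1 : ∀ n, rn n < 1 := by
    intro n
    have : (0:ℝ) < 1 / ((n : ℝ) + 2) := by positivity
    simp only [hrn]; linarith
  have hrnt : Tendsto rn atTop (𝓝 1) := by
    have h1 : Tendsto (fun n : ℕ => 1 / ((n : ℝ) + 2)) atTop (𝓝 0) := by
      have := (tendsto_one_div_add_atTop_nhds_zero_nat (𝕜 := ℝ)).comp (tendsto_add_atTop_nat 1)
      refine this.congr ?_
      intro n
      simp only [Function.comp_apply]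
      push_cast
      congr 1
      ring
    have := h1.const_sub 1
    rw [sub_zero] at this
    exact this
  have hcompd : ∀ n, DifferentiableOn ℂ (fun z => f (g (rn n * φ z))) Ω := by
    intro n z hz
    have h1 := (h.psi_deriv hz (by linarith [hrn0 n]) (hrn1 n).le).differentiableAt
    have h2 : DifferentiableAt ℂ f (g (rn n * φ z)) :=
      hf.differentiableAt (h.isOpen.mem_nhds (h.psi_mem hz (by linarith [hrn0 n]) (hrn1 n).le))
    exact (DifferentiableAt.comp z h2 h1).differentiableWithinAt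
  have hdct : Tendsto (fun n => ∫⁻ z in K, ‖f z - f (g (rn n * φ z))‖ₑ * ENNReal.ofReal (wt φ z)) atTop (𝓝 0) := by
    have h0 : (0 : ℝ≥0∞) = ∫⁻ z in K, 0 := by simp
    rw [h0]
    apply tendsto_lintegral_of_dominated_convergence' (fun _ => ENNReal.ofReal (2 * C))
    · intro n
      have h1 : ContinuousOn (fun z => f z - f (g (rn n * φ z))) K :=
          (hf.continuousOn.sub (hcompd n).continuousOn).mono hKΩ
      have h2 := (h1.aestronglyMeasurable hKmeas (μ := volume)).enorm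
      have h3 := ((hwc.mono hKΩ).aemeasurable hKmeas (μ := volume)).ennreal_ofReal
      exact h2.mul h3
    · intro n
      apply (ae_restrict_iff' hKmeas).2
      filter_upwards with z hz
      have h1 : g (rn n * φ z) ∈ K := by
        refine ⟨h.psi_mem hz.1 (by linarith [hrn0 n]) (hrn1 n).le, ?_⟩
        rw [h.phi_psi hz.1 (by linarith [hrn0 n]) (hrn1 n).le, norm_mul, norm_real,
          Real.norm_of_nonneg (by linarith [hrn0 n])]
        have := hz.2
        nlinarith [norm_nonneg (φ z), hrn1 n, hrn0 n]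
      have h2 : ‖f z - f (g (rn n * φ z))‖ ≤ 2 * C := by
        have h3 := hC z hz
        have h4 := hC _ h1
        have h5 := norm_sub_le (f z) (f (g (rn n * φ z)))
        linarith
      have h6 : ENNReal.ofReal (wt φ z) ≤ 1 := by
        rw [← ENNReal.ofReal_one]
        exact ENNReal.ofReal_le_ofReal (h.wt_le_one hz.1)
      calc ‖f z - f (g (rn n * φ z))‖ₑ * ENNReal.ofReal (wt φ z)
          ≤ ‖f z - f (g (rn n * φ z))‖ₑ * 1 := by gcongr
        _ = ‖f z - f (g (rn n * φ z))‖ₑ := mul_one _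
        _ = ENNReal.ofReal ‖f z - f (g (rn n * φ z))‖ := (ofReal_norm _).symm
        _ ≤ ENNReal.ofReal (2 * C) := ENNReal.ofReal_le_ofReal h2
    · rw [lintegral_const]
      apply ENNReal.mul_ne_top ENNReal.ofReal_ne_top
      rw [Measure.restrict_apply MeasurableSet.univ, univ_inter]
      exact hKcomp.measure_lt_top.ne
    · rw [ae_restrict_iff' hKmeas]
      filter_upwards with z hz
      have hcont : ContinuousAt (fun r : ℝ => f (g (r * φ z))) 1 := by
        have e1 : ((1 : ℝ) : ℂ) * φ z = φ z := by rw [ofReal_one, one_mul]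
        have h1 : ContinuousAt f (g (((1 : ℝ) : ℂ) * φ z)) := by
          rw [e1, h.gφ z hz.1]
          exact (hf.differentiableAt (h.isOpen.mem_nhds hz.1)).continuousAt
        have h2 : ContinuousAt g (((1 : ℝ) : ℂ) * φ z) := by
          rw [e1]
          exact (h.gd.differentiableAt (isOpen_ball.mem_nhds (h.φm hz.1))).continuousAt
        have h3 : ContinuousAt (fun r : ℝ => (r : ℂ) * φ z) 1 := by fun_prop
        have h4 : ContinuousAt (fun r : ℝ => g (r * φ z)) 1 := ContinuousAt.comp h2 h3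
        exact ContinuousAt.comp (f := fun r : ℝ => g (r * φ z)) h1 h4
      have h5 : Tendsto (fun n => f (g (rn n * φ z))) atTop (𝓝 (f z)) := by
        have := hcont.tendsto.comp hrnt
        rw [ofReal_one, one_mul, h.gφ z hz.1] at this
        exact this
      have h6 : Tendsto (fun n => f z - f (g (rn n * φ z))) atTop (𝓝 0) := by
        have := h5.const_sub (f z)
        rwa [sub_self] at this
      have h7 : Tendsto (fun n => ‖f z - f (g (rn n * φ z))‖ₑ) atTop (𝓝 0) := by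
        have := h6.enorm
        rwa [enorm_zero] at this
      have h8 := ENNReal.Tendsto.mul_const (b := ENNReal.ofReal (wt φ z)) h7 (Or.inr ENNReal.ofReal_ne_top)
      rwa [zero_mul] at h8
  have hev1 : ∀ᶠ n in atTop, ∫⁻ z in K, ‖f z - f (g (rn n * φ z))‖ₑ * ENNReal.ofReal (wt φ z) < ε / 2 :=
    hdct.eventually (gt_mem_nhds (ENNReal.half_pos hε.ne'))
  have hev2 : ∀ᶠ n in atTop, R / R' < rn n := by
    apply hrnt.eventually
    apply lt_mem_nhds
    rw [div_lt_one hR'0]; exact hRR'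
  obtain ⟨n, hn1, hn2⟩ := (hev1.and hev2).exists
  have hr0 : 0 ≤ rn n := by linarith [hrn0 n]
  refine ⟨fun z => f (g (rn n * φ z)), hcompd n, ?_, ?_⟩
  · have hcc : IsCompact (g '' closedBall 0 (rn n)) :=
      (isCompact_closedBall _ _).image_of_continuousOn
        (h.gd.continuousOn.mono (closedBall_subset_ball (hrn1 n)))
    have hsub : g '' closedBall 0 (rn n) ⊆ Ω := by
      rintro _ ⟨ζ, hζ, rfl⟩
      exact h.gm (closedBall_subset_ball (hrn1 n) hζ)
    obtain ⟨C', hC'⟩ := hcc.exists_bound_of_continuousOn (hf.continuousOn.mono hsub)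
    refine ⟨C', fun z hz => hC' _ ⟨rn n * φ z, ?_, rfl⟩⟩
    rw [mem_closedBall_zero_iff, norm_mul, norm_real, Real.norm_of_nonneg hr0]
    have := h.norm_phi_lt hz
    nlinarith [norm_nonneg (φ z)]
  · have hsplit : Ω = K ∪ S R' := by
      ext z
      constructor
      · intro hz
        rcases le_or_gt ‖φ z‖ R' with h1 | h1
        · exact Or.inl ⟨hz, h1⟩
        · exact Or.inr ⟨hz, h1⟩
      · rintro (hz | hz)
        · exact hz.1
        · exact hz.1
    have hS2 : ∫⁻ z in S R', ‖f z - f (g (rn n * φ z))‖ₑ * ENNReal.ofReal (wt φ z) ≤ 65 * ν (S R) := by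
      have hfm : AEMeasurable (fun z => ‖f z‖ₑ * ENNReal.ofReal (wt φ z)) (volume.restrict (S R')) := by
        have hsb : S R' ⊆ Ω := fun z hz => hz.1
        have h2 := ((hf.continuousOn.mono hsb).aestronglyMeasurable (hSopen R').measurableSet (μ := volume)).enorm
        have h3 := ((hwc.mono hsb).aemeasurable (hSopen R').measurableSet (μ := volume)).ennreal_ofReal
        exact h2.mul h3
      calc ∫⁻ z in S R', ‖f z - f (g (rn n * φ z))‖ₑ * ENNReal.ofReal (wt φ z)
          ≤ ∫⁻ z in S R', (‖f z‖ₑ * ENNReal.ofReal (wt φ z) +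
              ‖f (g (rn n * φ z))‖ₑ * ENNReal.ofReal (wt φ z)) := by
            apply lintegral_mono
            intro z
            simp only
            rw [← add_mul]
            gcongr
            exact enorm_sub_le
        _ = (∫⁻ z in S R', ‖f z‖ₑ * ENNReal.ofReal (wt φ z)) +
              ∫⁻ z in S R', ‖f (g (rn n * φ z))‖ₑ * ENNReal.ofReal (wt φ z) :=
            lintegral_add_left' hfm _
        _ ≤ ν (S R) + 64 * ν (S R) := by
            apply add_le_add
            · rw [hνS]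
              exact lintegral_mono_set (fun z hz => ⟨hz.1, hRR'.trans hz.2⟩)
            · have h1 := h.key_ineq (hrn0 n) (hrn1 n).le ((S R).indicator (fun z => ‖f z‖ₑ))
              have h2 : ∫⁻ z in Ω, (S R).indicator (fun z => ‖f z‖ₑ) z * ENNReal.ofReal (wt φ z) = ν (S R) := by
                rw [hνS]
                rw [← lintegral_indicator h.meas, ← lintegral_indicator (hSopen R).measurableSet]
                apply lintegral_congr
                intro z
                by_cases hz : z ∈ S R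
                · rw [indicator_of_mem hz.1, indicator_of_mem hz, indicator_of_mem hz]
                · by_cases hz' : z ∈ Ω
                  · rw [indicator_of_mem hz', indicator_of_notMem hz, indicator_of_notMem hz, zero_mul]
                  · rw [indicator_of_notMem hz', indicator_of_notMem hz]
              rw [h2] at h1
              refine le_trans ?_ h1
              calc ∫⁻ z in S R', ‖f (g (rn n * φ z))‖ₑ * ENNReal.ofReal (wt φ z)
                  ≤ ∫⁻ z in S R', (S R).indicator (fun z => ‖f z‖ₑ) (g (rn n * φ z)) * ENNReal.ofReal (wt φ z) := by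
                    apply setLIntegral_mono' (hSopen R').measurableSet
                    intro z hz
                    have h3 : g (rn n * φ z) ∈ S R := by
                      refine ⟨h.psi_mem hz.1 hr0 (hrn1 n).le, ?_⟩
                      rw [h.phi_psi hz.1 hr0 (hrn1 n).le, norm_mul, norm_real, Real.norm_of_nonneg hr0]
                      rw [div_lt_iff₀ hR'0] at hn2
                      have h4 : rn n * R' ≤ rn n * ‖φ z‖ := mul_le_mul_of_nonneg_left hz.2.le hr0
                      linarith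
                    rw [indicator_of_mem h3]
                _ ≤ ∫⁻ z in Ω, (S R).indicator (fun z => ‖f z‖ₑ) (g (rn n * φ z)) * ENNReal.ofReal (wt φ z) :=
                    lintegral_mono_set (fun z hz => hz.1)
        _ = 65 * ν (S R) := by ring
    calc ∫⁻ z in Ω, ‖f z - f (g (rn n * φ z))‖ₑ * ENNReal.ofReal (wt φ z)
        ≤ (∫⁻ z in K, ‖f z - f (g (rn n * φ z))‖ₑ * ENNReal.ofReal (wt φ z)) +
          ∫⁻ z in S R', ‖f z - f (g (rn n * φ z))‖ₑ * ENNReal.ofReal (wt φ z) := by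
          conv_lhs => rw [hsplit]
          exact lintegral_union_le _ _ _
      _ < ε / 2 + ε / 2 := by
          exact ENNReal.add_lt_add hn1 (hS2.trans_lt hN)
      _ = ε := ENNReal.add_halves ε

end SD

end Pool.Agent.Helper523.LL
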