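import Mathlib

set_option autoImplicit false

open Set Filter Metric Topology Complex

namespace Pool.Agent.Helper523.LL

/-- exponents of the exponents -/
def mexp : ℕ → ℕ
  | 0 => 0
  | n + 1 => 2 ^ (481 * 2 ^ mexp n)

/-- the rapidly growing sequence `Q` -/
def Q (n : ℕ) : ℕ := 2 ^ mexp n

theorem Q_pos (n : ℕ) : 0 < Q n := by unfold Q; positivity

theorem Q_succ (n : ℕ) : Q (n + 1) = 2 ^ 2 ^ (481 * Q n) := rfl

theorem mexp_succ_ge (n : ℕ) : mexp n + 4 ≤ mexp (n + 1) := by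
  have h1 : mexp n < 2 ^ mexp n := Nat.lt_two_pow_self
  have h2 : 481 * 2 ^ mexp n < 2 ^ (481 * 2 ^ mexp n) := Nat.lt_two_pow_self
  have h3 : 1 ≤ 2 ^ mexp n := Nat.one_le_two_pow
  have h4 : mexp (n + 1) = 2 ^ (481 * 2 ^ mexp n) := rfl
  omega

theorem mexp_mono : Monotone mexp := by
  apply monotone_nat_of_le_succ
  intro n
  have := mexp_succ_ge n
  omega

theorem Q_dvd {m n : ℕ} (h : m ≤ n) : Q m ∣ Q n := pow_dvd_pow 2 (mexp_mono h)

theorem Q_mono {m n : ℕ} (h : m ≤ n) : Q m ≤ Q n := Nat.le_of_dvd (Q_pos n) (Q_dvd h)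

theorem Q_succ_ge (n : ℕ) : 16 * Q n ≤ Q (n + 1) := by
  have h1 := mexp_succ_ge n
  calc 16 * Q n = 2 ^ (mexp n + 4) := by unfold Q; rw [pow_add]; ring
    _ ≤ 2 ^ mexp (n + 1) := Nat.pow_le_pow_right (by norm_num) h1
    _ = Q (n + 1) := rfl

theorem Q_ge (n : ℕ) : n < Q n := by
  induction n with
  | zero => exact Q_pos 0
  | succ n ih =>
    have := Q_succ_ge n
    omega

theorem tendsto_Q : Tendsto (fun n => (Q n : ℝ)) atTop atTop := by
  apply tendsto_atTop_mono (f := fun n : ℕ => (n : ℝ))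
  · intro n
    exact_mod_cast (Q_ge n).le
  · exact tendsto_natCast_atTop_atTop

/-- directions of the slits -/
def Nice (e : ℂ) : Prop := ‖e‖ = 1 ∧ ∃ m, e ^ Q m = 1 ∧ ∀ k < m, 0 < (e ^ Q k).re

/-- the union of the rays -/
def Ray : Set ℂ := {z | ∃ (r : ℝ) (e : ℂ), 1 / 2 ≤ r ∧ Nice e ∧ z = r * e}

/-- the walls -/
def Γ : Set ℂ := closure Ray

/-- the domain -/
def Om : Set ℂ := ball 0 1 \ Γ

theorem nice_re {e : ℂ} (he : Nice e) (k : ℕ) : 0 ≤ (e ^ Q k).re := by
  obtain ⟨_, m, h1, h2⟩ := he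
  rcases lt_or_ge k m with h | h
  · exact (h2 k h).le
  · obtain ⟨c, hc⟩ := Q_dvd h
    rw [hc, pow_mul, h1, one_pow]
    simp

theorem ray_re {z : ℂ} (hz : z ∈ Ray) (k : ℕ) : 0 ≤ (z ^ Q k).re := by
  obtain ⟨r, e, hr, he, rfl⟩ := hz
  rw [mul_pow, ← ofReal_pow, re_ofReal_mul]
  have : 0 ≤ r := by linarith
  exact mul_nonneg (by positivity) (nice_re he k)

theorem ray_norm {z : ℂ} (hz : z ∈ Ray) : 1 / 2 ≤ ‖z‖ := by
  obtain ⟨r, e, hr, he, rfl⟩ := hz
  rw [norm_mul, he.1, mul_one, norm_real, Real.norm_eq_abs]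
  exact hr.trans (le_abs_self r)

theorem gam_re {z : ℂ} (hz : z ∈ Γ) (k : ℕ) : 0 ≤ (z ^ Q k).re := by
  have hcl : IsClosed {z : ℂ | 0 ≤ (z ^ Q k).re} :=
    isClosed_le continuous_const (by fun_prop)
  exact closure_minimal (fun w hw => ray_re hw k) hcl hz

theorem gam_norm {z : ℂ} (hz : z ∈ Γ) : 1 / 2 ≤ ‖z‖ := by
  have hcl : IsClosed {z : ℂ | 1 / 2 ≤ ‖z‖} := isClosed_le continuous_const continuous_norm
  exact closure_minimal (fun w hw => ray_norm hw) hcl hz

theorem gam_smul {z : ℂ} (hz : z ∈ Γ) {s : ℝ} (hs : 1 ≤ s) : (s : ℂ) * z ∈ Γ := by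
  have hc : Continuous fun z : ℂ => (s : ℂ) * z := by fun_prop
  refine map_mem_closure hc hz ?_
  rintro _ ⟨r, e, hr, he, rfl⟩
  refine ⟨s * r, e, ?_, he, ?_⟩
  · nlinarith
  · push_cast; ring

theorem isOpen_Om : IsOpen Om := isOpen_ball.sdiff isClosed_closure

theorem Om_sub : Om ⊆ ball 0 1 := sdiff_subset

theorem half_sub_Om : ball 0 (1 / 2) ⊆ Om := by
  intro z hz
  refine ⟨ball_subset_ball (by norm_num) hz, fun h => ?_⟩
  have := gam_norm h
  rw [mem_ball_zero_iff] at hz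
  linarith

theorem star_Om : StarConvex ℝ 0 Om := by
  intro z hz a b ha hb hab
  rw [smul_zero, zero_add, real_smul]
  rcases eq_or_lt_of_le hb with h | h
  · rw [← h]
    simp only [ofReal_zero, zero_mul]
    exact half_sub_Om (mem_ball_self (by norm_num))
  · refine ⟨?_, fun hΓ => ?_⟩
    · have := hz.1
      rw [mem_ball_zero_iff] at this ⊢
      rw [norm_mul, norm_real, Real.norm_of_nonneg hb]
      nlinarith [norm_nonneg z]
    · apply hz.2
      have h1 : (1:ℝ) ≤ b⁻¹ := by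
        rw [one_le_inv₀ h]; linarith
      have h2 := gam_smul hΓ h1
      have h3 : ((b⁻¹ : ℝ) : ℂ) * ((b : ℂ) * z) = z := by
        have : (b : ℂ) ≠ 0 := by exact_mod_cast h.ne'
        push_cast
        field_simp
      rwa [h3] at h2

theorem three_quarters_mem : (3 / 4 : ℂ) ∈ Γ := by
  apply subset_closure
  refine ⟨3 / 4, 1, by norm_num, ⟨by simp, 0, by simp, fun k hk => absurd hk (Nat.not_lt_zero k)⟩, ?_⟩
  push_cast; ring

theorem ball_sub_closure : ball (0:ℂ) 1 ⊆ closure Om := by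
  intro z hz
  rcases eq_or_ne z 0 with rfl | hz0
  · exact subset_closure (half_sub_Om (mem_ball_self (by norm_num)))
  set θ : ℕ → ℝ := fun k => (Real.pi - (z ^ Q k).arg) / Q k with hθ
  have hlim : Tendsto θ atTop (𝓝 0) := by
    have h1 : Tendsto (fun k => 2 * Real.pi / (Q k : ℝ)) atTop (𝓝 0) :=
      tendsto_const_nhds.div_atTop tendsto_Q
    apply squeeze_zero_norm _ h1
    intro k
    have hQ : (0:ℝ) < Q k := by exact_mod_cast Q_pos k
    rw [hθ, Real.norm_eq_abs, abs_div, abs_of_pos hQ]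
    apply div_le_div_of_nonneg_right _ hQ.le
    rw [abs_le]
    have h2 := Complex.arg_le_pi (z ^ Q k)
    have h3 := Complex.neg_pi_lt_arg (z ^ Q k)
    constructor <;> linarith [Real.pi_pos]
  have hmem : ∀ k, z * exp (θ k * I) ∈ Om := by
    intro k
    refine ⟨?_, fun hΓ => ?_⟩
    · rw [mem_ball_zero_iff, norm_mul, norm_exp_ofReal_mul_I, mul_one]
      exact mem_ball_zero_iff.1 hz
    · have h1 := gam_re hΓ k
      have hQ : (Q k : ℂ) ≠ 0 := by exact_mod_cast (Q_pos k).ne'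
      have h2 : (z * exp (θ k * I)) ^ Q k = ((-(‖z ^ Q k‖) : ℝ) : ℂ) := by
        rw [mul_pow, ← exp_nat_mul]
        have e1 : (Q k : ℂ) * (θ k * I) = (Real.pi : ℂ) * I - ((z ^ Q k).arg : ℂ) * I := by
          rw [hθ]
          push_cast
          field_simp
        rw [e1, exp_sub, exp_pi_mul_I]
        have e2 := norm_mul_exp_arg_mul_I (z ^ Q k)
        conv_lhs => rw [← e2]
        have e3 : exp (((z ^ Q k).arg : ℂ) * I) ≠ 0 := exp_ne_zero _
        rw [e2]
        have e4 : z ^ Q k = (‖z ^ Q k‖ : ℂ) * exp (((z ^ Q k).arg : ℂ) * I) := e2.symm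
        rw [mul_div_assoc', div_eq_iff e3]
        push_cast
        linear_combination (-1 : ℂ) * e4
      rw [h2, ofReal_re] at h1
      have h3 : 0 < ‖z ^ Q k‖ := norm_pos_iff.2 (pow_ne_zero _ hz0)
      linarith
  have hconv : Tendsto (fun k => z * exp (θ k * I)) atTop (𝓝 z) := by
    have hc : ContinuousAt (fun t : ℝ => z * exp (t * I)) 0 := by fun_prop
    have := hc.tendsto.comp hlim
    simp only [ofReal_zero, zero_mul, exp_zero, mul_one] at this
    exact this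
  exact mem_closure_of_tendsto hconv (Eventually.of_forall hmem)

theorem inner_nonempty : (frontier Om ∩ interior (closure Om)).Nonempty := by
  refine ⟨3 / 4, ?_, ?_⟩
  · rw [frontier, isOpen_Om.interior_eq]
    refine ⟨ball_sub_closure ?_, fun h => h.2 three_quarters_mem⟩
    rw [mem_ball_zero_iff]
    norm_num
  · apply interior_mono ball_sub_closure
    rw [isOpen_ball.interior_eq, mem_ball_zero_iff]
    norm_num

/-- near a nice direction there are slits at distance `4 / Q (n+1)` -/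
theorem lattice {e0 : ℂ} (he0 : Nice e0) :
    ∃ n0, ∀ n ≥ n0, ∀ ζ : ℂ, 1 / 2 ≤ ‖ζ‖ → ‖ζ - ‖ζ‖ * e0‖ ≤ 2 * ‖ζ‖ * (1 / (20 * Q n)) →
      ∃ e' : ℂ, Nice e' ∧ ‖ζ - ‖ζ‖ * e'‖ ≤ ‖ζ‖ * (4 / Q (n + 1)) := by
  obtain ⟨h1, m0, h2, h3⟩ := he0
  -- a lower bound for the real parts
  obtain ⟨c, hc0, hc⟩ : ∃ c : ℝ, 0 < c ∧ ∀ k < m0, c ≤ (e0 ^ Q k).re := by
    clear h2
    induction m0 with
    | zero => exact ⟨1, one_pos, fun k hk => absurd hk (Nat.not_lt_zero k)⟩
    | succ m ih =>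
      obtain ⟨c, hc0, hc⟩ := ih (fun k hk => h3 k (by omega))
      refine ⟨min c (e0 ^ Q m).re, lt_min hc0 (h3 m (by omega)), ?_⟩
      intro k hk
      rcases Nat.lt_succ_iff_lt_or_eq.1 hk with h | h
      · exact (min_le_left _ _).trans (hc k h)
      · rw [h]; exact min_le_right _ _
  obtain ⟨n1, hn1⟩ := (tendsto_Q.eventually_gt_atTop ((Q m0 : ℝ) / c)).exists_forall_of_atTop
  refine ⟨max n1 m0, ?_⟩
  intro n hn ζ hζ hζe
  have hnm : m0 ≤ n := le_trans (le_max_right _ _) hn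
  have hnn1 : n1 ≤ n := le_trans (le_max_left _ _) hn
  have hQn : (0:ℝ) < Q n := by exact_mod_cast Q_pos n
  have hQn1 : (0:ℝ) < Q (n + 1) := by exact_mod_cast Q_pos (n + 1)
  have hQQ : 16 * (Q n : ℝ) ≤ Q (n + 1) := by exact_mod_cast Q_succ_ge n
  have hζ0 : 0 < ‖ζ‖ := by linarith
  -- choose the lattice direction
  set j : ℤ := round (ζ.arg * Q (n + 1) / (2 * Real.pi)) with hj
  set θ' : ℝ := 2 * Real.pi * j / Q (n + 1) with hθ'
  have hθ : |ζ.arg - θ'| ≤ Real.pi / Q (n + 1) := by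
    have h4 := abs_sub_round (ζ.arg * Q (n + 1) / (2 * Real.pi))
    have e : ζ.arg - θ' = (ζ.arg * Q (n + 1) / (2 * Real.pi) - j) * (2 * Real.pi / Q (n + 1)) := by
      rw [hθ']
      field_simp
    rw [e, abs_mul, abs_of_pos (by positivity : (0:ℝ) < 2 * Real.pi / Q (n + 1))]
    calc |ζ.arg * Q (n + 1) / (2 * Real.pi) - j| * (2 * Real.pi / Q (n + 1))
        ≤ 1 / 2 * (2 * Real.pi / Q (n + 1)) := mul_le_mul_of_nonneg_right h4 (by positivity)
      _ = Real.pi / Q (n + 1) := by ring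
  have hexp : ‖exp (ζ.arg * I) - exp (θ' * I)‖ ≤ Real.pi / Q (n + 1) := by
    have h5 : exp (ζ.arg * I) - exp (θ' * I) = exp (θ' * I) * (exp (((ζ.arg - θ' : ℝ) : ℂ) * I) - 1) := by
      rw [mul_sub, ← exp_add, mul_one]
      congr 2
      push_cast; ring
    rw [h5, norm_mul, norm_exp_ofReal_mul_I, one_mul]
    have h6 := Real.norm_exp_I_mul_ofReal_sub_one_le (x := ζ.arg - θ')
    rw [mul_comm] at h6
    exact h6.trans hθ
  have hζeq : ζ = ‖ζ‖ * exp (ζ.arg * I) := (norm_mul_exp_arg_mul_I ζ).symm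
  have hdist : ‖ζ - ‖ζ‖ * exp (θ' * I)‖ ≤ ‖ζ‖ * (Real.pi / Q (n + 1)) := by
    have : ζ - ‖ζ‖ * exp (θ' * I) = ‖ζ‖ * (exp (ζ.arg * I) - exp (θ' * I)) := by
      rw [mul_sub, ← hζeq]
    rw [this, norm_mul, norm_real, norm_norm]
    exact mul_le_mul_of_nonneg_left hexp hζ0.le
  refine ⟨exp (θ' * I), ?_, ?_⟩
  · have hpow1 : exp (θ' * I) ^ Q (n + 1) = 1 := by
      rw [← exp_nat_mul]
      have hne : (Q (n + 1) : ℂ) ≠ 0 := by exact_mod_cast (Q_pos (n + 1)).ne'
      have : (Q (n + 1) : ℂ) * (θ' * I) = j * (2 * Real.pi * I) := by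
        rw [hθ']
        push_cast
        field_simp
      rw [this, exp_int_mul_two_pi_mul_I]
    refine ⟨norm_exp_ofReal_mul_I θ', n + 1, hpow1, ?_⟩
    intro k hk
    have hkn : k ≤ n := by omega
    -- distance between the directions
    have hde : ‖exp (θ' * I) - e0‖ ≤ 1 / (10 * Q n) + Real.pi / Q (n + 1) := by
      have h7 : ‖exp (ζ.arg * I) - e0‖ ≤ 1 / (10 * Q n) := by
        have e : (‖ζ‖ : ℂ) * (exp (ζ.arg * I) - e0) = ζ - ‖ζ‖ * e0 := by
          rw [mul_sub, ← hζeq]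
        have h8 : ‖ζ‖ * ‖exp (ζ.arg * I) - e0‖ ≤ 2 * ‖ζ‖ * (1 / (20 * Q n)) := by
          calc ‖ζ‖ * ‖exp (ζ.arg * I) - e0‖ = ‖(‖ζ‖ : ℂ) * (exp (ζ.arg * I) - e0)‖ := by
                rw [norm_mul, norm_real, norm_norm]
            _ = ‖ζ - ‖ζ‖ * e0‖ := by rw [e]
            _ ≤ _ := hζe
        have h9 : 2 * ‖ζ‖ * (1 / (20 * (Q n : ℝ))) = ‖ζ‖ * (1 / (10 * Q n)) := by
          field_simp; ring
        rw [h9] at h8
        exact le_of_mul_le_mul_left h8 hζ0
      have h10 := norm_sub_le_norm_sub_add_norm_sub (exp (θ' * I)) (exp (ζ.arg * I)) e0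
      rw [norm_sub_rev (exp (θ' * I)) (exp (ζ.arg * I))] at h10
      linarith
    have hpd : ‖exp (θ' * I) ^ Q k - e0 ^ Q k‖ ≤ Q k * (1 / (10 * Q n) + Real.pi / Q (n + 1)) := by
      have h11 : ∀ N : ℕ, ‖exp (θ' * I) ^ N - e0 ^ N‖ ≤ N * ‖exp (θ' * I) - e0‖ := by
        intro N
        induction N with
        | zero => simp
        | succ N ih =>
          have : exp (θ' * I) ^ (N + 1) - e0 ^ (N + 1) =
              exp (θ' * I) * (exp (θ' * I) ^ N - e0 ^ N) + (exp (θ' * I) - e0) * e0 ^ N := by ring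
          rw [this]
          refine (norm_add_le _ _).trans ?_
          rw [norm_mul, norm_mul, norm_exp_ofReal_mul_I, norm_pow, h1, one_pow, one_mul, mul_one]
          push_cast
          linarith
      exact (h11 (Q k)).trans (mul_le_mul_of_nonneg_left hde (by positivity))
    have hpi4 : Real.pi < 4 := Real.pi_lt_four
    have hsum : (1 / (10 * (Q n : ℝ)) + Real.pi / Q (n + 1)) ≤ 1 / (2 * Q n) := by
      have h12 : Real.pi / (Q (n + 1) : ℝ) ≤ 4 / (16 * Q n) := by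
        apply div_le_div₀ (by norm_num) hpi4.le (by positivity) hQQ
      have h13 : (1 / (10 * (Q n : ℝ)) + 4 / (16 * Q n)) ≤ 1 / (2 * Q n) := by
        rw [div_add_div _ _ (by positivity) (by positivity), div_le_div_iff₀ (by positivity) (by positivity)]
        nlinarith [sq_nonneg (Q n : ℝ), mul_pos hQn hQn]
      linarith
    have hbound : ‖exp (θ' * I) ^ Q k - e0 ^ Q k‖ ≤ Q k / (2 * Q n) := by
      refine hpd.trans ?_
      calc (Q k : ℝ) * (1 / (10 * Q n) + Real.pi / Q (n + 1)) ≤ Q k * (1 / (2 * Q n)) :=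
            mul_le_mul_of_nonneg_left hsum (by positivity)
        _ = Q k / (2 * Q n) := by ring
    have hre : (e0 ^ Q k).re - Q k / (2 * Q n) ≤ (exp (θ' * I) ^ Q k).re := by
      have h14 := Complex.abs_re_le_norm (exp (θ' * I) ^ Q k - e0 ^ Q k)
      rw [sub_re] at h14
      have h15 := (abs_le.1 (h14.trans hbound)).1
      linarith
    rcases lt_or_ge k m0 with hkm | hkm
    · have h16 := hc k hkm
      have h17 : (Q k : ℝ) ≤ Q m0 := by exact_mod_cast Q_mono hkm.le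
      have h18 := hn1 n hnn1
      rw [div_lt_iff₀ hc0] at h18
      have h19 : (Q k : ℝ) / (2 * Q n) < c := by
        rw [div_lt_iff₀ (by positivity)]
        nlinarith
      linarith
    · obtain ⟨d, hd⟩ := Q_dvd hkm
      have h20 : e0 ^ Q k = 1 := by rw [hd, pow_mul, h2, one_pow]
      rw [h20, one_re] at hre
      have h21 : (Q k : ℝ) ≤ Q n := by exact_mod_cast Q_mono hkn
      have h22 : (Q k : ℝ) / (2 * Q n) ≤ 1 / 2 := by
        rw [div_le_div_iff₀ (by positivity) (by norm_num)]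
        linarith
      linarith
  · refine hdist.trans ?_
    apply mul_le_mul_of_nonneg_left _ hζ0.le
    exact div_le_div_of_nonneg_right Real.pi_lt_four.le hQn1.le

end Pool.Agent.Helper523.LL
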