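import Mathlib

set_option autoImplicit false

open MeasureTheory Set Filter Topology
open scoped ENNReal InnerProductSpace ComplexConjugate

namespace Pool.Agent.Helper523.LL

variable {α : Type*} [MeasurableSpace α] {μ : Measure α} [IsFiniteMeasure μ]

theorem memLp_one_of_two {k : α → ℂ} (hk : MemLp k 2 μ) : MemLp k 1 μ :=
  hk.mono_exponent (by norm_num)

/-- inclusion of L2 in L1 -/
noncomputable def J : Lp ℂ 2 μ →L[ℂ] Lp ℂ 1 μ :=
  LinearMap.mkContinuous
    { toFun := fun k => (memLp_one_of_two (Lp.memLp k)).toLp k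
      map_add' := by
        intro x y
        rw [← MemLp.toLp_add]
        exact MemLp.toLp_congr _ _ (Lp.coeFn_add x y)
      map_smul' := by
        intro c x
        rw [RingHom.id_apply, ← MemLp.toLp_const_smul]
        exact MemLp.toLp_congr _ _ (Lp.coeFn_smul c x) }
    ((μ univ ^ (1 / 2 : ℝ)).toReal) (by
      intro x
      simp only [LinearMap.coe_mk, AddHom.coe_mk]
      rw [Lp.norm_toLp, Lp.norm_def, ← ENNReal.toReal_mul]
      apply ENNReal.toReal_mono
      · apply ENNReal.mul_ne_top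
        · exact ENNReal.rpow_ne_top_of_nonneg (by norm_num) (measure_ne_top μ univ)
        · exact (Lp.memLp x).eLpNorm_ne_top
      · have h := eLpNorm_le_eLpNorm_mul_rpow_measure_univ (μ := μ) (p := 1) (q := 2) (by norm_num)
          (Lp.memLp x).aestronglyMeasurable
        rw [mul_comm]
        refine h.trans (le_of_eq ?_)
        congr 2
        norm_num)

theorem J_toLp {k : α → ℂ} (hk : MemLp k 2 μ) : J (hk.toLp k) = (memLp_one_of_two hk).toLp k := by
  simp only [J, LinearMap.mkContinuous_apply, LinearMap.coe_mk, AddHom.coe_mk]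
  exact MemLp.toLp_congr _ _ hk.coeFn_toLp

/-- representation of functionals on L1 on bounded functions -/
theorem repr (Λ : StrongDual ℂ (Lp ℂ 1 μ)) :
    ∃ G : α → ℂ, Measurable G ∧ (∀ x, ‖G x‖ ≤ ‖Λ‖) ∧
      ∀ (k : α → ℂ) (hk : MemLp k 2 μ), Λ ((memLp_one_of_two hk).toLp k) = ∫ x, k x * G x ∂μ := by
  set Λ2 : StrongDual ℂ (Lp ℂ 2 μ) := Λ.comp J with hΛ2
  set g0 : Lp ℂ 2 μ := (InnerProductSpace.toDual ℂ (Lp ℂ 2 μ)).symm Λ2 with hg0
  set G0 : α → ℂ := fun x => conj (g0 x) with hG0
  have hg0m : MemLp (g0 : α → ℂ) 2 μ := Lp.memLp g0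
  have hG0m : MemLp G0 2 μ := by
    have := hg0m.star
    exact this
  have key : ∀ (k : α → ℂ) (hk : MemLp k 2 μ), Λ ((memLp_one_of_two hk).toLp k) = ∫ x, k x * G0 x ∂μ := by
    intro k hk
    rw [← J_toLp hk]
    have h1 : Λ (J (hk.toLp k)) = ⟪g0, hk.toLp k⟫_ℂ := by
      rw [hg0, InnerProductSpace.toDual_symm_apply]
      rfl
    rw [h1, L2.inner_def]
    apply integral_congr_ae
    filter_upwards [hk.coeFn_toLp] with x hx
    rw [hx]
    simp only [hG0, RCLike.inner_apply]
  have hbd : ∀ᵐ x ∂μ, ‖G0 x‖ ≤ ‖Λ‖ := by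
    apply ae_le_of_forall_setIntegral_le
    · exact ((memLp_one_of_two hG0m).integrable le_rfl).norm
    · exact integrable_const _
    · intro s hs _
      set sg : α → ℂ := s.indicator (fun x => conj (G0 x) / ‖G0 x‖) with hsg
      have hsgb : ∀ x, ‖sg x‖ ≤ 1 := by
        intro x
        by_cases hx : x ∈ s
        · rw [hsg, indicator_of_mem hx, norm_div, RCLike.norm_conj, Complex.norm_real, norm_norm]
          exact div_self_le_one _
        · rw [hsg, indicator_of_notMem hx]; simp
      have hsgmeas : AEStronglyMeasurable sg μ := by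
        apply AEStronglyMeasurable.indicator _ hs
        have h1 : AEStronglyMeasurable G0 μ := hG0m.aestronglyMeasurable
        have h2 : AEMeasurable G0 μ := h1.aemeasurable
        exact ((Complex.continuous_conj.measurable.comp_aemeasurable h2).div
          (Complex.continuous_ofReal.measurable.comp_aemeasurable h2.norm)).aestronglyMeasurable
      have hsgm : MemLp sg 2 μ := MemLp.of_bound hsgmeas 1 (ae_of_all _ hsgb)
      have h1 := key sg hsgm
      have h2 : ∫ x, sg x * G0 x ∂μ = ((∫ x in s, ‖G0 x‖ ∂μ : ℝ) : ℂ) := by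
        rw [← integral_complex_ofReal, ← integral_indicator hs]
        apply integral_congr_ae
        filter_upwards with x
        by_cases hx : x ∈ s
        · rw [hsg, indicator_of_mem hx, indicator_of_mem hx]
          by_cases h0 : G0 x = 0
          · rw [h0]; simp
          · have h3 : (‖G0 x‖ : ℂ) ≠ 0 := by exact_mod_cast (norm_pos_iff.2 h0).ne'
            rw [div_mul_eq_mul_div, mul_comm, Complex.mul_conj, Complex.normSq_eq_norm_sq]
            push_cast
            field_simp
        · rw [hsg, indicator_of_notMem hx, indicator_of_notMem hx, zero_mul]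
      have h3 : ‖Λ ((memLp_one_of_two hsgm).toLp sg)‖ ≤ ‖Λ‖ * μ.real s := by
        refine (Λ.le_opNorm _).trans ?_
        apply mul_le_mul_of_nonneg_left _ (norm_nonneg _)
        rw [Lp.norm_toLp, measureReal_def]
        apply ENNReal.toReal_mono (measure_ne_top μ s)
        rw [eLpNorm_one_eq_lintegral_enorm]
        calc ∫⁻ x, ‖sg x‖ₑ ∂μ ≤ ∫⁻ x, s.indicator (fun _ => 1) x ∂μ := by
              apply lintegral_mono
              intro x
              by_cases hx : x ∈ s
              · simp only [indicator_of_mem hx]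
                rw [← enorm_one (G := ℝ)]
                rw [enorm_le_iff_norm_le, norm_one]
                exact hsgb x
              · simp only [hsg, indicator_of_notMem hx, enorm_zero, le_refl]
          _ = μ s := by rw [lintegral_indicator_const hs, one_mul]
      rw [h1, h2, Complex.norm_real, Real.norm_of_nonneg (integral_nonneg (fun _ => norm_nonneg _))] at h3
      rw [setIntegral_const, smul_eq_mul, mul_comm]
      exact h3
  obtain ⟨G1, hG1m, hG1⟩ := hG0m.aestronglyMeasurable.aemeasurable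
  set S : Set α := {x | ‖G1 x‖ ≤ ‖Λ‖} with hS
  have hSm : MeasurableSet S := measurableSet_le hG1m.norm measurable_const
  refine ⟨S.indicator G1, hG1m.indicator hSm, ?_, ?_⟩
  · intro x
    by_cases hx : x ∈ S
    · rw [indicator_of_mem hx]; exact hx
    · rw [indicator_of_notMem hx, norm_zero]; exact norm_nonneg _
  · intro k hk
    rw [key k hk]
    apply integral_congr_ae
    filter_upwards [hbd, hG1] with x h1 h2
    have hx : x ∈ S := by rw [hS, mem_ofPred_eq, ← h2]; exact h1
    rw [indicator_of_mem hx, h2]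

/-- If `f` is not in the L1-closure of the subspace `V` then a bounded function separates. -/
theorem exists_annihilator (V : Submodule ℂ (α → ℂ)) (hV : ∀ v ∈ V, MemLp v 2 μ) {f : α → ℂ}
    (hf : MemLp f 2 μ) {ε : ℝ} (hε : 0 < ε) (hd : ∀ v ∈ V, ε ≤ ∫ x, ‖f x - v x‖ ∂μ) :
    ∃ (G : α → ℂ) (M : ℝ), Measurable G ∧ (∀ x, ‖G x‖ ≤ M) ∧ (∀ v ∈ V, ∫ x, v x * G x ∂μ = 0) ∧
      ∫ x, f x * G x ∂μ ≠ 0 := by
  set S : Submodule ℂ (Lp ℂ 1 μ) :=
    { carrier := {F | ∃ (v : α → ℂ) (hv : v ∈ V), (memLp_one_of_two (hV v hv)).toLp v = F}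
      add_mem' := by
        rintro _ _ ⟨v, hv, rfl⟩ ⟨w, hw, rfl⟩
        exact ⟨v + w, V.add_mem hv hw, by rw [← MemLp.toLp_add]⟩
      zero_mem' := ⟨0, V.zero_mem, by rw [MemLp.toLp_zero]⟩
      smul_mem' := by
        rintro c _ ⟨v, hv, rfl⟩
        exact ⟨c • v, V.smul_mem c hv, by rw [← MemLp.toLp_const_smul]⟩ } with hS
  set f1 : Lp ℂ 1 μ := (memLp_one_of_two hf).toLp f with hf1
  have hnot : f1 ∉ closure (S : Set (Lp ℂ 1 μ)) := by
    intro hcl
    rw [Metric.mem_closure_iff] at hcl
    obtain ⟨F, ⟨v, hv, rfl⟩, hdist⟩ := hcl ε hε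
    have h1 := hd v hv
    have h2 : dist f1 ((memLp_one_of_two (hV v hv)).toLp v) = ∫ x, ‖f x - v x‖ ∂μ := by
      rw [dist_eq_norm, hf1, ← MemLp.toLp_sub, Lp.norm_toLp, eLpNorm_one_eq_lintegral_enorm,
        integral_norm_eq_lintegral_enorm]
      · rfl
      · exact ((memLp_one_of_two hf).sub (memLp_one_of_two (hV v hv))).aestronglyMeasurable
    linarith
  obtain ⟨Λ, u, h1, h2⟩ := RCLike.geometric_hahn_banach_point_closed (𝕜 := ℂ)
    (S.topologicalClosure.restrictScalars ℝ).convex S.isClosed_topologicalClosure hnot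
  have hzero : ∀ b ∈ S, Λ b = 0 := by
    intro b hb
    by_contra hne
    have hpos : 0 < ‖Λ b‖ ^ 2 := by positivity
    have hu : ∀ c : ℂ, u < (c * Λ b).re := by
      intro c
      have h3 := h2 (c • b) (subset_closure (S.smul_mem c hb))
      rw [map_smul, smul_eq_mul] at h3
      exact h3
    have h4 := hu ((-(|u| / ‖Λ b‖ ^ 2) : ℝ) * conj (Λ b))
    have h5 : (((-(|u| / ‖Λ b‖ ^ 2) : ℝ) : ℂ) * conj (Λ b) * Λ b).re = -|u| := by
      rw [mul_assoc, mul_comm (conj (Λ b)), Complex.mul_conj, Complex.normSq_eq_norm_sq,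
        ← Complex.ofReal_mul, Complex.ofReal_re]
      field_simp
    rw [h5] at h4
    have := neg_abs_le u
    linarith
  have hΛf : Λ f1 ≠ 0 := by
    intro h3
    rw [h3] at h1
    have h4 := h2 0 (subset_closure S.zero_mem)
    rw [map_zero] at h4
    linarith
  obtain ⟨G, hG1, hG2, hG3⟩ := repr Λ
  refine ⟨G, ‖Λ‖, hG1, hG2, ?_, ?_⟩
  · intro v hv
    rw [← hG3 v (hV v hv)]
    exact hzero _ ⟨v, hv, rfl⟩
  · rw [← hG3 f hf]
    exact hΛf

end Pool.Agent.Helper523.LL
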