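import Mathlib

set_option autoImplicit false

open MeasureTheory Set Filter Metric Topology Complex

namespace Pool.Agent.Helper523.LL

/-- the d-bar derivative -/
noncomputable def dbar (ψ : ℂ → ℂ) (ζ : ℂ) : ℂ := (1 / 2) * (fderiv ℝ ψ ζ 1 + I * fderiv ℝ ψ ζ I)

theorem lin_eq (L : ℂ →L[ℝ] ℂ) (v : ℂ) : L v = (v.re : ℂ) * L 1 + (v.im : ℂ) * L I := by
  have h : v = v.re • (1 : ℂ) + v.im • I := by
    simp
  conv_lhs => rw [h]
  rw [map_add, map_smul, map_smul, real_smul, real_smul]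

theorem lin_polar (L : ℂ →L[ℝ] ℂ) (v : ℂ) :
    L v + I * L (I * v) = (starRingEnd ℂ) v * (L 1 + I * L I) := by
  rw [lin_eq L v, lin_eq L (I * v)]
  have h1 : (I * v).re = -v.im := by simp
  have h2 : (I * v).im = v.re := by simp
  have h3 : (starRingEnd ℂ) v = (v.re : ℂ) - (v.im : ℂ) * I := by
    apply Complex.ext <;> simp
  rw [h1, h2, h3]
  push_cast
  linear_combination ((v.im : ℂ) * L I) * I_sq

section
variable {ψ : ℂ → ℂ}

theorem A_integral (h : ContDiff ℝ 1 ψ) {R : ℝ} (hR : 0 < R) (hs : ∀ z, R ≤ ‖z‖ → ψ z = 0) (θ : ℝ) :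
    ∫ r in Ioo 0 R, fderiv ℝ ψ (r * exp (θ * I)) (exp (θ * I)) = - ψ 0 := by
  have hd : ∀ r : ℝ, HasDerivAt (fun r : ℝ => ψ (r * exp (θ * I)))
      (fderiv ℝ ψ (r * exp (θ * I)) (exp (θ * I))) r := by
    intro r
    have h1 : HasDerivAt (fun r : ℝ => (r : ℂ) * exp (θ * I)) (exp (θ * I)) r := by
      have := (Complex.ofRealCLM.hasDerivAt (x := r)).mul_const (exp (θ * I))
      simpa using this
    have h2 : HasFDerivAt ψ (fderiv ℝ ψ (r * exp (θ * I))) (r * exp (θ * I)) :=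
      ((h.differentiable (by norm_num)) _).hasFDerivAt
    exact h2.comp_hasDerivAt r h1
  have hcont : Continuous (fun r : ℝ => fderiv ℝ ψ (r * exp (θ * I)) (exp (θ * I))) := by
    have h3 : Continuous (fderiv ℝ ψ) := h.continuous_fderiv (by norm_num)
    exact (h3.comp (by fun_prop)).clm_apply continuous_const
  rw [← integral_Ioc_eq_integral_Ioo, ← intervalIntegral.integral_of_le hR.le,
    intervalIntegral.integral_eq_sub_of_hasDerivAt (fun r _ => hd r) (hcont.intervalIntegrable _ _)]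
  rw [hs (R * exp (θ * I)) (by rw [norm_mul, norm_exp_ofReal_mul_I, norm_real, Real.norm_of_nonneg hR.le, mul_one])]
  simp

theorem B_integral (h : ContDiff ℝ 1 ψ) {r : ℝ} (hr : 0 < r) :
    ∫ θ in Ioo (-Real.pi) Real.pi, fderiv ℝ ψ (r * exp (θ * I)) (I * exp (θ * I)) = 0 := by
  have hd : ∀ θ : ℝ, HasDerivAt (fun θ : ℝ => ψ (r * exp (θ * I)))
      (r * fderiv ℝ ψ (r * exp (θ * I)) (I * exp (θ * I))) θ := by
    intro θ
    have h1 : HasDerivAt (fun θ : ℝ => (r : ℂ) * exp (θ * I)) (r * (I * exp (θ * I))) θ := by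
      have h0 : HasDerivAt (fun θ : ℝ => (θ : ℂ) * I) I θ := by
        have := (Complex.ofRealCLM.hasDerivAt (x := θ)).mul_const I
        simpa using this
      have := (h0.cexp).const_mul (r : ℂ)
      refine this.congr_deriv ?_
      ring
    have h2 : HasFDerivAt ψ (fderiv ℝ ψ (r * exp (θ * I))) (r * exp (θ * I)) :=
      ((h.differentiable (by norm_num)) _).hasFDerivAt
    have h3 := h2.comp_hasDerivAt θ h1
    refine h3.congr_deriv ?_
    have : (r : ℂ) * (I * exp (θ * I)) = r • (I * exp (θ * I)) := by rw [real_smul]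
    rw [this, map_smul, real_smul]
  have hcont : Continuous (fun θ : ℝ => fderiv ℝ ψ (r * exp (θ * I)) (I * exp (θ * I))) := by
    have h3 : Continuous (fderiv ℝ ψ) := h.continuous_fderiv (by norm_num)
    exact (h3.comp (by fun_prop)).clm_apply (by fun_prop)
  have h4 : ∫ θ in (-Real.pi)..Real.pi, (r : ℂ) * fderiv ℝ ψ (r * exp (θ * I)) (I * exp (θ * I)) = 0 := by
    rw [intervalIntegral.integral_eq_sub_of_hasDerivAt (fun r _ => hd r)
      ((continuous_const.mul hcont).intervalIntegrable _ _)]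
    have : exp (((-Real.pi : ℝ) : ℂ) * I) = exp ((Real.pi : ℂ) * I) := by
      rw [exp_pi_mul_I]
      push_cast
      rw [neg_mul, exp_neg, exp_pi_mul_I]
      norm_num
    rw [this, sub_self]
  rw [intervalIntegral.integral_const_mul] at h4
  rw [← integral_Ioc_eq_integral_Ioo, ← intervalIntegral.integral_of_le (by linarith [Real.pi_pos])]
  rcases mul_eq_zero.1 h4 with h5 | h5
  · exfalso
    exact hr.ne' (by exact_mod_cast h5)
  · exact h5

theorem pompeiu_zero (h : ContDiff ℝ 1 ψ) (hc : HasCompactSupport ψ) :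
    ∫ ζ, dbar ψ ζ * ζ⁻¹ = -Real.pi * ψ 0 := by
  obtain ⟨R, hR, hs⟩ : ∃ R : ℝ, 0 < R ∧ ∀ z, R ≤ ‖z‖ → z ∉ tsupport ψ := by
    obtain ⟨R, hR, h1⟩ := hc.isCompact.isBounded.exists_pos_norm_lt
    exact ⟨R, hR, fun z hz hz' => absurd (h1 z hz') (not_lt.2 hz)⟩
  have hs0 : ∀ z, R ≤ ‖z‖ → ψ z = 0 := fun z hz => image_eq_zero_of_notMem_tsupport (hs z hz)
  have hsd : ∀ z, R ≤ ‖z‖ → fderiv ℝ ψ z = 0 := by
    intro z hz
    have h1 : z ∉ tsupport (fderiv ℝ ψ) := fun h2 => hs z hz (tsupport_fderiv_subset ℝ h2)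
    exact image_eq_zero_of_notMem_tsupport h1
  have hcf : Continuous (fderiv ℝ ψ) := h.continuous_fderiv (by norm_num)
  set A : ℝ × ℝ → ℂ := fun p => fderiv ℝ ψ (p.1 * exp (p.2 * I)) (exp (p.2 * I)) with hA
  set B : ℝ × ℝ → ℂ := fun p => fderiv ℝ ψ (p.1 * exp (p.2 * I)) (I * exp (p.2 * I)) with hB
  have hAc : Continuous A := (hcf.comp (by fun_prop)).clm_apply (by fun_prop)
  have hBc : Continuous B := (hcf.comp (by fun_prop)).clm_apply (by fun_prop)
  set S : Set (ℝ × ℝ) := Ioo (0:ℝ) R ×ˢ Ioo (-Real.pi) Real.pi with hS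
  have hint : ∀ g : ℝ × ℝ → ℂ, Continuous g → IntegrableOn g S (volume.prod volume) := by
    intro g hg
    have h1 : IntegrableOn g (Icc (0:ℝ) R ×ˢ Icc (-Real.pi) Real.pi) (volume.prod volume) :=
      hg.continuousOn.integrableOn_compact (isCompact_Icc.prod isCompact_Icc)
    exact h1.mono_set (prod_mono Ioo_subset_Icc_self Ioo_subset_Icc_self)
  have e1 : ∫ ζ, dbar ψ ζ * ζ⁻¹ = ∫ p in polarCoord.target, (1 / 2) * (A p + I * B p) := by
    rw [← Complex.integral_comp_polarCoord_symm]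
    apply MeasureTheory.setIntegral_congr_fun polarCoord.open_target.measurableSet
    intro p hp
    rw [polarCoord_target] at hp
    have hp1 : (0 : ℝ) < p.1 := hp.1
    have hp1' : (p.1 : ℂ) ≠ 0 := by exact_mod_cast hp1.ne'
    simp only [hA, hB]
    have e : Complex.polarCoord.symm p = (p.1 : ℂ) * exp (p.2 * I) := by
      rw [Complex.polarCoord_symm_apply, exp_mul_I, ofReal_cos, ofReal_sin]
    rw [e, real_smul, lin_polar, dbar]
    have h5 : (starRingEnd ℂ) (exp (p.2 * I)) = (exp (p.2 * I))⁻¹ := by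
      rw [← exp_conj, ← exp_neg]
      congr 1
      simp
    rw [h5]
    field_simp
  have e2 : ∫ p in polarCoord.target, (1 / 2) * (A p + I * B p) = ∫ p in S, (1 / 2) * (A p + I * B p) := by
    apply MeasureTheory.setIntegral_eq_of_subset_of_forall_sdiff_eq_zero polarCoord.open_target.measurableSet
    · rw [polarCoord_target]
      exact prod_mono Ioo_subset_Ioi_self Subset.rfl
    · rintro ⟨r, θ⟩ ⟨h1, h2⟩
      rw [polarCoord_target] at h1
      have hr : R ≤ r := by
        by_contra hlt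
        push Not at hlt
        exact h2 ⟨⟨h1.1, hlt⟩, h1.2⟩
      simp only [hA, hB]
      rw [hsd _ (by rw [norm_mul, norm_exp_ofReal_mul_I, norm_real, Real.norm_of_nonneg (hR.le.trans hr), mul_one]; exact hr)]
      simp
  have e3 : ∫ p in S, A p = -(2 * Real.pi) * ψ 0 := by
    have h1 : ∫ p in S, A p = ∫ r in Ioo (0:ℝ) R, ∫ θ in Ioo (-Real.pi) Real.pi, A (r, θ) :=
      setIntegral_prod A (hint A hAc)
    rw [h1]
    have h2 : ∫ r in Ioo (0:ℝ) R, ∫ θ in Ioo (-Real.pi) Real.pi, A (r, θ) =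
        ∫ θ in Ioo (-Real.pi) Real.pi, ∫ r in Ioo (0:ℝ) R, A (r, θ) := by
      apply integral_integral_swap
      have := hint A hAc
      rw [IntegrableOn, hS, ← Measure.prod_restrict] at this
      exact this
    rw [h2]
    have h3 : ∀ θ : ℝ, ∫ r in Ioo (0:ℝ) R, A (r, θ) = -ψ 0 := fun θ => A_integral h hR hs0 θ
    simp only [h3]
    rw [setIntegral_const, measureReal_def, Real.volume_Ioo, ENNReal.toReal_ofReal (by linarith [Real.pi_pos]), real_smul]
    push_cast
    ring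
  have e4 : ∫ p in S, B p = 0 := by
    have h1 : ∫ p in S, B p = ∫ r in Ioo (0:ℝ) R, ∫ θ in Ioo (-Real.pi) Real.pi, B (r, θ) :=
      setIntegral_prod B (hint B hBc)
    rw [h1]
    apply setIntegral_eq_zero_of_forall_eq_zero
    intro r hr
    exact B_integral h hr.1
  have e5 : ∫ p in S, (A p + I * B p) = (∫ p in S, A p) + ∫ p in S, I * B p :=
    integral_add (hint A hAc) ((hint B hBc).const_mul I)
  rw [e1, e2, integral_const_mul, e5, integral_const_mul, e3, e4]
  ring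

theorem pompeiu (h : ContDiff ℝ 1 ψ) (hc : HasCompactSupport ψ) (z : ℂ) :
    ∫ ζ, dbar ψ ζ * (ζ - z)⁻¹ = -Real.pi * ψ z := by
  set ψ' : ℂ → ℂ := fun ζ => ψ (ζ + z) with hψ'
  have h1 : ContDiff ℝ 1 ψ' := h.comp (contDiff_id.add contDiff_const)
  have h2 : HasCompactSupport ψ' := hc.comp_homeomorph (Homeomorph.addRight z)
  have h3 := pompeiu_zero h1 h2
  have h4 : ∀ ζ, dbar ψ' ζ = dbar ψ (ζ + z) := by
    intro ζ
    unfold dbar
    rw [hψ', fderiv_comp_add_right]
  have h5 : ψ' 0 = ψ z := by simp [hψ']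
  rw [h5] at h3
  rw [← h3, ← integral_add_right_eq_self _ z]
  congr 1
  funext ζ
  rw [h4, add_sub_cancel_right]

end

end Pool.Agent.Helper523.LL
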