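import Pool.Agent.Helper523.LL.Dil
import Pool.Agent.Helper523.LL.Cauchy
import Pool.Agent.Helper523.LL.Pompeiu

set_option autoImplicit false

open Set Filter Metric Topology Complex MeasureTheory

namespace Pool.Agent.Helper523.LL

/-- antisymmetry of the Cauchy transform -/
theorem swap {u v : ℂ → ℂ} {M N : ℝ} (hu : Adm u M) (hv : Adm v N) :
    ∫ z, u z * T v z = - ∫ ζ, v ζ * T u ζ := by
  have hmeas : Measurable (Function.uncurry fun z ζ : ℂ => u z * (v ζ * (ζ - z)⁻¹)) := by
    have h1 : Measurable fun p : ℂ × ℂ => u p.1 := hu.meas.comp measurable_fst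
    have h2 : Measurable fun p : ℂ × ℂ => v p.2 := hv.meas.comp measurable_snd
    have h3 : Measurable fun p : ℂ × ℂ => (p.2 - p.1)⁻¹ := (measurable_snd.sub measurable_fst).inv
    exact h1.mul (h2.mul h3)
  have hint : Integrable (Function.uncurry fun z ζ : ℂ => u z * (v ζ * (ζ - z)⁻¹))
      ((volume : Measure ℂ).prod volume) := by
    rw [integrable_prod_iff hmeas.aestronglyMeasurable]
    constructor
    · filter_upwards with z
      exact (hv.integrable z).const_mul (u z)
    · have hb : ∀ z : ℂ, ∫ ζ, ‖u z * (v ζ * (ζ - z)⁻¹)‖ ≤ ‖u z‖ * (N * C0) := by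
        intro z
        have e : (fun ζ => ‖u z * (v ζ * (ζ - z)⁻¹)‖) = fun ζ => ‖u z‖ * ‖v ζ * (ζ - z)⁻¹‖ := by
          funext ζ; rw [norm_mul]
        rw [e, integral_const_mul]
        apply mul_le_mul_of_nonneg_left _ (norm_nonneg _)
        calc ∫ ζ, ‖v ζ * (ζ - z)⁻¹‖
            ≤ ∫ ζ, N * (ball (0 : ℂ) 1).indicator (fun ζ : ℂ => ‖ζ - z‖⁻¹) ζ :=
              integral_mono (hv.integrable z).norm ((kern_integrable z).const_mul N) (hv.norm_le z)
          _ = N * ∫ ζ, (ball (0 : ℂ) 1).indicator (fun ζ : ℂ => ‖ζ - z‖⁻¹) ζ := integral_const_mul _ _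
          _ ≤ N * C0 := mul_le_mul_of_nonneg_left (kern_integral_le z) hv.nonneg
      apply (hu.integrable_self.norm.mul_const (N * C0)).mono'
      · exact hmeas.norm.stronglyMeasurable.integral_prod_right.aestronglyMeasurable
      · filter_upwards with z
        rw [Real.norm_of_nonneg (integral_nonneg (fun _ => norm_nonneg _))]
        exact hb z
  have e1 : ∫ z, u z * T v z = ∫ z, ∫ ζ, u z * (v ζ * (ζ - z)⁻¹) := by
    congr 1
    funext z
    rw [integral_const_mul]
    rfl
  rw [e1, integral_integral_swap hint, ← integral_neg]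
  congr 1
  funext ζ
  unfold T
  rw [← integral_const_mul, ← integral_neg]
  congr 1
  funext z
  have : (ζ - z)⁻¹ = -(z - ζ)⁻¹ := by
    rw [← neg_sub, inv_neg]
  rw [this]
  ring

theorem smooth_deriv_bound : ∃ C : ℝ, 0 ≤ C ∧ ∀ x, |deriv Real.smoothTransition x| ≤ C := by
  have hc : Continuous (deriv Real.smoothTransition) :=
    (Real.smoothTransition.contDiff (n := 1)).continuous_deriv le_rfl
  obtain ⟨C, hC⟩ := isCompact_Icc.exists_bound_of_continuousOn (hc.continuousOn (s := Icc (0:ℝ) 1))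
  have hC0 : 0 ≤ C := (norm_nonneg _).trans (hC 0 (by simp))
  refine ⟨C, hC0, fun x => ?_⟩
  rcases lt_or_ge x 0 with h | h
  · have : Real.smoothTransition =ᶠ[𝓝 x] fun _ => 0 := by
      filter_upwards [gt_mem_nhds h] with y hy
      exact Real.smoothTransition.zero_of_nonpos hy.le
    rw [this.deriv_eq]; simpa using hC0
  · rcases le_or_gt x 1 with h' | h'
    · exact hC x ⟨h, h'⟩
    · have : Real.smoothTransition =ᶠ[𝓝 x] fun _ => 1 := by
        filter_upwards [lt_mem_nhds h'] with y hy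
        exact Real.smoothTransition.one_of_one_le hy.le
      rw [this.deriv_eq]; simpa using hC0

theorem smooth_deriv_zero_neg {x : ℝ} (h : x < 0) : deriv Real.smoothTransition x = 0 := by
  have : Real.smoothTransition =ᶠ[𝓝 x] fun _ => 0 := by
    filter_upwards [gt_mem_nhds h] with y hy
    exact Real.smoothTransition.zero_of_nonpos hy.le
  rw [this.deriv_eq]; simp

theorem smooth_deriv_zero_big {x : ℝ} (h : 1 < x) : deriv Real.smoothTransition x = 0 := by
  have : Real.smoothTransition =ᶠ[𝓝 x] fun _ => 1 := by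
    filter_upwards [lt_mem_nhds h] with y hy
    exact Real.smoothTransition.one_of_one_le hy.le
  rw [this.deriv_eq]; simp

/-- `dbar` of a product of a holomorphic function and a real cut-off -/
theorem dbar_mul_le {F φ : ℂ → ℂ} {z : ℂ} (hF : DifferentiableAt ℂ F z) (hφ : DifferentiableAt ℂ φ z)
    (hφ1 : ‖φ z‖ ≤ 1) (n : ℝ) (hn : 0 ≤ n) :
    ‖dbar (fun z => F z * (Real.smoothTransition (n * (1 - ‖φ z‖ ^ 2) - 1) : ℂ)) z‖ ≤
      2 * n * ‖F z‖ * |deriv Real.smoothTransition (n * (1 - ‖φ z‖ ^ 2) - 1)| * ‖deriv φ z‖ := by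
  set x0 : ℝ := n * (1 - ‖φ z‖ ^ 2) - 1 with hx0
  set s' := deriv Real.smoothTransition x0 with hs'
  have hFr : HasFDerivAt F ((ContinuousLinearMap.toSpanSingleton ℂ (deriv F z)).restrictScalars ℝ) z :=
    (hF.hasDerivAt.hasFDerivAt).restrictScalars ℝ
  set A : ℂ →L[ℝ] ℂ := (ContinuousLinearMap.toSpanSingleton ℂ (deriv φ z)).restrictScalars ℝ with hA
  have hφr : HasFDerivAt φ A z := (hφ.hasDerivAt.hasFDerivAt).restrictScalars ℝ
  set B : ℂ →L[ℝ] ℝ := (innerSL ℝ (φ z)).comp A with hB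
  have hn2 : HasFDerivAt (fun x => ‖φ x‖ ^ 2) ((2:ℕ) • B) z := hφr.norm_sq
  have hρ : HasFDerivAt (fun z => n * (1 - ‖φ z‖ ^ 2) - 1) (n • -((2:ℕ) • B)) z :=
    ((hn2.const_sub 1).const_mul n).sub_const 1
  have hst : HasDerivAt Real.smoothTransition s' x0 :=
    ((Real.smoothTransition.contDiff (n := 1)).differentiable (by norm_num) x0).hasDerivAt
  have hχ : HasFDerivAt (fun z => Real.smoothTransition (n * (1 - ‖φ z‖ ^ 2) - 1))
      (s' • (n • -((2:ℕ) • B))) z := by
    have hst' : HasDerivAt Real.smoothTransition s' ((fun z => n * (1 - ‖φ z‖ ^ 2) - 1) z) := hst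
    exact hst'.comp_hasFDerivAt z hρ
  have hχc : HasFDerivAt (fun z => (Real.smoothTransition (n * (1 - ‖φ z‖ ^ 2) - 1) : ℂ))
      (ofRealCLM.comp (s' • (n • -((2:ℕ) • B)))) z :=
    ofRealCLM.hasFDerivAt.comp z hχ
  have hprod := hFr.mul hχc
  have hval : ∀ v : ℂ, fderiv ℝ (fun z => F z * (Real.smoothTransition (n * (1 - ‖φ z‖ ^ 2) - 1) : ℂ)) z v =
      F z * ((s' * (n * -(2 * ((starRingEnd ℂ) (φ z) * (v * deriv φ z)).re)) : ℝ) : ℂ) +
        (Real.smoothTransition x0 : ℂ) * (v * deriv F z) := by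
    intro v
    have h1 : fderiv ℝ (fun z => F z * (Real.smoothTransition (n * (1 - ‖φ z‖ ^ 2) - 1) : ℂ)) z = _ := hprod.fderiv
    rw [h1]
    simp only [_root_.add_apply, _root_.smul_apply, smul_eq_mul,
      ContinuousLinearMap.comp_apply, ContinuousLinearMap.coe_restrictScalars', hA, hB,
      ContinuousLinearMap.toSpanSingleton_apply, _root_.neg_apply, innerSL_apply_apply,
      ofRealCLM_apply, nsmul_eq_mul, Complex.inner]
    rw [mul_comm (v * deriv φ z)]
    push_cast
    rfl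
  have hd : dbar (fun z => F z * (Real.smoothTransition (n * (1 - ‖φ z‖ ^ 2) - 1) : ℂ)) z =
      - (s' * n : ℝ) * F z * ((((starRingEnd ℂ) (φ z) * deriv φ z).re : ℂ) +
        I * (((starRingEnd ℂ) (φ z) * (I * deriv φ z)).re : ℂ)) := by
    unfold dbar
    rw [hval 1, hval I]
    push_cast
    rw [one_mul]
    linear_combination (1 / 2 * (Real.smoothTransition x0 : ℂ) * deriv F z) * I_sq
  rw [hd, norm_mul, norm_mul, norm_neg, norm_real, norm_mul, Real.norm_eq_abs, Real.norm_eq_abs,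
    abs_of_nonneg hn]
  have h1 : ‖(((starRingEnd ℂ) (φ z) * deriv φ z).re : ℂ)‖ ≤ ‖deriv φ z‖ := by
    rw [norm_real, Real.norm_eq_abs]
    refine (Complex.abs_re_le_norm _).trans ?_
    rw [norm_mul, RCLike.norm_conj]
    nlinarith [norm_nonneg (deriv φ z)]
  have h2 : ‖I * (((starRingEnd ℂ) (φ z) * (I * deriv φ z)).re : ℂ)‖ ≤ ‖deriv φ z‖ := by
    rw [norm_mul, norm_I, one_mul, norm_real, Real.norm_eq_abs]
    refine (Complex.abs_re_le_norm _).trans ?_
    rw [norm_mul, RCLike.norm_conj, norm_mul, norm_I, one_mul]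
    nlinarith [norm_nonneg (deriv φ z)]
  have h3 := norm_add_le (((starRingEnd ℂ) (φ z) * deriv φ z).re : ℂ)
    (I * (((starRingEnd ℂ) (φ z) * (I * deriv φ z)).re : ℂ))
  calc |s'| * n * ‖F z‖ * ‖(((starRingEnd ℂ) (φ z) * deriv φ z).re : ℂ) +
        I * (((starRingEnd ℂ) (φ z) * (I * deriv φ z)).re : ℂ)‖
      ≤ |s'| * n * ‖F z‖ * (‖deriv φ z‖ + ‖deriv φ z‖) := by
        apply mul_le_mul_of_nonneg_left _ (by positivity)
        linarith
    _ = 2 * n * ‖F z‖ * |s'| * ‖deriv φ z‖ := by ring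

namespace SD
variable {Ω : Set ℂ} {g φ : ℂ → ℂ}

/-- cut-off function times `F` -/
noncomputable def cut (Ω : Set ℂ) (φ F : ℂ → ℂ) (n : ℝ) : ℂ → ℂ :=
  Ω.indicator (fun z => F z * (Real.smoothTransition (n * (1 - ‖φ z‖ ^ 2) - 1) : ℂ))

theorem cut_compact (h : SD Ω g φ) (F : ℂ → ℂ) {n : ℝ} (hn : 1 < n) :
    ∃ K : Set ℂ, IsCompact K ∧ K ⊆ Ω ∧ ∀ z, z ∉ K → cut Ω φ F n z = 0 := by
  have hn0 : 0 < n := by linarith
  have hq : 0 ≤ 1 - 1 / n := by
    rw [sub_nonneg, div_le_one hn0]; exact hn.le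
  set ρ := Real.sqrt (1 - 1 / n) with hρ
  have hρ1 : ρ < 1 := by
    rw [hρ, Real.sqrt_lt' one_pos]
    have : 0 < 1 / n := by positivity
    linarith
  refine ⟨g '' closedBall 0 ρ, (isCompact_closedBall _ _).image_of_continuousOn
      (h.gd.continuousOn.mono (closedBall_subset_ball hρ1)), ?_, ?_⟩
  · rintro _ ⟨ζ, hζ, rfl⟩
    exact h.gm (closedBall_subset_ball hρ1 hζ)
  · intro z hz
    unfold cut
    by_cases hzΩ : z ∈ Ω
    · rw [indicator_of_mem hzΩ]
      have h1 : ρ < ‖φ z‖ := by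
        by_contra hcon
        push Not at hcon
        exact hz ⟨φ z, by simpa using hcon, h.gφ z hzΩ⟩
      have h2 : 1 - 1 / n < ‖φ z‖ ^ 2 := by
        rw [hρ, Real.sqrt_lt' ((Real.sqrt_nonneg _).trans_lt h1)] at h1
        exact h1
      rw [Real.smoothTransition.zero_of_nonpos, ofReal_zero, mul_zero]
      have h3 : n * (1 - ‖φ z‖ ^ 2) ≤ n * (1 / n) := mul_le_mul_of_nonneg_left (by linarith) hn0.le
      rw [mul_one_div_cancel hn0.ne'] at h3
      linarith
    · rw [indicator_of_notMem hzΩ]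

theorem cut_support (h : SD Ω g φ) (F : ℂ → ℂ) {n : ℝ} (hn : 1 < n) {z : ℂ} (hz : z ∉ Ω) :
    cut Ω φ F n =ᶠ[𝓝 z] fun _ => 0 := by
  obtain ⟨K, hK1, hK2, hK3⟩ := h.cut_compact F hn
  filter_upwards [hK1.isClosed.isOpen_compl.mem_nhds (fun hzK => hz (hK2 hzK))] with y hy
  exact hK3 y hy

theorem cut_contDiff (h : SD Ω g φ) {F : ℂ → ℂ} (hF : DifferentiableOn ℂ F Ω) {n : ℝ} (hn : 1 < n) :
    ContDiff ℝ 1 (cut Ω φ F n) := by
  rw [contDiff_iff_contDiffAt]
  intro z
  by_cases hz : z ∈ Ω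
  · have h1 : ContDiffAt ℝ 1 F z :=
      ((hF.analyticAt (h.isOpen.mem_nhds hz)).contDiffAt).restrict_scalars ℝ
    have h2 : ContDiffAt ℝ 1 φ z :=
      ((h.φd.analyticAt (h.isOpen.mem_nhds hz)).contDiffAt).restrict_scalars ℝ
    have h3 : ContDiffAt ℝ 1 (fun z => F z * (Real.smoothTransition (n * (1 - ‖φ z‖ ^ 2) - 1) : ℂ)) z := by
      apply h1.mul
      have h4 : ContDiffAt ℝ 1 (fun z => n * (1 - ‖φ z‖ ^ 2) - 1) z :=
        (contDiffAt_const.mul (contDiffAt_const.sub (h2.norm_sq ℝ))).sub contDiffAt_const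
      have h5 : ContDiffAt ℝ 1 (fun z => Real.smoothTransition (n * (1 - ‖φ z‖ ^ 2) - 1)) z :=
        ContDiffAt.comp z (Real.smoothTransition.contDiff (n := 1)).contDiffAt h4
      exact ContDiffAt.comp z ofRealCLM.contDiff.contDiffAt h5
    apply h3.congr_of_eventuallyEq
    filter_upwards [h.isOpen.mem_nhds hz] with y hy
    unfold cut
    rw [indicator_of_mem hy]
  · exact contDiffAt_const.congr_of_eventuallyEq (h.cut_support F hn hz)

theorem dbar_cut_out (h : SD Ω g φ) (F : ℂ → ℂ) {n : ℝ} (hn : 1 < n) {z : ℂ} (hz : z ∉ Ω) :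
    dbar (cut Ω φ F n) z = 0 := by
  unfold dbar
  rw [(h.cut_support F hn hz).fderiv_eq]
  simp

theorem dbar_cut_le (h : SD Ω g φ) {F : ℂ → ℂ} (hF : DifferentiableOn ℂ F Ω) {n : ℝ} (hn : 1 < n)
    {z : ℂ} (hz : z ∈ Ω) :
    ‖dbar (cut Ω φ F n) z‖ ≤
      2 * n * ‖F z‖ * |deriv Real.smoothTransition (n * (1 - ‖φ z‖ ^ 2) - 1)| * ‖deriv φ z‖ := by
  have e : cut Ω φ F n =ᶠ[𝓝 z] fun z => F z * (Real.smoothTransition (n * (1 - ‖φ z‖ ^ 2) - 1) : ℂ) := by
    filter_upwards [h.isOpen.mem_nhds hz] with y hy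
    unfold cut
    rw [indicator_of_mem hy]
  have e2 : dbar (cut Ω φ F n) z =
      dbar (fun z => F z * (Real.smoothTransition (n * (1 - ‖φ z‖ ^ 2) - 1) : ℂ)) z := by
    unfold dbar
    rw [e.fderiv_eq]
  rw [e2]
  exact dbar_mul_le (hF.differentiableAt (h.isOpen.mem_nhds hz))
    (h.φd.differentiableAt (h.isOpen.mem_nhds hz)) (h.norm_phi_lt hz).le n (by linarith)

theorem cut_adm (h : SD Ω g φ) {F : ℂ → ℂ} (hF : DifferentiableOn ℂ F Ω) {n : ℝ} (hn : 1 < n) :
    ∃ N, Adm (dbar (cut Ω φ F n)) N := by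
  obtain ⟨K, hK1, hK2, hK3⟩ := h.cut_compact F hn
  have hcd := h.cut_contDiff hF hn
  have hcs : HasCompactSupport (cut Ω φ F n) := HasCompactSupport.intro hK1 hK3
  have hc : Continuous (dbar (cut Ω φ F n)) := by
    have h1 : Continuous (fderiv ℝ (cut Ω φ F n)) := hcd.continuous_fderiv (by norm_num)
    unfold dbar
    fun_prop
  have hcs' : HasCompactSupport (dbar (cut Ω φ F n)) := by
    apply HasCompactSupport.intro hK1
    intro z hz
    have : cut Ω φ F n =ᶠ[𝓝 z] fun _ => 0 := by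
      filter_upwards [hK1.isClosed.isOpen_compl.mem_nhds hz] with y hy
      exact hK3 y hy
    unfold dbar
    rw [this.fderiv_eq]
    simp
  obtain ⟨N, hN⟩ := hcs'.exists_bound_of_continuous hc
  refine ⟨N, hc.measurable, hN, ?_⟩
  intro ζ hζ
  exact h.dbar_cut_out F hn (fun hζ' => hζ (h.sub hζ'))

/-- Green's formula: bounded holomorphic functions are annihilated. -/
theorem green (h : SD Ω g φ) {u : ℂ → ℂ} {M : ℝ} (hu : Adm u M) (hu0 : ∀ z, z ∉ Ω → u z = 0)
    {L : ℝ} (hL : 0 < L) (hT : ∀ z v, v ∉ Ω → ‖T u z‖ ≤ L * ‖z - v‖)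
    {F : ℂ → ℂ} (hF : DifferentiableOn ℂ F Ω) {C : ℝ} (hC : ∀ z ∈ Ω, ‖F z‖ ≤ C) :
    ∫ z, u z * F z = 0 := by
  have hC0 : 0 ≤ C := (norm_nonneg _).trans (hC 0 h.zero_mem)
  obtain ⟨Cs, hCs0, hCs⟩ := smooth_deriv_bound
  set nn : ℕ → ℝ := fun n => (n : ℝ) + 2 with hnn
  have hnn1 : ∀ n, 1 < nn n := fun n => by
    have : (0:ℝ) ≤ n := by positivity
    simp only [hnn]; linarith
  -- the identity
  have hid : ∀ n, ∫ z, u z * cut Ω φ F (nn n) z =
      (Real.pi : ℂ)⁻¹ * ∫ ζ, dbar (cut Ω φ F (nn n)) ζ * T u ζ := by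
    intro n
    obtain ⟨K, hK1, hK2, hK3⟩ := h.cut_compact F (hnn1 n)
    have hcs : HasCompactSupport (cut Ω φ F (nn n)) := HasCompactSupport.intro hK1 hK3
    obtain ⟨N, hN⟩ := h.cut_adm hF (hnn1 n)
    have hp : ∀ z, T (dbar (cut Ω φ F (nn n))) z = -Real.pi * cut Ω φ F (nn n) z :=
      fun z => pompeiu (h.cut_contDiff hF (hnn1 n)) hcs z
    have hs := swap hu hN
    have e1 : (fun z => u z * T (dbar (cut Ω φ F (nn n))) z) =
        fun z => -(Real.pi : ℂ) * (u z * cut Ω φ F (nn n) z) := by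
      funext z
      rw [hp z]; ring
    rw [e1, integral_const_mul] at hs
    have hpi : (Real.pi : ℂ) ≠ 0 := by exact_mod_cast Real.pi_ne_zero
    field_simp
    linear_combination -hs
  -- limit of the left-hand side
  have hl : Tendsto (fun n => ∫ z, u z * cut Ω φ F (nn n) z) atTop (𝓝 (∫ z, u z * F z)) := by
    apply tendsto_integral_of_dominated_convergence (fun z => ‖u z‖ * C)
    · intro n
      exact (hu.meas.aestronglyMeasurable.mul (h.cut_contDiff hF (hnn1 n)).continuous.aestronglyMeasurable)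
    · exact hu.integrable_self.norm.mul_const C
    · intro n
      filter_upwards with z
      rw [norm_mul]
      by_cases hz : z ∈ Ω
      · apply mul_le_mul_of_nonneg_left _ (norm_nonneg _)
        unfold cut
        rw [indicator_of_mem hz, norm_mul, norm_real, Real.norm_of_nonneg (Real.smoothTransition.nonneg _)]
        have h1 := Real.smoothTransition.le_one (nn n * (1 - ‖φ z‖ ^ 2) - 1)
        have h2 := Real.smoothTransition.nonneg (nn n * (1 - ‖φ z‖ ^ 2) - 1)
        have h3 := hC z hz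
        nlinarith [norm_nonneg (F z)]
      · rw [hu0 z hz]; simp
    · filter_upwards with z
      by_cases hz : z ∈ Ω
      · apply Tendsto.const_mul
        apply tendsto_const_nhds.congr'
        have hpos : 0 < 1 - ‖φ z‖ ^ 2 := by
          have := h.norm_phi_lt hz
          nlinarith [norm_nonneg (φ z)]
        have h4 : Tendsto (fun n : ℕ => nn n * (1 - ‖φ z‖ ^ 2)) atTop atTop :=
          Tendsto.atTop_mul_const hpos (tendsto_atTop_add_const_right _ _ tendsto_natCast_atTop_atTop)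
        filter_upwards [h4.eventually_ge_atTop 2] with n hn
        unfold cut
        rw [indicator_of_mem hz, Real.smoothTransition.one_of_one_le (by linarith), ofReal_one, mul_one]
      · rw [hu0 z hz]; simp
  -- limit of the right-hand side
  have hball : Integrable ((ball (0 : ℂ) 1).indicator (fun _ => 4 * C * Cs * L)) := by
    rw [integrable_indicator_iff measurableSet_ball]
    exact integrableOn_const measure_ball_lt_top.ne
  have hbound : ∀ n z, ‖dbar (cut Ω φ F (nn n)) z * T u z‖ ≤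
      (ball (0 : ℂ) 1).indicator (fun _ => 4 * C * Cs * L) z := by
    intro n z
    by_cases hz : z ∈ Ω
    · rw [indicator_of_mem (h.sub hz), norm_mul]
      have h1 := h.dbar_cut_le hF (hnn1 n) hz
      have hnpos : 0 < nn n := by linarith [hnn1 n]
      have hφlt := h.norm_phi_lt hz
      by_cases hx : deriv Real.smoothTransition (nn n * (1 - ‖φ z‖ ^ 2) - 1) = 0
      · rw [hx, abs_zero, mul_zero, zero_mul] at h1
        have h2 : ‖dbar (cut Ω φ F (nn n)) z‖ = 0 := le_antisymm h1 (norm_nonneg _)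
        rw [h2, zero_mul]
        positivity
      · have hx1 : nn n * (1 - ‖φ z‖ ^ 2) - 1 ≤ 1 := by
          by_contra hcon
          push Not at hcon
          exact hx (smooth_deriv_zero_big hcon)
        have hTφ : ‖T u z‖ * ‖deriv φ z‖ ≤ L * (1 - ‖φ z‖ ^ 2) := by
          by_cases hT0 : T u z = 0
          · rw [hT0, norm_zero, zero_mul]
            have : 0 ≤ 1 - ‖φ z‖ ^ 2 := by nlinarith [norm_nonneg (φ z)]
            positivity
          · have hρ : 0 < ‖T u z‖ / L := by positivity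
            have hb : ball z (‖T u z‖ / L) ⊆ Ω := by
              intro v hv
              by_contra hvΩ
              have h3 := hT z v hvΩ
              rw [mem_ball, dist_eq_norm, norm_sub_rev, lt_div_iff₀ hL] at hv
              linarith
            have h4 := h.deriv_phi_le hz hρ hb
            rw [div_mul_eq_mul_div, div_le_iff₀ hL] at h4
            linarith
        have h5 : nn n * (1 - ‖φ z‖ ^ 2) ≤ 2 := by linarith
        calc ‖dbar (cut Ω φ F (nn n)) z‖ * ‖T u z‖
            ≤ (2 * nn n * ‖F z‖ * |deriv Real.smoothTransition (nn n * (1 - ‖φ z‖ ^ 2) - 1)| * ‖deriv φ z‖) * ‖T u z‖ :=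
              mul_le_mul_of_nonneg_right h1 (norm_nonneg _)
          _ ≤ (2 * nn n * C * Cs * ‖deriv φ z‖) * ‖T u z‖ := by
              gcongr
              · exact hC z hz
              · exact hCs _
          _ = 2 * nn n * C * Cs * (‖T u z‖ * ‖deriv φ z‖) := by ring
          _ ≤ 2 * nn n * C * Cs * (L * (1 - ‖φ z‖ ^ 2)) :=
              mul_le_mul_of_nonneg_left hTφ (by positivity)
          _ = (2 * C * Cs * L) * (nn n * (1 - ‖φ z‖ ^ 2)) := by ring
          _ ≤ (2 * C * Cs * L) * 2 := mul_le_mul_of_nonneg_left h5 (by positivity)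
          _ = 4 * C * Cs * L := by ring
    · rw [h.dbar_cut_out F (hnn1 n) hz, zero_mul, norm_zero]
      exact Set.indicator_nonneg (fun _ _ => by positivity) _
  have hTm : AEStronglyMeasurable (T u) := by
    unfold T
    have hmeas : Measurable (Function.uncurry fun z ζ : ℂ => u ζ * (ζ - z)⁻¹) := by
      have h1 : Measurable fun p : ℂ × ℂ => u p.2 := hu.meas.comp measurable_snd
      have h3 : Measurable fun p : ℂ × ℂ => (p.2 - p.1)⁻¹ := (measurable_snd.sub measurable_fst).inv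
      exact h1.mul h3
    exact hmeas.stronglyMeasurable.integral_prod_right.aestronglyMeasurable
  have hr : Tendsto (fun n => ∫ ζ, dbar (cut Ω φ F (nn n)) ζ * T u ζ) atTop (𝓝 (∫ _ζ : ℂ, (0:ℂ))) := by
    apply tendsto_integral_of_dominated_convergence _ _ hball
    · intro n
      filter_upwards with z
      exact hbound n z
    · filter_upwards with z
      by_cases hz : z ∈ Ω
      · apply tendsto_const_nhds.congr'
        have hpos : 0 < 1 - ‖φ z‖ ^ 2 := by
          have := h.norm_phi_lt hz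
          nlinarith [norm_nonneg (φ z)]
        have h4 : Tendsto (fun n : ℕ => nn n * (1 - ‖φ z‖ ^ 2)) atTop atTop :=
          Tendsto.atTop_mul_const hpos (tendsto_atTop_add_const_right _ _ tendsto_natCast_atTop_atTop)
        filter_upwards [h4.eventually_gt_atTop 2] with n hn
        have h1 := h.dbar_cut_le hF (hnn1 n) hz
        rw [smooth_deriv_zero_big (by linarith), abs_zero, mul_zero, zero_mul] at h1
        have h2 : dbar (cut Ω φ F (nn n)) z = 0 := norm_le_zero_iff.1 h1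
        rw [h2, zero_mul]
      · apply tendsto_const_nhds.congr
        intro n
        rw [h.dbar_cut_out F (hnn1 n) hz, zero_mul]
    · intro n
      obtain ⟨N, hN⟩ := h.cut_adm hF (hnn1 n)
      exact hN.meas.aestronglyMeasurable.mul hTm
  rw [integral_zero] at hr
  have hr2 := hr.const_mul ((Real.pi : ℂ)⁻¹)
  rw [mul_zero] at hr2
  refine tendsto_nhds_unique hl (hr2.congr ?_)
  intro n
  exact (hid n).symm

end SD

end Pool.Agent.Helper523.LL
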