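import Pool.Agent.Helper523.LL.Uniq
import Pool.Agent.Helper523.LL.Green
import Pool.Agent.Helper523.LL.Dual
import Pool.Agent.Helper523.LL.Univ

set_option autoImplicit false

open Set Filter Metric Topology Complex MeasureTheory
open scoped ENNReal Polynomial

namespace Pool.Agent.Helper523.LL
open Pool.Agent.Helper405.Riemann

/-- the inverse of a normalised conformal map -/
theorem sd_of_conf {φ : ℂ → ℂ} (hd : DifferentiableOn ℂ φ Om) (hb : BijOn φ Om (ball 0 1))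
    (h0 : φ 0 = 0) : ∃ g, SD Om g φ := by
  have hzero : (0:ℂ) ∈ Om := half_sub_Om (mem_ball_self (by norm_num))
  have hleft : ∀ z ∈ Om, Function.invFunOn φ Om (φ z) = z := fun z hz =>
    hb.injOn.leftInvOn_invFunOn hz
  have hder : ∀ w ∈ Om, HasStrictDerivAt (Function.invFunOn φ Om) (deriv φ w)⁻¹ (φ w) := by
    intro w hw
    have hs : HasStrictDerivAt φ (deriv φ w) w :=
      ((hd.analyticAt (isOpen_Om.mem_nhds hw)).hasStrictDerivAt)
    apply hs.to_local_left_inverse (deriv_ne_zero_of_injOn isOpen_Om hd hb.injOn hw)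
    filter_upwards [isOpen_Om.mem_nhds hw] with x hx
    exact hleft x hx
  refine ⟨Function.invFunOn φ Om, isOpen_Om, star_Om, Om_sub, half_sub_Om, ?_, ?_, ?_, hd, hb.mapsTo,
    hleft, ?_⟩
  · intro z hz
    obtain ⟨w, hw, rfl⟩ := hb.surjOn hz
    exact (hder w hw).hasDerivAt.differentiableAt.differentiableWithinAt
  · intro z hz
    obtain ⟨w, hw, rfl⟩ := hb.surjOn hz
    rw [hleft w hw]; exact hw
  · conv_lhs => rw [← h0]
    exact hleft 0 hzero
  · intro z hz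
    obtain ⟨w, hw, rfl⟩ := hb.surjOn hz
    rw [hleft w hw]

/-- the polynomials as a space of functions -/
def polySub : Submodule ℂ (ℂ → ℂ) where
  carrier := {v | ∃ P : ℂ[X], v = fun z => P.eval z}
  add_mem' := by
    rintro _ _ ⟨P, rfl⟩ ⟨R, rfl⟩
    exact ⟨P + R, by funext z; simp⟩
  zero_mem' := ⟨0, by funext z; simp⟩
  smul_mem' := by
    rintro c _ ⟨P, rfl⟩
    exact ⟨Polynomial.C c * P, by funext z; simp⟩

section
variable {g φ : ℂ → ℂ}

theorem wI_measurable (h : SD Om g φ) : Measurable (Om.indicator (wt φ)) := by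
  have hwc : ContinuousOn (wt φ) Om := by
    unfold wt
    exact (continuousOn_const.sub h.φd.continuousOn.norm).pow 2
  classical
  rw [← piecewise_eq_indicator]
  exact hwc.measurable_piecewise continuousOn_const h.meas

/-- Density in the bounded case -/
theorem dense_bounded (h : SD Om g φ) {F : ℂ → ℂ} (hF : DifferentiableOn ℂ F Om) {C : ℝ}
    (hC : ∀ z ∈ Om, ‖F z‖ ≤ C) {ε : ℝ≥0∞} (hε : 0 < ε) :
    ∃ P : ℂ[X], ∫⁻ z in Om, ‖F z - P.eval z‖ₑ * ENNReal.ofReal (wt φ z) < ε := by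
  by_contra hcon
  push Not at hcon
  set wI : ℂ → ℝ := Om.indicator (wt φ) with hwI
  have hwIm : Measurable wI := wI_measurable h
  have hwI0 : ∀ z, 0 ≤ wI z := fun z => Set.indicator_nonneg (fun _ _ => wt_nonneg _ _) _
  have hwI1 : ∀ z, wI z ≤ 1 := by
    intro z
    by_cases hz : z ∈ Om
    · rw [hwI, indicator_of_mem hz]; exact h.wt_le_one hz
    · rw [hwI, indicator_of_notMem hz]; exact zero_le_one
  set μ : Measure ℂ := volume.withDensity (fun z => ENNReal.ofReal (wI z)) with hμ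
  have hdm : Measurable (fun z => ENNReal.ofReal (wI z)) := hwIm.ennreal_ofReal
  have hlint : ∀ k : ℂ → ℝ≥0∞, ∫⁻ z, k z ∂μ = ∫⁻ z in Om, k z * ENNReal.ofReal (wt φ z) := by
    intro k
    rw [hμ, lintegral_withDensity_eq_lintegral_mul_non_measurable _ hdm
      (ae_of_all _ (fun _ => ENNReal.ofReal_lt_top)), ← lintegral_indicator h.meas]
    apply lintegral_congr
    intro z
    by_cases hz : z ∈ Om
    · rw [indicator_of_mem hz, Pi.mul_apply, hwI, indicator_of_mem hz, mul_comm]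
    · rw [indicator_of_notMem hz, Pi.mul_apply, hwI, indicator_of_notMem hz, ENNReal.ofReal_zero, zero_mul]
  have hfin : IsFiniteMeasure μ := by
    refine ⟨?_⟩
    rw [← lintegral_one, hlint]
    calc ∫⁻ z in Om, 1 * ENNReal.ofReal (wt φ z) ≤ ∫⁻ _z in Om, 1 := by
          apply setLIntegral_mono' h.meas
          intro z hz
          rw [one_mul, ← ENNReal.ofReal_one]
          exact ENNReal.ofReal_le_ofReal (h.wt_le_one hz)
      _ = volume Om := by rw [lintegral_one, Measure.restrict_apply_univ]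
      _ < ∞ := h.finite_volume
  have hae : ∀ᵐ z ∂μ, z ∈ Om := by
    rw [hμ, ae_withDensity_iff hdm]
    filter_upwards with z hz
    by_contra hzO
    apply hz
    rw [hwI, indicator_of_notMem hzO, ENNReal.ofReal_zero]
  have hint : ∀ k : ℂ → ℂ, ∫ z, k z ∂μ = ∫ z, (wI z : ℂ) * k z := by
    intro k
    rw [hμ, integral_withDensity_eq_integral_toReal_smul hdm (ae_of_all _ (fun _ => ENNReal.ofReal_lt_top))]
    congr 1
    funext z
    rw [ENNReal.toReal_ofReal (hwI0 z), real_smul]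
  -- the functions
  set F1 : ℂ → ℂ := Om.indicator F with hF1
  have hF1m : Measurable F1 := by
    classical
    rw [hF1, ← piecewise_eq_indicator]
    exact hF.continuousOn.measurable_piecewise continuousOn_const h.meas
  have hF1b : MemLp F1 2 μ := by
    apply MemLp.of_bound hF1m.aestronglyMeasurable C
    filter_upwards [hae] with z hz
    rw [hF1, indicator_of_mem hz]; exact hC z hz
  have hV : ∀ v ∈ polySub, MemLp v 2 μ := by
    rintro _ ⟨P, rfl⟩
    obtain ⟨D, hD⟩ := (isCompact_closedBall (0:ℂ) 1).exists_bound_of_continuousOn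
      (f := fun z => P.eval z) P.continuous.continuousOn
    apply MemLp.of_bound P.continuous.aestronglyMeasurable D
    filter_upwards [hae] with z hz
    exact hD z (ball_subset_closedBall (h.sub hz))
  have hε1 : 0 < min ε 1 := lt_min hε one_pos
  have hε1' : min ε 1 ≠ ∞ := (lt_of_le_of_lt (min_le_right _ _) ENNReal.one_lt_top).ne
  have hd : ∀ v ∈ polySub, (min ε 1).toReal ≤ ∫ z, ‖F1 z - v z‖ ∂μ := by
    rintro _ ⟨P, rfl⟩
    have hmem : MemLp (fun z => F1 z - P.eval z) 2 μ := hF1b.sub (hV _ ⟨P, rfl⟩)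
    rw [integral_norm_eq_lintegral_enorm hmem.aestronglyMeasurable]
    apply ENNReal.toReal_mono
    · exact ((memLp_one_of_two hmem).integrable le_rfl).2.ne
    · refine (min_le_left _ _).trans ?_
      have h1 : ∫⁻ z, ‖F1 z - P.eval z‖ₑ ∂μ = ∫⁻ z in Om, ‖F z - P.eval z‖ₑ * ENNReal.ofReal (wt φ z) := by
        rw [hlint]
        apply setLIntegral_congr_fun h.meas
        intro z hz
        simp only [hF1, indicator_of_mem hz]
      rw [h1]
      exact hcon P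
  obtain ⟨G, M, hGm, hGM, hG1, hG2⟩ := exists_annihilator polySub hV hF1b
    (ENNReal.toReal_pos hε1.ne' hε1') hd
  have hM0 : 0 ≤ M := (norm_nonneg _).trans (hGM 0)
  set u : ℂ → ℂ := fun z => (wI z : ℂ) * G z with hu
  have hub : ∀ z, ‖u z‖ ≤ wI z * M := by
    intro z
    rw [hu]
    simp only
    rw [norm_mul, norm_real, Real.norm_of_nonneg (hwI0 z)]
    exact mul_le_mul_of_nonneg_left (hGM z) (hwI0 z)
  have hu0 : ∀ z, z ∉ Om → u z = 0 := by
    intro z hz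
    simp only [hu, hwI, indicator_of_notMem hz, ofReal_zero, zero_mul]
  have hadm : Adm u M := by
    refine ⟨(measurable_ofReal.comp hwIm).mul hGm, ?_, ?_⟩
    · intro z
      refine (hub z).trans ?_
      have := hwI1 z
      nlinarith
    · intro z hz
      exact hu0 z (fun hz' => hz (h.sub hz'))
  have hmom : ∀ k : ℕ, ∫ ζ, u ζ * ζ ^ k = 0 := by
    intro k
    have h1 := hG1 (fun z => (Polynomial.X ^ k : ℂ[X]).eval z) ⟨Polynomial.X ^ k, rfl⟩
    rw [hint] at h1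
    rw [← h1]
    congr 1
    funext z
    simp only [hu, Polynomial.eval_pow, Polynomial.eval_X]
    ring
  have hL : ∀ ζ v, v ∉ Om → ‖u ζ‖ ≤ 32 * M * ‖ζ - v‖ := by
    intro ζ v hv
    by_cases hζ : ζ ∈ Om
    · refine (hub ζ).trans ?_
      have h1 := h.weight_le hζ hv
      have h2 : wI ζ = (1 - ‖φ ζ‖) ^ 2 := by rw [hwI, indicator_of_mem hζ]; rfl
      rw [h2]
      nlinarith
    · rw [hu0 ζ hζ, norm_zero]
      positivity
  have hTz : ∀ v, v ∉ Om → T u v = 0 := fun v hv => T_zero hadm (by positivity) hL hmom hv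
  have hgr := h.green hadm hu0 (L := 32 * M * C0 + 1)
    (by have := C0_nonneg; positivity)
    (by
      intro z v hv
      have h1 := hadm.T_sub_le (L := 32 * M) (v := v) (fun ζ => hL ζ v hv) (by positivity) z
      rw [hTz v hv, sub_zero] at h1
      have h2 : 0 ≤ ‖z - v‖ := norm_nonneg _
      linarith)
    hF hC
  apply hG2
  rw [hint, ← hgr]
  congr 1
  funext z
  by_cases hz : z ∈ Om
  · simp only [hu, hF1, indicator_of_mem hz]
    ring
  · rw [hu0 z hz]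
    simp only [hwI, indicator_of_notMem hz, ofReal_zero, zero_mul]

/-- Density in the weighted Bergman space, normalised conformal map. -/
theorem dense_all (h : SD Om g φ) {f : ℂ → ℂ} (hf : DifferentiableOn ℂ f Om)
    (hfin : ∫⁻ z in Om, ‖f z‖ₑ * ENNReal.ofReal (wt φ z) < ∞) {ε : ℝ≥0∞} (hε : 0 < ε) :
    ∃ P : ℂ[X], ∫⁻ z in Om, ‖f z - P.eval z‖ₑ * ENNReal.ofReal (wt φ z) < ε := by
  obtain ⟨F, hF, ⟨C, hC⟩, h1⟩ := h.dil hf hfin (ENNReal.half_pos hε.ne')
  obtain ⟨P, hP⟩ := dense_bounded h hF hC (ENNReal.half_pos hε.ne')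
  refine ⟨P, ?_⟩
  have hm : AEMeasurable (fun z => ‖f z - F z‖ₑ * ENNReal.ofReal (wt φ z)) (volume.restrict Om) := by
    have hwc : ContinuousOn (wt φ) Om := by
      unfold wt
      exact (continuousOn_const.sub h.φd.continuousOn.norm).pow 2
    have h2 := ((hf.continuousOn.sub hF.continuousOn).aestronglyMeasurable h.meas (μ := volume)).enorm
    have h3 := (hwc.aemeasurable h.meas (μ := volume)).ennreal_ofReal
    exact h2.mul h3
  calc ∫⁻ z in Om, ‖f z - P.eval z‖ₑ * ENNReal.ofReal (wt φ z)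
      ≤ ∫⁻ z in Om, (‖f z - F z‖ₑ * ENNReal.ofReal (wt φ z) +
          ‖F z - P.eval z‖ₑ * ENNReal.ofReal (wt φ z)) := by
        apply lintegral_mono
        intro z
        simp only
        rw [← add_mul]
        gcongr
        have : f z - P.eval z = (f z - F z) + (F z - P.eval z) := by ring
        rw [this]
        exact enorm_add_le _ _
    _ = (∫⁻ z in Om, ‖f z - F z‖ₑ * ENNReal.ofReal (wt φ z)) +
          ∫⁻ z in Om, ‖F z - P.eval z‖ₑ * ENNReal.ofReal (wt φ z) := lintegral_add_left' hm _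
    _ < ε / 2 + ε / 2 := ENNReal.add_lt_add h1 hP
    _ = ε := ENNReal.add_halves ε

end

theorem bl_id {a w : ℂ} (ha : ‖a‖ < 1) (hw : ‖w‖ < 1) :
    (1 - ‖bl a w‖ ^ 2) * ‖1 - (starRingEnd ℂ) a * w‖ ^ 2 = (1 - ‖a‖ ^ 2) * (1 - ‖w‖ ^ 2) := by
  have hne := bl_den_ne ha hw
  have hn : ‖1 - (starRingEnd ℂ) a * w‖ ≠ 0 := norm_ne_zero_iff.2 hne
  have e : ‖bl a w‖ ^ 2 * ‖1 - (starRingEnd ℂ) a * w‖ ^ 2 = ‖w - a‖ ^ 2 := by
    rw [bl, norm_div, div_pow, div_mul_cancel₀ _ (pow_ne_zero 2 hn)]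
  have e1 : ‖w - a‖ ^ 2 = ‖w‖ ^ 2 + ‖a‖ ^ 2 - 2 * (w * (starRingEnd ℂ) a).re := by
    rw [← Complex.normSq_eq_norm_sq, ← Complex.normSq_eq_norm_sq, ← Complex.normSq_eq_norm_sq,
      Complex.normSq_sub]
  have e2 : ‖1 - (starRingEnd ℂ) a * w‖ ^ 2 = 1 + ‖w‖ ^ 2 * ‖a‖ ^ 2 - 2 * (w * (starRingEnd ℂ) a).re := by
    rw [← Complex.normSq_eq_norm_sq, ← Complex.normSq_eq_norm_sq, ← Complex.normSq_eq_norm_sq,
      Complex.normSq_sub]
    simp [Complex.normSq_mul, Complex.normSq_conj, mul_comm]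
  calc (1 - ‖bl a w‖ ^ 2) * ‖1 - (starRingEnd ℂ) a * w‖ ^ 2
      = ‖1 - (starRingEnd ℂ) a * w‖ ^ 2 - ‖bl a w‖ ^ 2 * ‖1 - (starRingEnd ℂ) a * w‖ ^ 2 := by ring
    _ = (1 - ‖a‖ ^ 2) * (1 - ‖w‖ ^ 2) := by rw [e, e1, e2]; ring

/-- Density for every conformal map. -/
theorem dense_conf {φ : ℂ → ℂ} (hd : DifferentiableOn ℂ φ Om) (hb : BijOn φ Om (ball 0 1))
    {f : ℂ → ℂ} (hf : DifferentiableOn ℂ f Om)
    (hfin : ∫⁻ z in Om, ‖f z‖ₑ * ENNReal.ofReal (wt φ z) < ∞) {ε : ℝ≥0∞} (hε : 0 < ε) :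
    ∃ P : ℂ[X], ∫⁻ z in Om, ‖f z - P.eval z‖ₑ * ENNReal.ofReal (wt φ z) < ε := by
  have hzero : (0:ℂ) ∈ Om := half_sub_Om (mem_ball_self (by norm_num))
  have hlt : ∀ z ∈ Om, ‖φ z‖ < 1 := fun z hz => mem_ball_zero_iff.1 (hb.mapsTo hz)
  set a := φ 0 with ha
  have ha1 : ‖a‖ < 1 := hlt 0 hzero
  set ψ : ℂ → ℂ := fun z => bl a (φ z) with hψ
  have hψd : DifferentiableOn ℂ ψ Om := by
    intro z hz
    have h1 : DifferentiableAt ℂ φ z := hd.differentiableAt (isOpen_Om.mem_nhds hz)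
    exact (DifferentiableAt.comp z (bl_hasDerivAt ha1 (hlt z hz)).differentiableAt h1).differentiableWithinAt
  have hψb : BijOn ψ Om (ball 0 1) := by
    refine ⟨?_, ?_, ?_⟩
    · intro z hz
      rw [mem_ball_zero_iff]
      exact bl_norm_lt ha1 (hlt z hz)
    · intro x hx y hy hxy
      exact hb.injOn hx hy (bl_inj ha1 (hlt x hx) (hlt y hy) hxy)
    · intro w hw
      rw [mem_ball_zero_iff] at hw
      have hna : ‖-a‖ < 1 := by rwa [norm_neg]
      have h1 : ‖bl (-a) w‖ < 1 := bl_norm_lt hna hw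
      obtain ⟨z, hz, hzw⟩ := hb.surjOn (mem_ball_zero_iff.2 h1)
      refine ⟨z, hz, ?_⟩
      simp only [hψ]
      rw [hzw]
      have d1 := bl_den_ne hna hw
      have d2 := bl_den_ne ha1 h1
      rw [bl, bl] at *
      rw [map_neg, neg_mul, sub_neg_eq_add, sub_neg_eq_add] at *
      rw [div_eq_iff d2]
      generalize (starRingEnd ℂ) a = b at d1 d2
      have e3 : (w + a) / (1 + b * w) - a = w * (1 - b * a) / (1 + b * w) := by
        rw [eq_div_iff d1, sub_mul, div_mul_cancel₀ _ d1]; ring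
      have e4 : 1 - b * ((w + a) / (1 + b * w)) = (1 - b * a) / (1 + b * w) := by
        rw [eq_div_iff d1, sub_mul, mul_assoc, div_mul_cancel₀ _ d1]; ring
      rw [e3, e4]; ring
  have hψ0 : ψ 0 = 0 := by simp only [hψ, ← ha, bl_self]
  obtain ⟨g, hSD⟩ := sd_of_conf hψd hψb hψ0
  -- comparison of the weights
  have hapos : 0 < 1 - ‖a‖ ^ 2 := by nlinarith [norm_nonneg a]
  set κ : ℝ := 8 / (1 - ‖a‖) ^ 2 with hκ
  have ha2 : 0 < 1 - ‖a‖ := by linarith
  have hκ0 : 0 < κ := by positivity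
  have hcmp : ∀ z ∈ Om, 1 - ‖φ z‖ ≤ κ * (1 - ‖ψ z‖) ∧ 1 - ‖ψ z‖ ≤ κ * (1 - ‖φ z‖) := by
    intro z hz
    have h1 := hlt z hz
    have h2 : ‖ψ z‖ < 1 := bl_norm_lt ha1 h1
    have hid := bl_id ha1 h1
    have hD1 : ‖1 - (starRingEnd ℂ) a * φ z‖ ≤ 2 := by
      have h3 := norm_sub_le (1:ℂ) ((starRingEnd ℂ) a * φ z)
      rw [norm_one, norm_mul, RCLike.norm_conj] at h3
      nlinarith [norm_nonneg a, norm_nonneg (φ z)]
    have hD2 : 1 - ‖a‖ ≤ ‖1 - (starRingEnd ℂ) a * φ z‖ := by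
      have h3 := norm_sub_norm_le (1:ℂ) ((starRingEnd ℂ) a * φ z)
      rw [norm_one, norm_mul, RCLike.norm_conj] at h3
      nlinarith [norm_nonneg a, norm_nonneg (φ z)]
    set D := ‖1 - (starRingEnd ℂ) a * φ z‖ with hD
    have hpψ : 0 ≤ 1 - ‖ψ z‖ := by linarith
    have hpφ : 0 ≤ 1 - ‖φ z‖ := by linarith
    have hnψ := norm_nonneg (ψ z)
    have hnφ := norm_nonneg (φ z)
    have hna := norm_nonneg a
    have hidψ : (1 - ‖ψ z‖ ^ 2) * D ^ 2 = (1 - ‖a‖ ^ 2) * (1 - ‖φ z‖ ^ 2) := hid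
    have b1 : 1 - ‖φ z‖ ≤ 1 - ‖φ z‖ ^ 2 := by nlinarith
    have b2 : 1 - ‖ψ z‖ ≤ 1 - ‖ψ z‖ ^ 2 := by nlinarith
    have b3 : 1 - ‖φ z‖ ^ 2 ≤ 2 * (1 - ‖φ z‖) := by nlinarith
    have b4 : 1 - ‖ψ z‖ ^ 2 ≤ 2 * (1 - ‖ψ z‖) := by nlinarith
    have hD0 : 0 < D := by linarith
    constructor
    · rw [hκ, div_mul_eq_mul_div, le_div_iff₀ (by positivity)]
      have c1 : (1 - ‖a‖) ^ 2 ≤ 1 - ‖a‖ ^ 2 := by nlinarith
      calc (1 - ‖φ z‖) * (1 - ‖a‖) ^ 2 ≤ (1 - ‖φ z‖ ^ 2) * (1 - ‖a‖ ^ 2) :=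
            mul_le_mul b1 c1 (by positivity) (by linarith)
        _ = (1 - ‖ψ z‖ ^ 2) * D ^ 2 := by rw [hidψ]; ring
        _ ≤ (2 * (1 - ‖ψ z‖)) * 4 := by
            apply mul_le_mul b4 _ (by positivity) (by positivity)
            nlinarith
        _ = 8 * (1 - ‖ψ z‖) := by ring
    · rw [hκ, div_mul_eq_mul_div, le_div_iff₀ (by positivity)]
      calc (1 - ‖ψ z‖) * (1 - ‖a‖) ^ 2 ≤ (1 - ‖ψ z‖ ^ 2) * D ^ 2 := by
            apply mul_le_mul b2 _ (by positivity) (by linarith)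
            exact pow_le_pow_left₀ ha2.le hD2 2
        _ = (1 - ‖a‖ ^ 2) * (1 - ‖φ z‖ ^ 2) := hidψ
        _ ≤ 1 * (2 * (1 - ‖φ z‖)) := by
            apply mul_le_mul _ b3 (by linarith) (by norm_num)
            nlinarith
        _ ≤ 8 * (1 - ‖φ z‖) := by linarith
  have hw1 : ∀ z ∈ Om, ENNReal.ofReal (wt φ z) ≤ ENNReal.ofReal (κ ^ 2) * ENNReal.ofReal (wt ψ z) := by
    intro z hz
    rw [← ENNReal.ofReal_mul (by positivity)]
    apply ENNReal.ofReal_le_ofReal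
    have h1 := (hcmp z hz).1
    have h2 := hlt z hz
    unfold wt
    rw [← mul_pow]
    exact pow_le_pow_left₀ (by linarith) h1 2
  have hw2 : ∀ z ∈ Om, ENNReal.ofReal (wt ψ z) ≤ ENNReal.ofReal (κ ^ 2) * ENNReal.ofReal (wt φ z) := by
    intro z hz
    rw [← ENNReal.ofReal_mul (by positivity)]
    apply ENNReal.ofReal_le_ofReal
    have h1 := (hcmp z hz).2
    have h2 : ‖ψ z‖ < 1 := bl_norm_lt ha1 (hlt z hz)
    unfold wt
    rw [← mul_pow]
    exact pow_le_pow_left₀ (by linarith) h1 2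
  set K : ℝ≥0∞ := ENNReal.ofReal (κ ^ 2) with hK
  have hK0 : K ≠ 0 := by
    rw [hK, Ne, ENNReal.ofReal_eq_zero, not_le]; positivity
  have hKt : K ≠ ∞ := ENNReal.ofReal_ne_top
  have hfin2 : ∫⁻ z in Om, ‖f z‖ₑ * ENNReal.ofReal (wt ψ z) < ∞ := by
    calc ∫⁻ z in Om, ‖f z‖ₑ * ENNReal.ofReal (wt ψ z)
        ≤ ∫⁻ z in Om, K * (‖f z‖ₑ * ENNReal.ofReal (wt φ z)) := by
          apply setLIntegral_mono' isOpen_Om.measurableSet
          intro z hz
          calc ‖f z‖ₑ * ENNReal.ofReal (wt ψ z) ≤ ‖f z‖ₑ * (K * ENNReal.ofReal (wt φ z)) := by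
                gcongr
                exact hw2 z hz
            _ = K * (‖f z‖ₑ * ENNReal.ofReal (wt φ z)) := by ring
      _ = K * ∫⁻ z in Om, ‖f z‖ₑ * ENNReal.ofReal (wt φ z) := lintegral_const_mul' _ _ hKt
      _ < ∞ := ENNReal.mul_lt_top hKt.lt_top hfin
  obtain ⟨P, hP⟩ := dense_all hSD hf hfin2 (ε := ε / K) (ENNReal.div_pos hε.ne' hKt)
  refine ⟨P, ?_⟩
  calc ∫⁻ z in Om, ‖f z - P.eval z‖ₑ * ENNReal.ofReal (wt φ z)
      ≤ ∫⁻ z in Om, K * (‖f z - P.eval z‖ₑ * ENNReal.ofReal (wt ψ z)) := by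
        apply setLIntegral_mono' isOpen_Om.measurableSet
        intro z hz
        calc ‖f z - P.eval z‖ₑ * ENNReal.ofReal (wt φ z) ≤ ‖f z - P.eval z‖ₑ * (K * ENNReal.ofReal (wt ψ z)) := by
              gcongr
              exact hw1 z hz
          _ = K * (‖f z - P.eval z‖ₑ * ENNReal.ofReal (wt ψ z)) := by ring
    _ = K * ∫⁻ z in Om, ‖f z - P.eval z‖ₑ * ENNReal.ofReal (wt ψ z) := lintegral_const_mul' _ _ hKt
    _ < K * (ε / K) := (ENNReal.mul_lt_mul_iff_right hK0 hKt).2 hP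
    _ = ε := ENNReal.mul_div_cancel hK0 hKt

theorem simply_connected_Om : IsSimplyConnected Om := by
  have hc : ContractibleSpace Om := star_Om.contractibleSpace ⟨0, half_sub_Om (mem_ball_self (by norm_num))⟩
  exact (inferInstance : SimplyConnectedSpace Om)

theorem exists_conf : ∃ φ : ℂ → ℂ, DifferentiableOn ℂ φ Om ∧ BijOn φ Om (ball 0 1) := by
  have hne : Om ≠ univ := by
    intro h
    have : (3 / 4 : ℂ) ∈ Om := by rw [h]; trivial
    exact this.2 three_quarters_mem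
  obtain ⟨φ, h1, h2, _⟩ := riemann isOpen_Om simply_connected_Om hne
    (a := 0) (half_sub_Om (mem_ball_self (by norm_num)))
  exact ⟨φ, h1, h2⟩

end Pool.Agent.Helper523.LL
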