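import Pool.Agent.Helper523.LL.Domain
import Pool.Agent.Helper523.LL.Cauchy
import Pool.Agent.Helper523.LL.Chain

set_option autoImplicit false

open Set Filter Metric Topology Complex MeasureTheory

namespace Pool.Agent.Helper523.LL

theorem eps_pow (n : ℕ) : (1 / (Q (n + 1) : ℝ)) ^ ((1 / 2 : ℝ) ^ (480 * Q n)) = (1 / 2) ^ (2 ^ Q n) := by
  have e1 : (1 / (Q (n + 1) : ℝ)) = (1 / 2 : ℝ) ^ ((2 ^ (481 * Q n) : ℕ) : ℝ) := by
    rw [Real.rpow_natCast, Q_succ]
    push_cast
    rw [one_div, one_div, inv_pow]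
  rw [e1, ← Real.rpow_mul (by norm_num)]
  have e2 : ((2 ^ (481 * Q n) : ℕ) : ℝ) * (1 / 2 : ℝ) ^ (480 * Q n) = ((2 ^ Q n : ℕ) : ℝ) := by
    push_cast
    rw [show 481 * Q n = Q n + 480 * Q n by ring, pow_add, mul_assoc, ← mul_pow]
    norm_num
  rw [e2, Real.rpow_natCast]

section
variable {u : ℂ → ℂ} {M L : ℝ}

theorem wall_zero (hu : Adm u M) (hL0 : 0 ≤ L)
    (hL : ∀ ζ v, v ∉ Om → ‖u ζ‖ ≤ L * ‖ζ - v‖) (hk : ∀ k : ℕ, ∫ ζ, u ζ * ζ ^ k = 0)
    {e0 : ℂ} (he0 : Nice e0) {r0 : ℝ} (hr0 : 1 / 2 < r0) (hr1 : r0 ≤ 1) : T u (r0 * e0) = 0 := by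
  obtain ⟨n0, hn0⟩ := lattice he0
  have he1 : ‖e0‖ = 1 := he0.1
  set P : ℝ := max M (4 * L) with hP
  have hM0 : 0 ≤ M := hu.nonneg
  have hMP : M ≤ P := le_max_left _ _
  have hLP : 4 * L ≤ P := le_max_right _ _
  have hP0 : 0 ≤ P := hM0.trans hMP
  set B : ℝ := P * C0 with hB
  have hB0 : 0 ≤ B := mul_nonneg hP0 C0_nonneg
  obtain ⟨n2, hn2⟩ := (tendsto_Q.eventually_gt_atTop (1 / (r0 - 1 / 2))).exists_forall_of_atTop
  have key : ∀ n ≥ max n0 n2, ‖T u (r0 * e0)‖ ≤ B * (1 / (Q (n + 1) : ℝ)) + 16 * B * (1 / 2) ^ (2 ^ Q n) := by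
    intro n hn
    have hnn0 : n0 ≤ n := le_trans (le_max_left _ _) hn
    have hnn2 : n2 ≤ n := le_trans (le_max_right _ _) hn
    have hQn : (0:ℝ) < Q n := by exact_mod_cast Q_pos n
    have hQ1 : (1:ℝ) ≤ Q n := by exact_mod_cast Q_pos n
    have hQn1 : (0:ℝ) < Q (n + 1) := by exact_mod_cast Q_pos (n + 1)
    set ρ : ℝ := 1 / (40 * Q n) with hρ
    have hρ0 : 0 < ρ := by positivity
    have hρr : ρ ≤ r0 - 1 / 2 := by
      have h1 := hn2 n hnn2
      rw [div_lt_iff₀ (by linarith)] at h1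
      rw [hρ, div_le_iff₀ (by positivity)]
      nlinarith
    have hρ1 : ρ ≤ 1 / 40 := by
      rw [hρ]
      apply one_div_le_one_div_of_le (by norm_num)
      linarith
    set V : Set ℂ := ⋃ t ∈ Icc r0 2, ball ((t : ℂ) * e0) ρ with hV
    have hVo : IsOpen V := isOpen_biUnion fun _ _ => isOpen_ball
    have hVbd : ∀ ζ ∈ V, ‖u ζ‖ ≤ 4 * L / Q (n + 1) := by
      intro ζ hζ
      by_cases hζ1 : ζ ∈ ball (0:ℂ) 1
      · rw [hV, mem_iUnion₂] at hζ
        obtain ⟨t, ht, hζt⟩ := hζ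
        rw [mem_ball, dist_eq_norm] at hζt
        have ht0 : 0 ≤ t := by linarith [ht.1]
        have hte : ‖(t : ℂ) * e0‖ = t := by rw [norm_mul, he1, mul_one, norm_real, Real.norm_of_nonneg ht0]
        have hdiff : |‖ζ‖ - t| ≤ ρ := by
          have := abs_norm_sub_norm_le ζ ((t : ℂ) * e0)
          rw [hte] at this
          linarith
        have hnζ : 1 / 2 ≤ ‖ζ‖ := by
          have := (abs_le.1 hdiff).1
          linarith [ht.1]
        have h1 : ‖ζ - ‖ζ‖ * e0‖ ≤ 2 * ‖ζ‖ * (1 / (20 * Q n)) := by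
          have h2 : ζ - ‖ζ‖ * e0 = (ζ - t * e0) + ((t - ‖ζ‖ : ℝ) : ℂ) * e0 := by push_cast; ring
          have h3 : ‖((t - ‖ζ‖ : ℝ) : ℂ) * e0‖ ≤ ρ := by
            rw [norm_mul, he1, mul_one, norm_real, Real.norm_eq_abs, abs_sub_comm]
            exact hdiff
          rw [h2]
          refine (norm_add_le _ _).trans ?_
          have h4 : 2 * ρ = 1 / (20 * Q n) := by rw [hρ]; field_simp; norm_num
          have h5 : (1:ℝ) / (20 * Q n) ≤ 2 * ‖ζ‖ * (1 / (20 * Q n)) := by
            have : 0 < (1:ℝ) / (20 * Q n) := by positivity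
            nlinarith
          linarith
        obtain ⟨e', he', hd⟩ := hn0 n hnn0 ζ hnζ h1
        have hv : (‖ζ‖ : ℂ) * e' ∉ Om := fun hmem => hmem.2 (subset_closure ⟨‖ζ‖, e', hnζ, he', rfl⟩)
        have h6 := hL ζ _ hv
        have h7 : ‖ζ‖ < 1 := mem_ball_zero_iff.1 hζ1
        calc ‖u ζ‖ ≤ L * ‖ζ - ‖ζ‖ * e'‖ := h6
          _ ≤ L * (‖ζ‖ * (4 / Q (n + 1))) := mul_le_mul_of_nonneg_left hd hL0
          _ ≤ L * (1 * (4 / Q (n + 1))) := by gcongr
          _ = 4 * L / Q (n + 1) := by ring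
      · rw [hu.supp ζ hζ1, norm_zero]
        positivity
    set u1 : ℂ → ℂ := V.indicator u with hu1
    set u2 : ℂ → ℂ := Vᶜ.indicator u with hu2
    have hA1 : Adm u1 (4 * L / Q (n + 1)) := by
      refine ⟨hu.meas.indicator hVo.measurableSet, ?_, ?_⟩
      · intro ζ
        by_cases hζ : ζ ∈ V
        · rw [hu1, indicator_of_mem hζ]; exact hVbd ζ hζ
        · rw [hu1, indicator_of_notMem hζ, norm_zero]; positivity
      · intro ζ hζ
        rw [hu1]
        by_cases hζ' : ζ ∈ V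
        · rw [indicator_of_mem hζ']; exact hu.supp ζ hζ
        · rw [indicator_of_notMem hζ']
    have hA2 : Adm u2 M := by
      refine ⟨hu.meas.indicator hVo.measurableSet.compl, ?_, ?_⟩
      · intro ζ
        by_cases hζ : ζ ∈ Vᶜ
        · rw [hu2, indicator_of_mem hζ]; exact hu.bd ζ
        · rw [hu2, indicator_of_notMem hζ, norm_zero]; exact hM0
      · intro ζ hζ
        rw [hu2]
        by_cases hζ' : ζ ∈ Vᶜ
        · rw [indicator_of_mem hζ']; exact hu.supp ζ hζ
        · rw [indicator_of_notMem hζ']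
    have hsum : ∀ z, T u z = T u1 z + T u2 z := by
      intro z
      rw [← T_add hA1 hA2]
      congr 1
      funext ζ
      rw [hu1, hu2]
      by_cases hζ : ζ ∈ V
      · rw [indicator_of_mem hζ, indicator_of_notMem (by simpa using hζ), add_zero]
      · rw [indicator_of_notMem hζ, indicator_of_mem (by simpa using hζ), zero_add]
    set ε : ℝ := 1 / (Q (n + 1) : ℝ) with hε
    have hε0 : 0 ≤ ε := by positivity
    have hT1 : ∀ z, ‖T u1 z‖ ≤ B * ε := by
      intro z
      refine (hA1.norm_T_le z).trans ?_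
      have : 4 * L / (Q (n + 1) : ℝ) ≤ P * ε := by
        rw [hε, mul_one_div]
        exact div_le_div_of_nonneg_right hLP hQn1.le
      calc 4 * L / (Q (n + 1) : ℝ) * C0 ≤ (P * ε) * C0 := mul_le_mul_of_nonneg_right this C0_nonneg
        _ = B * ε := by rw [hB]; ring
    have hT2 : ∀ z, ‖T u2 z‖ ≤ B := by
      intro z
      exact (hA2.norm_T_le z).trans (mul_le_mul_of_nonneg_right hMP C0_nonneg)
    have hdiff2 : DifferentiableOn ℂ (T u2) V := by
      apply hA2.T_diff hVo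
      intro ζ hζ
      rw [hu2, indicator_of_notMem (by simpa using hζ)]
    set t : ℕ → ℝ := fun k => max r0 (1 + ρ - k * (ρ / 12)) with ht
    have htmem : ∀ k, t k ∈ Icc r0 2 := by
      intro k
      refine ⟨le_max_left _ _, max_le (by linarith) ?_⟩
      have : 0 ≤ (k:ℝ) * (ρ / 12) := by positivity
      linarith
    have hballV : ∀ k, ball ((t k : ℂ) * e0) ρ ⊆ V := by
      intro k z hz
      rw [hV, mem_iUnion₂]
      exact ⟨t k, htmem k, hz⟩
    have hch := chain (f := T u2) (c := fun k => (t k : ℂ) * e0) (ρ := ρ) (B := B) (ε := ε) hρ0 hε0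
      (by
        intro k
        have h1 : (t (k + 1) : ℂ) * e0 - (t k : ℂ) * e0 = ((t (k + 1) - t k : ℝ) : ℂ) * e0 := by
          push_cast; ring
        rw [h1, norm_mul, he1, mul_one, norm_real, Real.norm_eq_abs]
        have h2 := abs_max_sub_max_le_abs (1 + ρ - ((k + 1 : ℕ) : ℝ) * (ρ / 12)) (1 + ρ - k * (ρ / 12)) r0
        simp only [ht]
        rw [max_comm r0, max_comm r0]
        refine h2.trans (le_of_eq ?_)
        have : 1 + ρ - ((k + 1 : ℕ) : ℝ) * (ρ / 12) - (1 + ρ - k * (ρ / 12)) = -(ρ / 12) := by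
          push_cast; ring
        rw [this, abs_neg, abs_of_pos (by positivity)])
      (fun k => hdiff2.mono (hballV k)) (fun k z _ => hT2 z)
      (by
        intro z hz
        have ht0 : t 0 = 1 + ρ := by
          simp only [ht]
          push_cast
          rw [zero_mul, sub_zero, max_eq_right (by linarith)]
        simp only [ht0] at hz
        rw [mem_ball, dist_eq_norm] at hz
        have h1 : ‖(((1 + ρ : ℝ) : ℂ)) * e0‖ = 1 + ρ := by
          rw [norm_mul, he1, mul_one, norm_real, Real.norm_of_nonneg (by linarith)]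
        have h2 : 1 < ‖z‖ := by
          have h3 := norm_sub_norm_le ((((1 + ρ : ℝ) : ℂ)) * e0) z
          rw [norm_sub_rev, h1] at h3
          linarith
        have h4 := hu.T_out hk h2
        rw [hsum z] at h4
        have h5 : T u2 z = - T u1 z := by linear_combination h4
        rw [h5, norm_neg]
        exact hT1 z)
      (480 * Q n) ((r0 : ℂ) * e0)
      (by
        have : t (480 * Q n) = r0 := by
          simp only [ht]
          apply max_eq_left
          have h1 : ((480 * Q n : ℕ) : ℝ) * (ρ / 12) = 1 := by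
            rw [hρ]; push_cast; field_simp; norm_num
          rw [h1]
          linarith
        simp only [this]
        exact mem_ball_self (by positivity))
    rw [hε, eps_pow] at hch
    rw [hsum]
    refine (norm_add_le _ _).trans (add_le_add (hT1 _) hch)
  have hlim : Tendsto (fun n : ℕ => B * (1 / (Q (n + 1) : ℝ)) + 16 * B * (1 / 2) ^ (2 ^ Q n)) atTop (𝓝 0) := by
    have l1 : Tendsto (fun n : ℕ => 1 / (Q (n + 1) : ℝ)) atTop (𝓝 0) :=
      tendsto_const_nhds.div_atTop (tendsto_Q.comp (tendsto_add_atTop_nat 1))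
    have l2 : Tendsto (fun n : ℕ => (1 / 2 : ℝ) ^ (2 ^ Q n)) atTop (𝓝 0) := by
      apply squeeze_zero (fun n => by positivity) _ (tendsto_pow_atTop_nhds_zero_of_lt_one
        (by norm_num : (0:ℝ) ≤ 1 / 2) (by norm_num))
      intro n
      apply pow_le_pow_of_le_one (by norm_num) (by norm_num)
      have h1 : n < Q n := Q_ge n
      have h2 : Q n < 2 ^ Q n := Nat.lt_two_pow_self
      omega
    have := (l1.const_mul B).add (l2.const_mul (16 * B))
    simpa using this
  have h0 : ‖T u (r0 * e0)‖ ≤ 0 := by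
    apply ge_of_tendsto hlim
    filter_upwards [eventually_ge_atTop (max n0 n2)] with n hn
    exact key n hn
  exact norm_le_zero_iff.1 h0

/-- uniqueness -/
theorem T_zero (hu : Adm u M) (hL0 : 0 ≤ L)
    (hL : ∀ ζ v, v ∉ Om → ‖u ζ‖ ≤ L * ‖ζ - v‖) (hk : ∀ k : ℕ, ∫ ζ, u ζ * ζ ^ k = 0)
    {v : ℂ} (hv : v ∉ Om) : T u v = 0 := by
  have hlip : ∀ z, ‖T u z - T u v‖ ≤ L * C0 * ‖z - v‖ := fun z =>
    hu.T_sub_le (fun ζ => hL ζ v hv) hL0 z
  have happ : ∀ δ > 0, (∃ z, T u z = 0 ∧ ‖z - v‖ < δ) := by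
    intro δ hδ
    by_cases hv1 : 1 ≤ ‖v‖
    · refine ⟨((1 + δ / (2 * ‖v‖) : ℝ) : ℂ) * v, ?_, ?_⟩
      · apply hu.T_out hk
        have hvp : 0 < ‖v‖ := by linarith
        rw [norm_mul, norm_real, Real.norm_of_nonneg (by positivity)]
        have : 0 < δ / (2 * ‖v‖) * ‖v‖ := by positivity
        nlinarith
      · have hvp : 0 < ‖v‖ := by linarith
        have e : ((1 + δ / (2 * ‖v‖) : ℝ) : ℂ) * v - v = ((δ / (2 * ‖v‖) : ℝ) : ℂ) * v := by
          push_cast; ring
        rw [e, norm_mul, norm_real, Real.norm_of_nonneg (by positivity)]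
        have : δ / (2 * ‖v‖) * ‖v‖ = δ / 2 := by field_simp
        rw [this]
        linarith
    · push Not at hv1
      have hvΓ : v ∈ Γ := by
        by_contra hcon
        exact hv ⟨by rwa [mem_ball_zero_iff], hcon⟩
      have hmin : 0 < min (δ / 2) (1 - ‖v‖) := lt_min (by linarith) (by linarith)
      obtain ⟨w, hw, hd⟩ := Metric.mem_closure_iff.1 hvΓ (min (δ / 2) (1 - ‖v‖) / 2) (by linarith)
      rw [dist_eq_norm] at hd
      obtain ⟨r, e, hr, he, rfl⟩ := hw
      have hr0 : 0 ≤ r := by linarith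
      have hre : ‖(r : ℂ) * e‖ = r := by rw [norm_mul, he.1, mul_one, norm_real, Real.norm_of_nonneg hr0]
      have hm1 : min (δ / 2) (1 - ‖v‖) ≤ δ / 2 := min_le_left _ _
      have hm2 : min (δ / 2) (1 - ‖v‖) ≤ 1 - ‖v‖ := min_le_right _ _
      set s : ℝ := min (δ / 2) (1 - ‖v‖) / 2 with hs
      have hs0 : 0 < s := by linarith
      have hr1 : r < 1 - s := by
        have h1 := norm_sub_norm_le ((r : ℂ) * e) v
        rw [norm_sub_rev, hre] at h1
        linarith
      refine ⟨((r + s : ℝ) : ℂ) * e, ?_, ?_⟩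
      · exact wall_zero hu hL0 hL hk he (by linarith) (by linarith)
      · have e1 : ((r + s : ℝ) : ℂ) * e - v = (s : ℂ) * e - (v - r * e) := by push_cast; ring
        rw [e1]
        refine (norm_sub_le _ _).trans_lt ?_
        rw [norm_mul, he.1, mul_one, norm_real, Real.norm_of_nonneg hs0.le]
        linarith
  by_contra hne
  have hpos : 0 < ‖T u v‖ := norm_pos_iff.2 hne
  have hK : 0 ≤ L * C0 := mul_nonneg hL0 C0_nonneg
  obtain ⟨z, hz, hzd⟩ := happ (‖T u v‖ / (L * C0 + 1)) (by positivity)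
  have h1 := hlip z
  rw [hz, zero_sub, norm_neg] at h1
  rw [lt_div_iff₀ (by positivity)] at hzd
  have h2 : 0 ≤ ‖z - v‖ := norm_nonneg _
  by_cases h3 : ‖z - v‖ = 0
  · rw [h3, mul_zero] at h1
    linarith
  · have h4 : 0 < ‖z - v‖ := lt_of_le_of_ne h2 (Ne.symm h3)
    nlinarith

end

end Pool.Agent.Helper523.LL
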